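import Mathlib
import Pool.Agent.Y359.PE.Pow

/-!
# The entropy inequality for product sets with labelled reference valuations

`E a p` is a reference value for the valuation of `a` at `p`; it may depend on `a`, but the vector
`E a` takes at most `M` values. If at every prime the valuation agrees with the reference value for
most elements, the `k`-fold product set is large.
-/

set_option autoImplicit false

namespace Pool.Agent.U358.LP

open Finset Pool.Agent.Y359.PE
open scoped Classical

/-- the deviation of the valuation from the reference value -/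
noncomputable def XE (E : ℤ → ℕ → ℕ) (a : ℤ) (p : ℕ) : ℤ := (fa a p : ℤ) - E a p

lemma nz_XE (A : Finset ℤ) (E : ℤ → ℕ → ℕ) (p : ℕ) :
    nz A (fun a => XE E a p) = (A.filter fun a => fa a p ≠ E a p).card := by
  refine nz_eq _ _ _ fun a => ?_
  rw [mem_filter]
  refine and_congr_right fun _ => ?_
  show fa a p ≠ E a p ↔ (fa a p : ℤ) - E a p ≠ 0
  omega

/-- the classes of the deviations are small -/
lemma fc_XE (A : Finset ℤ) (h0 : (0 : ℤ) ∉ A) (E : ℤ → ℕ → ℕ) (x : ℤ) :
    fc A (mk (pr A) (XE E)) x ≤ 2 * (A.image E).card := by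
  unfold fc
  have h1 : (cl A (mk (pr A) (XE E)) x).card ≤ ((univ : Finset Bool) ×ˢ (A.image E)).card := by
    refine card_le_card_of_injOn (fun y => (decide (0 < y), E y)) ?_ ?_
    · intro y hy
      rw [mem_coe, mem_cl] at hy
      rw [mem_coe, mem_product]
      exact ⟨mem_univ _, mem_image_of_mem _ hy.1⟩
    · intro y hy z hz hyz
      rw [mem_coe, mem_cl, mk_eq_iff] at hy hz
      rw [Prod.mk.injEq] at hyz
      have hs : (0 < y ↔ 0 < z) := by
        have := hyz.1
        rw [decide_eq_decide] at this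
        exact this
      refine eq_of_fa (fun h => h0 (h ▸ hy.1)) (fun h => h0 (h ▸ hz.1)) hs ?_
      intro p
      by_cases hp : p ∈ pr A
      · have h2 := (hy.2 p hp).trans (hz.2 p hp).symm
        unfold XE at h2
        rw [hyz.2] at h2
        have h3 : (fa y p : ℤ) = fa z p := by linarith
        exact_mod_cast h3
      · rw [fa_eq_zero hy.1 hp, fa_eq_zero hz.1 hp]
  refine h1.trans (le_of_eq ?_)
  rw [card_product, card_univ, Fintype.card_bool]

/-- **The entropy inequality with labels.** -/
theorem core (A : Finset ℤ) (hA : A.Nonempty) (h0 : (0 : ℤ) ∉ A) (E : ℤ → ℕ → ℕ)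
    (k : ℕ) (hk : 1 ≤ k) {L γ : ℝ} (hL : 1 < L) (hl : 5 < Real.log L) (hγ : γ ≤ 1)
    (hLγ : k * (4 + k) / Real.log L ≤ γ)
    (hT : ∀ p ∈ pr A, L * ((A.filter fun a => fa a p ≠ E a p).card : ℝ) ≤ A.card) :
    (1 - γ) * k * (Real.log A.card - Real.log (2 * (A.image E).card)) ≤
      Real.log ((pk k A).card * ((A.image E).card : ℝ) ^ k) := by
  have hkr : (1 : ℝ) ≤ k := by exact_mod_cast hk
  obtain ⟨p1, p2, p3⟩ := params hL hl (show (0 : ℝ) ≤ k by positivity)
  have hL0 : 0 < L := by linarith
  have hl0 : 0 < Real.log L := by linarith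
  set κ := 2 / Real.log (1 / (1 / Real.sqrt L)) + k * (1 / L) / (1 / Real.sqrt L) with hκ
  have hκk : k * κ ≤ γ := by
    have h1 := mul_le_mul_of_nonneg_left p3 (show (0 : ℝ) ≤ k by positivity)
    rw [← mul_div_assoc] at h1
    exact h1.trans hLγ
  have hκ0 : 0 ≤ κ := by
    have h3 : 0 < Real.log (1 / (1 / Real.sqrt L)) := by
      rw [one_div_one_div, Real.log_sqrt hL0.le]
      linarith
    positivity
  have hκ1 : κ ≤ 1 := by nlinarith
  set T := pr A with hTd
  obtain ⟨β, B, Y, hB, h1, -, h3⟩ := kcopies A hA (XE E) (τ := 1 / L) (θ := 1 / Real.sqrt L)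
    (by positivity) (by positivity) p2 k hκ1 T (fun p hp => by
      have h4 := hT p hp
      rw [nz_XE, one_div, ← div_eq_inv_mul, le_div_iff₀ hL0]
      linarith) k hk le_rfl
  have e1 : (1 - 2 / Real.log (1 / (1 / Real.sqrt L)) - k * (1 / L) / (1 / Real.sqrt L)) =
      1 - κ := by
    rw [hκ]
    ring
  rw [e1] at h3
  have hbern : 1 - (k : ℝ) * κ ≤ (1 - κ) ^ (k - 1) := by
    have h1 := one_add_mul_le_pow (show (-2 : ℝ) ≤ -κ by linarith) (k - 1)
    have h2 : ((k - 1 : ℕ) : ℝ) ≤ k := by exact_mod_cast Nat.sub_le _ _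
    have h3 : 1 - (k : ℝ) * κ ≤ 1 + ((k - 1 : ℕ) : ℝ) * (-κ) := by nlinarith
    rw [sub_eq_add_neg 1 κ]
    exact h3.trans h1
  set H := h A (mk T (XE E)) with hH
  have hH0 : 0 ≤ H := h_nonneg _ _
  -- the lower bound of the entropy of one vector
  have hlow : Real.log A.card - Real.log (2 * (A.image E).card) ≤ H := by
    have h5 := h_ge_short A A hA (mk T (XE E)) (Subset.refl _)
      (F := 2 * ((A.image E).card : ℝ)) (fun x _ => by
        exact_mod_cast fc_XE A h0 E x)
    have hA0 : (0 : ℝ) < A.card := by exact_mod_cast card_pos.2 hA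
    rw [div_self hA0.ne', one_mul] at h5
    exact h5
  -- the upper bound
  have hup : h B (mk T Y) ≤ Real.log ((pk k A).card * ((A.image E).card : ℝ) ^ k) := by
    refine (h_le_log hB _).trans ?_
    have himg : B.image (mk T Y) ⊆ ((pk k A) ×ˢ (Fintype.piFinset fun _ : Fin k => A.image E)).image
        (fun s : ℤ × (Fin k → ℕ → ℕ) => fun p => if p ∈ T then
          (fa s.1 p : ℤ) - ∑ i, (s.2 i p : ℤ) else 0) := by
      intro v hv
      rw [mem_image] at hv
      obtain ⟨b, hb, rfl⟩ := hv
      obtain ⟨f, hf1, hf2⟩ := h1 b hb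
      rw [mem_image]
      refine ⟨(∏ i, f i, fun i => E (f i)), mem_product.2
        ⟨mem_image_of_mem _ (Fintype.mem_piFinset.2 hf1), Fintype.mem_piFinset.2 fun i =>
          mem_image_of_mem _ (hf1 i)⟩, ?_⟩
      funext p
      unfold Pool.Agent.Y359.PE.mk
      split_ifs with hp
      · rw [hf2]
        dsimp only
        rw [fa_prod f (fun i => by
          intro h
          exact h0 (h ▸ hf1 i)), Finset.sum_apply]
        unfold XE
        rw [sum_sub_distrib]
        push_cast
        rfl
      · rfl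
    have hcard := (card_le_card himg).trans card_image_le
    rw [card_product, Fintype.card_piFinset, prod_const, card_univ, Fintype.card_fin] at hcard
    have hpos : (0 : ℝ) < (B.image (mk T Y)).card := by
      exact_mod_cast card_pos.2 (hB.image _)
    exact Real.log_le_log hpos (by exact_mod_cast hcard)
  have h4 : (1 - γ) * k * H ≤ (1 - κ) ^ (k - 1) * k * H := by
    have : 1 - γ ≤ (1 - κ) ^ (k - 1) := by linarith
    gcongr
  refine le_trans ?_ (h4.trans (h3.trans hup))
  exact mul_le_mul_of_nonneg_left hlow (mul_nonneg (by linarith) (by linarith))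

end Pool.Agent.U358.LP
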