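import Mathlib

/-!
# Counting exponent vectors, and cutting fibres into short blocks
-/

set_option autoImplicit false

namespace Pool.Agent.U358.LP

open Finset
open scoped Classical

lemma geom (c : ℕ) : ∀ n : ℕ, ∑ j ∈ range n, 2 ^ (c + j) ≤ 2 ^ (c + n) := by
  intro n
  induction n with
  | zero => simp
  | succ n ih =>
    rw [sum_range_succ]
    have : 2 ^ (c + (n + 1)) = 2 ^ (c + n) + 2 ^ (c + n) := by
      rw [← add_assoc, pow_succ]; ring
    omega

/-- the number of the vectors with a bounded sum -/
lemma count_large (P : Finset ℕ) : ∀ (u : ℕ) (F : Finset (ℕ → ℕ)),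
    (∀ f ∈ F, (∀ p, p ∉ P → f p = 0) ∧ ∑ p ∈ P, f p ≤ u) → F.card ≤ 2 ^ (P.card + u) := by
  induction P using Finset.induction_on with
  | empty =>
    intro u F hF
    have h1 : F.card ≤ 1 := by
      refine card_le_one.2 fun f hf g hg => ?_
      funext p
      rw [(hF f hf).1 p (notMem_empty _), (hF g hg).1 p (notMem_empty _)]
    exact h1.trans Nat.one_le_two_pow
  | insert q P hq ih =>
    intro u F hF
    have h1 : F.card = ∑ j ∈ range (u + 1), (F.filter fun f => f q = j).card := by
      refine card_eq_sum_card_fiberwise fun f hf => ?_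
      have h2 := (hF f hf).2
      rw [sum_insert hq] at h2
      rw [mem_coe, mem_range]
      omega
    have h2 : ∀ j ∈ range (u + 1), (F.filter fun f => f q = j).card ≤ 2 ^ (P.card + (u - j)) := by
      intro j hj
      rw [mem_range] at hj
      have h3 : (F.filter fun f => f q = j).card =
          ((F.filter fun f => f q = j).image fun f => Function.update f q 0).card := by
        rw [card_image_of_injOn]
        intro f hf g hg hfg
        rw [mem_coe, mem_filter] at hf hg
        funext p
        by_cases hp : p = q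
        · rw [hp, hf.2, hg.2]
        · have := congrFun hfg p
          simpa [Function.update_of_ne hp] using this
      rw [h3]
      refine ih (u - j) _ fun f hf => ?_
      obtain ⟨g, hg, rfl⟩ := mem_image.1 hf
      rw [mem_filter] at hg
      obtain ⟨hg1, hg2⟩ := hg
      obtain ⟨h4, h5⟩ := hF g hg1
      constructor
      · intro p hp
        by_cases hpq : p = q
        · rw [hpq, Function.update_self]
        · rw [Function.update_of_ne hpq]
          exact h4 p (by
            rw [mem_insert]
            push Not
            exact ⟨hpq, hp⟩)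
      · rw [sum_insert hq] at h5
        have h6 : ∑ p ∈ P, Function.update g q 0 p = ∑ p ∈ P, g p := by
          refine sum_congr rfl fun p hp => ?_
          rw [Function.update_of_ne]
          rintro rfl
          exact hq hp
        rw [h6]
        omega
    rw [h1]
    refine (sum_le_sum h2).trans ?_
    have h3 : ∑ j ∈ range (u + 1), 2 ^ (P.card + (u - j)) = ∑ j ∈ range (u + 1),
        2 ^ (P.card + j) := by
      have := sum_range_reflect (fun j => 2 ^ (P.card + j)) (u + 1)
      simpa using this
    rw [h3, card_insert_of_notMem hq]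
    refine (geom _ _).trans (le_of_eq ?_)
    congr 1
    omega

/-- the number of the vectors with bounded entries -/
lemma count_small (P : Finset ℕ) (J : ℕ) (F : Finset (ℕ → ℕ))
    (hF : ∀ f ∈ F, (∀ p, p ∉ P → f p = 0) ∧ ∀ p ∈ P, f p < J) : F.card ≤ J ^ P.card := by
  have h1 : F.card ≤ (P.pi fun _ => range J).card := by
    refine card_le_card_of_injOn (fun f p _ => f p) ?_ ?_
    · intro f hf
      rw [mem_coe, Finset.mem_pi]
      intro p hp
      exact mem_range.2 ((hF f hf).2 p hp)
    · intro f hf g hg hfg
      funext p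
      by_cases hp : p ∈ P
      · exact congrFun (congrFun hfg p) hp
      · rw [(hF f hf).1 p hp, (hF g hg).1 p hp]
  refine h1.trans (le_of_eq ?_)
  rw [card_pi, prod_const, card_range]

/-- both -/
lemma count (Ps Pl : Finset ℕ) (J u : ℕ) (F : Finset (ℕ → ℕ))
    (hF : ∀ f ∈ F, (∀ p, p ∉ Ps → p ∉ Pl → f p = 0) ∧ (∀ p ∈ Ps, f p < J) ∧
      ∑ p ∈ Pl, f p ≤ u) : F.card ≤ J ^ Ps.card * 2 ^ (Pl.card + u) := by
  have h1 := count_small Ps J (F.image fun f => fun p => if p ∈ Ps then f p else 0) (by
    intro g hg
    obtain ⟨f, hf, rfl⟩ := mem_image.1 hg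
    refine ⟨fun p hp => by simp [hp], fun p hp => ?_⟩
    simp only [hp, if_true]
    exact (hF f hf).2.1 p hp)
  have h2 := count_large Pl u (F.image fun f => fun p => if p ∈ Pl then f p else 0) (by
    intro g hg
    obtain ⟨f, hf, rfl⟩ := mem_image.1 hg
    refine ⟨fun p hp => by simp [hp], ?_⟩
    refine le_trans (le_of_eq ?_) (hF f hf).2.2
    refine sum_congr rfl fun p hp => ?_
    simp [hp])
  refine le_trans ?_ (Nat.mul_le_mul h1 h2)
  rw [← card_product]
  refine card_le_card_of_injOn (fun f => (fun p => if p ∈ Ps then f p else 0,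
    fun p => if p ∈ Pl then f p else 0)) ?_ ?_
  · intro f hf
    rw [mem_coe, mem_product]
    exact ⟨mem_image_of_mem _ hf, mem_image_of_mem _ hf⟩
  · intro f hf g hg hfg
    rw [Prod.mk.injEq] at hfg
    funext p
    by_cases hp : p ∈ Ps
    · have := congrFun hfg.1 p
      simpa [hp] using this
    · by_cases hp' : p ∈ Pl
      · have := congrFun hfg.2 p
        simpa [hp'] using this
      · rw [(hF f hf).1 p hp hp', (hF g hg).1 p hp hp']

/-- **Blocks.** -/
lemma blocks {ι : Type} (A : Finset ℤ) (T : Finset ι) (i : ℤ → ι) (hi : ∀ x ∈ A, i x ∈ T) (s : ℕ)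
    (hs : 1 ≤ s) : ∃ b : ℤ → ι × ℕ, (∀ x, (b x).1 = i x) ∧
      (∀ x ∈ A, (A.filter fun y => b y = b x).card ≤ s) ∧
      s * (A.image b).card ≤ A.card + s * T.card := by
  set r : ℤ → ℕ := fun x => (A.filter fun y => i y = i x ∧ y < x).card with hr
  have hinj : ∀ x ∈ A, ∀ y ∈ A, i x = i y → r x = r y → x = y := by
    have key : ∀ x ∈ A, ∀ y ∈ A, i x = i y → x < y → r x < r y := by
      intro x hx y hy hxy hlt
      refine card_lt_card ?_
      refine ⟨fun z hz => ?_, fun hcon => ?_⟩
      · rw [mem_filter] at hz ⊢
        exact ⟨hz.1, hz.2.1.trans hxy, hz.2.2.trans hlt⟩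
      · have h1 := hcon (mem_filter.2 ⟨hx, hxy, hlt⟩)
        rw [mem_filter] at h1
        exact lt_irrefl _ h1.2.2
    intro x hx y hy hxy hrr
    rcases lt_trichotomy x y with h | h | h
    · have := key x hx y hy hxy h
      omega
    · exact h
    · have := key y hy x hx hxy.symm h
      omega
  have hlt : ∀ x ∈ A, r x < (A.filter fun y => i y = i x).card := by
    intro x hx
    refine card_lt_card ?_
    refine ⟨fun z hz => ?_, fun hcon => ?_⟩
    · rw [mem_filter] at hz ⊢
      exact ⟨hz.1, hz.2.1⟩
    · have h1 := hcon (mem_filter.2 ⟨hx, rfl⟩)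
      rw [mem_filter] at h1
      exact lt_irrefl _ h1.2.2
  refine ⟨fun x => (i x, r x / s), fun x => rfl, ?_, ?_⟩
  · intro x hx
    have h1 : (A.filter fun y => (i y, r y / s) = (i x, r x / s)).card ≤
        (Ico (s * (r x / s)) (s * (r x / s) + s)).card := by
      refine card_le_card_of_injOn r ?_ ?_
      · intro y hy
        rw [mem_coe, mem_filter, Prod.mk.injEq] at hy
        rw [mem_coe, mem_Ico, ← hy.2.2]
        have h2 := Nat.div_add_mod (r y) s
        have h3 := Nat.mod_lt (r y) (by omega : 0 < s)
        constructor <;> omega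
      · intro y hy z hz hyz
        rw [mem_coe, mem_filter, Prod.mk.injEq] at hy hz
        exact hinj y hy.1 z hz.1 (hy.2.1.trans hz.2.1.symm) hyz
    refine h1.trans ?_
    rw [Nat.card_Ico]
    omega
  · have h1 : A.image (fun x => (i x, r x / s)) ⊆ T.biUnion fun t =>
        (range ((A.filter fun y => i y = t).card / s + 1)).image fun q => (t, q) := by
      intro v hv
      obtain ⟨x, hx, rfl⟩ := mem_image.1 hv
      refine mem_biUnion.2 ⟨i x, hi x hx, mem_image.2 ⟨r x / s, mem_range.2 ?_, rfl⟩⟩
      have h2 := Nat.div_le_div_right (c := s) (hlt x hx).le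
      omega
    have h2 := (card_le_card h1).trans card_biUnion_le
    have h3 : ∀ t ∈ T, s * ((range ((A.filter fun y => i y = t).card / s + 1)).image
        fun q => (t, q)).card ≤ (A.filter fun y => i y = t).card + s := by
      intro t _
      refine (Nat.mul_le_mul_left s card_image_le).trans ?_
      rw [card_range, Nat.mul_add, mul_one]
      have := Nat.mul_div_le (A.filter fun y => i y = t).card s
      omega
    calc s * (A.image fun x => (i x, r x / s)).card
        ≤ s * ∑ t ∈ T, ((range ((A.filter fun y => i y = t).card / s + 1)).image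
          fun q => (t, q)).card := Nat.mul_le_mul_left s h2
      _ = ∑ t ∈ T, s * ((range ((A.filter fun y => i y = t).card / s + 1)).image
          fun q => (t, q)).card := by rw [mul_sum]
      _ ≤ ∑ t ∈ T, ((A.filter fun y => i y = t).card + s) := sum_le_sum h3
      _ = A.card + s * T.card := by
          rw [sum_add_distrib, sum_const, smul_eq_mul, mul_comm T.card s]
          congr 1
          exact (card_eq_sum_card_fiberwise fun x hx => hi x hx).symm

end Pool.Agent.U358.LP
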