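import Mathlib
import Pool.Agent.U358.LP.Count
import Pool.Agent.U358.LP.Core
import Pool.Agent.R849.SV.Poly

/-!
# Valuations in short blocks of values of primitive polynomials
-/

set_option autoImplicit false

namespace Pool.Agent.U358.LP

open Finset Polynomial Pool.Agent.Y359.PE Pool.Agent.R849.SV
open scoped Classical

/-- the product of the differences of the elements of `J` -/
noncomputable def disc (J : Finset ℤ) : ℕ := (∏ y ∈ J, wt J y).natAbs

lemma disc_ne_zero (J : Finset ℤ) : disc J ≠ 0 := by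
  unfold disc
  rw [Int.natAbs_ne_zero]
  exact prod_ne_zero_iff.2 fun x _ => wt_ne_zero J x

lemma wt_dvd {Q J : Finset ℤ} (h : Q ⊆ J) : (∏ y ∈ Q, wt Q y) ∣ ∏ y ∈ J, wt J y := by
  refine dvd_trans ?_ (prod_dvd_prod_of_subset _ _ _ h)
  refine Finset.prod_dvd_prod_of_dvd _ _ fun y _ => ?_
  unfold wt
  exact prod_dvd_prod_of_subset _ _ _ (erase_subset_erase _ h)

lemma disc_le (J : Finset ℤ) (w s : ℕ) (hw : 1 ≤ w) (hs : J.card ≤ s)
    (hJ : ∀ x ∈ J, ∀ y ∈ J, |x - y| ≤ w) : disc J ≤ w ^ (s * s) := by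
  have h1 : |∏ y ∈ J, wt J y| ≤ (w : ℤ) ^ (s * s) := by
    rw [abs_prod]
    have h4 : ∀ x ∈ J, |wt J x| ≤ (w : ℤ) ^ s := by
      intro x hx
      unfold wt
      rw [abs_prod]
      have h5 : ∏ y ∈ J.erase x, |x - y| ≤ ∏ _y ∈ J.erase x, (w : ℤ) :=
        prod_le_prod (fun _ _ => abs_nonneg _) fun y hy => hJ x hx y (mem_of_mem_erase hy)
      rw [prod_const] at h5
      refine h5.trans ?_
      refine pow_le_pow_right₀ (by exact_mod_cast hw) ?_
      exact (card_le_card (erase_subset _ _)).trans hs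
    have h6 : ∏ x ∈ J, |wt J x| ≤ ∏ _x ∈ J, (w : ℤ) ^ s :=
      prod_le_prod (fun _ _ => abs_nonneg _) h4
    rw [prod_const, ← pow_mul] at h6
    refine h6.trans ?_
    exact pow_le_pow_right₀ (by exact_mod_cast hw) (Nat.mul_le_mul_left s hs)
  unfold disc
  have h2 : ((∏ y ∈ J, wt J y).natAbs : ℤ) ≤ (w : ℤ) ^ (s * s) := by
    rw [Int.natCast_natAbs]
    exact h1
  exact_mod_cast h2

section

variable {ι : Type} (A : Finset ℤ) (b : ℤ → ι × ℕ) (j : ℤ → ℤ)

/-- the block of `x` -/
noncomputable def blk (x : ℤ) : Finset ℤ := A.filter fun y => b y = b x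

/-- the product of the differences of the indices in the block of `x` -/
noncomputable def DD (x : ℤ) : ℕ := disc ((blk A b x).image j)

lemma DD_congr {x y : ℤ} (h : b x = b y) : DD A b j x = DD A b j y := by
  unfold DD blk
  rw [h]

variable {A b j}

/-- at most `d` elements of a block have a large valuation -/
lemma block_exc {i : ℤ → ι} (hb : ∀ x, (b x).1 = i x) (h0 : (0 : ℤ) ∉ A) (g : ι → ℤ[X]) (d : ℕ)
    (hg : ∀ x ∈ A, (g (i x)).IsPrimitive ∧ (g (i x)).natDegree ≤ d)
    (hj : ∀ x ∈ A, x = (g (i x)).eval (j x)) {p : ℕ} (hp : p.Prime) {x : ℤ} (hx : x ∈ A) :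
    ((blk A b x).filter fun y => (DD A b j x).factorization p < fa y p).card ≤ d := by
  by_contra hcon
  push Not at hcon
  set Q := (blk A b x).filter fun y => (DD A b j x).factorization p < fa y p with hQ
  have hQm : ∀ y ∈ Q, y ∈ A ∧ i y = i x ∧ (DD A b j x).factorization p < fa y p := by
    intro y hy
    rw [hQ, mem_filter, blk, mem_filter] at hy
    refine ⟨hy.1.1, ?_, hy.2⟩
    rw [← hb, ← hb, hy.1.2]
  have hinj : Set.InjOn j Q := by
    intro y hy z hz hyz
    have h1 := hQm y hy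
    have h2 := hQm z hz
    rw [hj y h1.1, hj z h2.1, h1.2.1, h2.2.1, hyz]
  have hc : (Q.image j).card = Q.card := card_image_of_injOn hinj
  obtain ⟨hprim, hdeg⟩ := hg x hx
  have h1 := dvd_wt (g (i x)) hprim (Q.image j) (by omega)
    ((p ^ ((DD A b j x).factorization p + 1) : ℕ) : ℤ) (by
      intro v hv
      obtain ⟨y, hy, rfl⟩ := mem_image.1 hv
      obtain ⟨h2, h3, h4⟩ := hQm y hy
      have h5 : (g (i x)).eval (j y) = y := by
        rw [← h3]
        exact (hj y h2).symm
      rw [h5]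
      exact (le_fa_iff (fun h => h0 (h ▸ h2)) hp _).1 h4)
  have h2 : Q.image j ⊆ (blk A b x).image j := image_subset_image (filter_subset _ _)
  have h3 := h1.trans (wt_dvd h2)
  rw [Int.natCast_dvd] at h3
  change p ^ ((DD A b j x).factorization p + 1) ∣ DD A b j x at h3
  rw [hp.pow_dvd_iff_le_factorization (show DD A b j x ≠ 0 from disc_ne_zero _)] at h3
  omega

/-- at most `d` elements per block have a large valuation -/
lemma exc {i : ℤ → ι} (hb : ∀ x, (b x).1 = i x) (h0 : (0 : ℤ) ∉ A) (g : ι → ℤ[X]) (d : ℕ)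
    (hg : ∀ x ∈ A, (g (i x)).IsPrimitive ∧ (g (i x)).natDegree ≤ d)
    (hj : ∀ x ∈ A, x = (g (i x)).eval (j x)) {p : ℕ} (hp : p.Prime) :
    (A.filter fun y => (DD A b j y).factorization p < fa y p).card ≤ d * (A.image b).card := by
  have h1 : (A.filter fun y => (DD A b j y).factorization p < fa y p).card =
      ∑ v ∈ A.image b, ((A.filter fun y => (DD A b j y).factorization p < fa y p).filter
        fun y => b y = v).card := by
    refine card_eq_sum_card_fiberwise fun y hy => ?_
    rw [mem_coe, mem_filter] at hy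
    exact mem_image_of_mem _ hy.1
  rw [h1, mul_comm, ← smul_eq_mul, ← sum_const]
  refine sum_le_sum fun v hv => ?_
  obtain ⟨x, hx, rfl⟩ := mem_image.1 hv
  refine le_trans (card_le_card ?_) (block_exc hb h0 g d hg hj hp hx)
  intro y hy
  rw [mem_filter, mem_filter] at hy
  rw [mem_filter, blk, mem_filter]
  refine ⟨⟨hy.1.1, hy.2⟩, ?_⟩
  rw [← DD_congr A b j hy.2]
  exact hy.1.2

end

end Pool.Agent.U358.LP
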