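import Mathlib
import Pool.Agent.U358.LP.Block

/-!
# The finite inequality
-/

set_option autoImplicit false

namespace Pool.Agent.U358.LP

open Finset Polynomial Pool.Agent.Y359.PE Pool.Agent.R849.SV
open scoped Classical

/-- the total exponent of the primes larger than `Y` in `n ≤ W` -/
lemma sum_fact_le {n W Y : ℕ} (hn : n ≠ 0) (hnW : n ≤ W) (hY : 1 ≤ Y) (P : Finset ℕ)
    (hP : ∀ p ∈ P, Y < p) : ∑ p ∈ P, n.factorization p ≤ Nat.log (Y + 1) W := by
  have h1 : (∏ p ∈ P, p ^ n.factorization p) ∣ n := by
    have h2 : ∏ p ∈ P, p ^ n.factorization p =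
        ∏ p ∈ P.filter (fun p => p ∈ n.primeFactors), p ^ n.factorization p := by
      rw [prod_filter]
      refine prod_congr rfl fun p _ => ?_
      split_ifs with h
      · rfl
      · rw [← Nat.support_factorization, Finsupp.notMem_support_iff] at h
        rw [h, pow_zero]
    rw [h2]
    have h3 : ∏ p ∈ n.primeFactors, p ^ n.factorization p = n :=
      Nat.prod_factorization_pow_eq_self hn
    calc _ ∣ ∏ p ∈ n.primeFactors, p ^ n.factorization p :=
          prod_dvd_prod_of_subset _ _ _ fun p hp => (mem_filter.1 hp).2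
      _ = n := h3
  have h2 : (Y + 1) ^ (∑ p ∈ P, n.factorization p) ≤ ∏ p ∈ P, p ^ n.factorization p := by
    rw [← prod_pow_eq_pow_sum]
    exact prod_le_prod' fun p hp => Nat.pow_le_pow_left (hP p hp) _
  refine Nat.le_log_of_pow_le (by omega) ?_
  exact h2.trans ((Nat.le_of_dvd (by omega) h1).trans hnW)

lemma fact_le_log {n W p : ℕ} (hn : n ≠ 0) (hnW : n ≤ W) (hp : 2 ≤ p) :
    n.factorization p ≤ Nat.log 2 W := by
  refine Nat.le_log_of_pow_le (by norm_num) ?_
  calc 2 ^ n.factorization p ≤ p ^ n.factorization p := Nat.pow_le_pow_left hp _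
    _ ≤ n := Nat.ordProj_le p hn
    _ ≤ W := hnW

/-- **The finite inequality.** -/
theorem main_fin {ι : Type} (A : Finset ℤ) (hA : A.Nonempty) (h0 : (0 : ℤ) ∉ A) (T : Finset ι)
    (i : ℤ → ι) (hi : ∀ x ∈ A, i x ∈ T) (g : ι → ℤ[X]) (d : ℕ)
    (hg : ∀ x ∈ A, (g (i x)).IsPrimitive ∧ (g (i x)).natDegree ≤ d) (j : ℤ → ℤ)
    (hj : ∀ x ∈ A, x = (g (i x)).eval (j x)) (w : ℕ) (hw : 1 ≤ w)
    (hjw : ∀ x ∈ A, 0 ≤ j x ∧ j x ≤ w) (s : ℕ) (hs : 1 ≤ s) (hT : s * T.card ≤ A.card)
    (Y : ℕ) (hY : 1 ≤ Y) (k : ℕ) (hk : 1 ≤ k) {γ : ℝ} (hγ : γ ≤ 1)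
    (hL : 1 < (s : ℝ) / (2 * d + 1)) (hl : 5 < Real.log ((s : ℝ) / (2 * d + 1)))
    (hLγ : k * (4 + k) / Real.log ((s : ℝ) / (2 * d + 1)) ≤ γ) :
    ∃ M : ℕ, 1 ≤ M ∧ M ≤ (Nat.log 2 (w ^ (s * s)) + 1) ^ (Y + 1) *
      2 ^ ((s + 1) * Nat.log (Y + 1) (w ^ (s * s))) ∧
    (1 - γ) * k * (Real.log A.card - Real.log (2 * M)) ≤
      Real.log (pk k A).card + k * Real.log M := by
  obtain ⟨b, hb1, hb2, hb3⟩ := blocks A T i hi s hs
  set D := DD A b j with hD
  set W := w ^ (s * s) with hW
  set u := Nat.log (Y + 1) W with hu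
  have hDW : ∀ x ∈ A, D x ≤ W := by
    intro x hx
    refine disc_le _ w s hw (card_image_le.trans (hb2 x hx)) ?_
    intro v hv v' hv'
    obtain ⟨y, hy, rfl⟩ := mem_image.1 hv
    obtain ⟨y', hy', rfl⟩ := mem_image.1 hv'
    rw [blk, mem_filter] at hy hy'
    have h1 := hjw y hy.1
    have h2 := hjw y' hy'.1
    rw [abs_le]
    constructor <;> linarith [h1.1, h1.2, h2.1, h2.2]
  have hD0 : ∀ x, D x ≠ 0 := fun x => disc_ne_zero _
  set Ps : Finset ℕ := (range (Y + 1)).filter Nat.Prime with hPs
  set Pl : Finset ℕ := (A.biUnion fun x => (D x).primeFactors).filter fun p =>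
    Y < p ∧ A.card ≤ s * (A.filter fun x => p ∣ D x).card with hPl
  have hPlY : ∀ p ∈ Pl, Y < p := fun p hp => (mem_filter.1 hp).2.1
  have hPlp : ∀ p ∈ Pl, p.Prime := by
    intro p hp
    obtain ⟨x, _, hx⟩ := mem_biUnion.1 (mem_filter.1 hp).1
    exact Nat.prime_of_mem_primeFactors hx
  have hPlc : Pl.card ≤ s * u := by
    have h1 : Pl.card * A.card ≤ s * u * A.card := by
      calc Pl.card * A.card = ∑ _p ∈ Pl, A.card := by rw [sum_const, smul_eq_mul]
        _ ≤ ∑ p ∈ Pl, s * (A.filter fun x => p ∣ D x).card :=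
            sum_le_sum fun p hp => (mem_filter.1 hp).2.2
        _ = s * ∑ p ∈ Pl, ∑ x ∈ A, if p ∣ D x then 1 else 0 := by
            rw [mul_sum]
            refine sum_congr rfl fun p _ => ?_
            rw [card_filter]
        _ = s * ∑ x ∈ A, ∑ p ∈ Pl, if p ∣ D x then 1 else 0 := by rw [sum_comm]
        _ ≤ s * ∑ _x ∈ A, u := by
            refine Nat.mul_le_mul_left s (sum_le_sum fun x hx => ?_)
            refine le_trans (sum_le_sum fun p hp => ?_)
              (sum_fact_le (hD0 x) (hDW x hx) hY Pl hPlY)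
            split_ifs with h
            · exact (hPlp p hp).factorization_pos_of_dvd (hD0 x) h
            · exact Nat.zero_le _
        _ = s * u * A.card := by rw [sum_const, smul_eq_mul]; ring
    exact Nat.le_of_mul_le_mul_right h1 (card_pos.2 hA)
  set E : ℤ → ℕ → ℕ := fun x p => if p ∈ Ps ∨ p ∈ Pl then min (fa x p) ((D x).factorization p)
    else 0 with hE
  have hEc : (A.image E).card ≤ (Nat.log 2 W + 1) ^ (Y + 1) * 2 ^ ((s + 1) * u) := by
    refine (count Ps Pl (Nat.log 2 W + 1) u (A.image E) ?_).trans ?_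
    · intro f hf
      obtain ⟨x, hx, rfl⟩ := mem_image.1 hf
      refine ⟨?_, ?_, ?_⟩
      · intro p h1 h2
        simp only [hE, h1, h2, or_self, if_false]
      · intro p hp
        simp only [hE, hp, true_or, if_true]
        have h1 : p.Prime := (mem_filter.1 hp).2
        have h2 := fact_le_log (hD0 x) (hDW x hx) h1.two_le
        have h3 : min (fa x p) ((D x).factorization p) ≤ (D x).factorization p := min_le_right _ _
        omega
      · refine le_trans (sum_le_sum fun p hp => ?_) (sum_fact_le (hD0 x) (hDW x hx) hY Pl hPlY)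
        simp only [hE, hp, or_true, if_true]
        exact min_le_right _ _
    · have h1 : Ps.card ≤ Y + 1 := (card_filter_le _ _).trans (by rw [card_range])
      refine Nat.mul_le_mul (Nat.pow_le_pow_right (by omega) h1)
        (Nat.pow_le_pow_right (by norm_num) ?_)
      rw [add_mul, one_mul]
      omega
  have hexc := fun (p : ℕ) (hp : p.Prime) => exc (A := A) (b := b) (j := j) hb1 h0 g d hg hj hp
  have hblk : s * (A.image b).card ≤ 2 * A.card := by omega
  have hpop : ∀ p ∈ pr A, s * (A.filter fun a => fa a p ≠ E a p).card ≤ (2 * d + 1) * A.card := by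
    intro p hp
    have hpp := prime_of_mem_pr hp
    have h1 : s * (A.filter fun y => (D y).factorization p < fa y p).card ≤ 2 * d * A.card := by
      calc s * (A.filter fun y => (D y).factorization p < fa y p).card
          ≤ s * (d * (A.image b).card) := Nat.mul_le_mul_left s (hexc p hpp)
        _ = d * (s * (A.image b).card) := by ring
        _ ≤ d * (2 * A.card) := Nat.mul_le_mul_left d hblk
        _ = 2 * d * A.card := by ring
    by_cases hc : p ∈ Ps ∨ p ∈ Pl
    · have h2 : (A.filter fun a => fa a p ≠ E a p) ⊆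
          A.filter fun y => (D y).factorization p < fa y p := by
        intro a ha
        rw [mem_filter] at ha ⊢
        refine ⟨ha.1, ?_⟩
        have h3 := ha.2
        simp only [hE, hc, if_true] at h3
        by_contra h4
        exact h3 (min_eq_left (not_lt.1 h4)).symm
      have h3 := Nat.mul_le_mul_left s (card_le_card h2)
      nlinarith
    · have h2 : (A.filter fun a => fa a p ≠ E a p) ⊆
          (A.filter fun y => (D y).factorization p < fa y p) ∪ A.filter fun x => p ∣ D x := by
        intro a ha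
        rw [mem_filter] at ha
        rw [mem_union, mem_filter, mem_filter]
        have h3 := ha.2
        simp only [hE, hc, if_false] at h3
        by_cases h4 : p ∣ D a
        · exact Or.inr ⟨ha.1, h4⟩
        · left
          refine ⟨ha.1, ?_⟩
          rw [Nat.factorization_eq_zero_of_not_dvd h4]
          omega
      have h3 : s * (A.filter fun x => p ∣ D x).card ≤ A.card := by
        by_contra h4
        apply hc
        right
        rw [hPl, mem_filter]
        have h5 : Y < p := by
          by_contra h6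
          apply hc
          left
          rw [hPs, mem_filter, mem_range]
          exact ⟨by omega, hpp⟩
        refine ⟨?_, h5, by omega⟩
        have h6 : (A.filter fun x => p ∣ D x).Nonempty := by
          rw [← card_pos]
          rcases Nat.eq_zero_or_pos (A.filter fun x => p ∣ D x).card with h7 | h7
          · rw [h7, mul_zero] at h4
            omega
          · exact h7
        obtain ⟨x, hx⟩ := h6
        rw [mem_filter] at hx
        exact mem_biUnion.2 ⟨x, hx.1, Nat.mem_primeFactors.2 ⟨hpp, hx.2, hD0 x⟩⟩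
      have h4 := (card_le_card h2).trans (card_union_le _ _)
      calc s * (A.filter fun a => fa a p ≠ E a p).card
          ≤ s * ((A.filter fun y => (D y).factorization p < fa y p).card +
            (A.filter fun x => p ∣ D x).card) := Nat.mul_le_mul_left s h4
        _ = s * (A.filter fun y => (D y).factorization p < fa y p).card +
            s * (A.filter fun x => p ∣ D x).card := by ring
        _ ≤ 2 * d * A.card + A.card := Nat.add_le_add h1 h3
        _ = _ := by ring
  have hEpos : 0 < (A.image E).card := card_pos.2 (hA.image _)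
  refine ⟨(A.image E).card, hEpos, hEc, ?_⟩
  have hmain := core A hA h0 E k hk hL hl hγ hLγ (by
    intro p hp
    have h1 : ((s : ℝ)) * ((A.filter fun a => fa a p ≠ E a p).card : ℝ) ≤
        (2 * d + 1) * A.card := by exact_mod_cast hpop p hp
    rw [div_mul_eq_mul_div, div_le_iff₀ (by positivity)]
    linarith)
  have hpk : (0 : ℝ) < (pk k A).card := by exact_mod_cast card_pos.2 (pk_nonempty hA)
  have hE0 : (0 : ℝ) < (A.image E).card := by exact_mod_cast hEpos
  rw [Real.log_mul hpk.ne' (by positivity), Real.log_pow] at hmain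
  exact hmain

end Pool.Agent.U358.LP
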