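import Mathlib
import Pool.Agent.U358.LP.Fin

/-!
# Sets covered by few short polynomial progressions: the asymptotic form
-/

set_option autoImplicit false

namespace Pool.Agent.U358.LP

open Finset Polynomial Pool.Agent.Y359.PE Pool.Agent.R849.SV
open scoped Classical

lemma asym (C a : ℝ) (hC : 0 ≤ C) (ha : 0 < a) : ∃ l₀ : ℝ, 1 ≤ l₀ ∧ ∀ l : ℝ, l₀ ≤ l →
    (Real.sqrt l + 1) * Real.log (C * l ^ 2 + 1) ≤ a * l := by
  have h1 := (isLittleO_log_rpow_atTop (show (0 : ℝ) < 1 / 2 by norm_num)).def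
    (show 0 < a / 8 by positivity)
  have h2 : ∀ᶠ l : ℝ in Filter.atTop, 4 * Real.log (C + 1) / a ≤ Real.sqrt l :=
    (Real.tendsto_sqrt_atTop).eventually_ge_atTop _
  obtain ⟨l₀, h⟩ := Filter.eventually_atTop.1 (h1.and h2)
  refine ⟨max l₀ 1, le_max_right _ _, fun l hl => ?_⟩
  obtain ⟨h3, h4⟩ := h l ((le_max_left _ _).trans hl)
  have hl1 : 1 ≤ l := (le_max_right _ _).trans hl
  have hl0 : 0 < l := by linarith
  rw [Real.norm_eq_abs, Real.norm_eq_abs, ← Real.sqrt_eq_rpow,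
    abs_of_nonneg (Real.log_nonneg hl1), abs_of_nonneg (Real.sqrt_nonneg _)] at h3
  have hs1 : 1 ≤ Real.sqrt l := by
    rw [← Real.sqrt_one]
    exact Real.sqrt_le_sqrt hl1
  rw [div_le_iff₀ ha] at h4
  have h5 : Real.log (C * l ^ 2 + 1) ≤ Real.log (C + 1) + 2 * Real.log l := by
    have e1 : C * l ^ 2 + 1 ≤ (C + 1) * l ^ 2 := by nlinarith
    have e2 := Real.log_le_log (by positivity) e1
    rw [Real.log_mul (by positivity) (by positivity), Real.log_pow] at e2
    push_cast at e2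
    exact e2
  have h6 : Real.log (C * l ^ 2 + 1) ≤ a / 2 * Real.sqrt l := by linarith
  have h7 : 0 ≤ Real.log (C * l ^ 2 + 1) := Real.log_nonneg (by nlinarith [sq_nonneg l])
  calc (Real.sqrt l + 1) * Real.log (C * l ^ 2 + 1)
      ≤ (2 * Real.sqrt l) * (a / 2 * Real.sqrt l) :=
        mul_le_mul (by linarith) h6 h7 (by positivity)
    _ = a * (Real.sqrt l * Real.sqrt l) := by ring
    _ = a * l := by rw [Real.mul_self_sqrt hl0.le]

/-- the size of the number of labels -/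
lemma label_bound {s N : ℕ} {η : ℝ} (hη1 : η ≤ 1) {l : ℝ} (hl : l = Real.log N)
    (hl3 : Real.exp 1 ≤ l) (w : ℕ) (hw : 1 ≤ w) (hwN : (w : ℝ) ≤ (N : ℝ) ^ (η * Real.log l))
    (M : ℕ) (hM1 : 1 ≤ M)
    (hM : M ≤ (Nat.log 2 (w ^ (s * s)) + 1) ^ (⌊Real.sqrt l⌋₊ + 1) *
      2 ^ ((s + 1) * Nat.log (⌊Real.sqrt l⌋₊ + 1) (w ^ (s * s)))) :
    Real.log M ≤ (Real.sqrt l + 1) * Real.log (2 * s ^ 2 * l ^ 2 + 1) +
      (s + 1) * (2 * s ^ 2) * η * l := by
  have he := Real.add_one_le_exp (1 : ℝ)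
  have hl0 : 0 < l := by linarith
  have hN1 : (1 : ℝ) < N := by
    by_contra h
    have h1 : Real.log N ≤ 0 := Real.log_nonpos (by positivity) (not_lt.1 h)
    linarith
  have hN0 : (0 : ℝ) < N := by linarith
  set lam := Real.log l with hlam
  have hlam1 : 1 ≤ lam := by
    rw [hlam, Real.le_log_iff_exp_le hl0]
    exact hl3
  have hlaml : lam ≤ l := by
    have := Real.log_le_sub_one_of_pos hl0
    linarith
  have hwr : (1 : ℝ) ≤ w := by exact_mod_cast hw
  have hlogw : Real.log w ≤ η * lam * l := by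
    have h1 := Real.log_le_log (by linarith) hwN
    rw [Real.log_rpow hN0, ← hl] at h1
    exact h1
  set W := w ^ (s * s) with hW
  have hW1 : 1 ≤ W := Nat.one_le_pow _ _ hw
  have hlogW : Real.log W ≤ s ^ 2 * (η * lam * l) := by
    rw [hW]
    push_cast
    rw [Real.log_pow]
    push_cast
    have : ((s : ℝ) * s) * Real.log w ≤ (s : ℝ) * s * (η * lam * l) :=
      mul_le_mul_of_nonneg_left hlogw (by positivity)
    linarith
  have hlogW0 : 0 ≤ Real.log (W : ℝ) := Real.log_nonneg (by exact_mod_cast hW1)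
  set Y := ⌊Real.sqrt l⌋₊ with hY
  have hs1 : 1 ≤ Real.sqrt l := by
    rw [← Real.sqrt_one]
    exact Real.sqrt_le_sqrt (by linarith)
  have hY1 : 1 ≤ Y := Nat.le_floor (by exact_mod_cast hs1)
  have hYs : (Y : ℝ) ≤ Real.sqrt l := Nat.floor_le (Real.sqrt_nonneg _)
  have hYs' : Real.sqrt l ≤ (Y : ℝ) + 1 := (Nat.lt_floor_add_one _).le
  have hlogY : lam / 2 ≤ Real.log ((Y : ℝ) + 1) := by
    have h1 := Real.log_le_log (by linarith) hYs'
    rw [Real.log_sqrt hl0.le] at h1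
    exact h1
  -- the exponent `u`
  set u := Nat.log (Y + 1) W with hu
  have hur : (u : ℝ) ≤ 2 * s ^ 2 * η * l := by
    have h1 : (Y + 1) ^ u ≤ W := Nat.pow_log_le_self _ (by omega)
    have h2 : (((Y + 1) ^ u : ℕ) : ℝ) ≤ W := by exact_mod_cast h1
    have h3 := Real.log_le_log (by positivity) h2
    push_cast at h3
    rw [Real.log_pow] at h3
    have h4 : (u : ℝ) * (lam / 2) ≤ s ^ 2 * (η * lam * l) :=
      (mul_le_mul_of_nonneg_left hlogY (by positivity)).trans (h3.trans hlogW)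
    have h5 : (u : ℝ) * lam ≤ (2 * s ^ 2 * η * l) * lam := by nlinarith
    exact le_of_mul_le_mul_right h5 (by linarith)
  have hlog2 := Real.log_two_gt_d9
  have hlog2' := Real.log_two_lt_d9
  -- the bound `J`
  have hJ : ((Nat.log 2 W + 1 : ℕ) : ℝ) ≤ 2 * s ^ 2 * l ^ 2 + 1 := by
    have h1 : 2 ^ Nat.log 2 W ≤ W := Nat.pow_log_le_self _ (by omega)
    have h2 : ((2 ^ Nat.log 2 W : ℕ) : ℝ) ≤ W := by exact_mod_cast h1
    have h3 := Real.log_le_log (by positivity) h2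
    push_cast at h3
    rw [Real.log_pow] at h3
    have h4 : ((Nat.log 2 W : ℕ) : ℝ) ≤ 2 * Real.log W := by
      have : 0 ≤ ((Nat.log 2 W : ℕ) : ℝ) := by positivity
      nlinarith
    have h5 : η * lam * l ≤ l ^ 2 := by
      have h6 : η * lam ≤ l := by
        calc η * lam ≤ 1 * l := mul_le_mul hη1 hlaml (by linarith) (by norm_num)
          _ = l := one_mul l
      calc η * lam * l ≤ l * l := mul_le_mul_of_nonneg_right h6 hl0.le
        _ = l ^ 2 := by ring
    push_cast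
    have h6 : (s : ℝ) ^ 2 * (η * lam * l) ≤ s ^ 2 * l ^ 2 :=
      mul_le_mul_of_nonneg_left h5 (by positivity)
    linarith
  -- conclusion
  have hMr : (M : ℝ) ≤ ((Nat.log 2 W + 1 : ℕ) : ℝ) ^ (Y + 1) * 2 ^ ((s + 1) * u) := by
    exact_mod_cast hM
  have hM0 : (0 : ℝ) < M := by exact_mod_cast hM1
  have hJ0 : (0 : ℝ) < ((Nat.log 2 W + 1 : ℕ) : ℝ) := by positivity
  have h1 := Real.log_le_log hM0 hMr
  rw [Real.log_mul (by positivity) (by positivity), Real.log_pow, Real.log_pow] at h1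
  have h2 : Real.log ((Nat.log 2 W + 1 : ℕ) : ℝ) ≤ Real.log (2 * s ^ 2 * l ^ 2 + 1) :=
    Real.log_le_log hJ0 hJ
  have h3 : 0 ≤ Real.log ((Nat.log 2 W + 1 : ℕ) : ℝ) := Real.log_natCast_nonneg _
  have h4 : ((Y + 1 : ℕ) : ℝ) * Real.log ((Nat.log 2 W + 1 : ℕ) : ℝ) ≤
      (Real.sqrt l + 1) * Real.log (2 * s ^ 2 * l ^ 2 + 1) := by
    refine mul_le_mul ?_ h2 h3 (by positivity)
    push_cast
    linarith
  have h5 : (((s + 1) * u : ℕ) : ℝ) * Real.log 2 ≤ (s + 1) * (2 * s ^ 2) * η * l := by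
    push_cast
    have e1 : ((s : ℝ) + 1) * u ≤ (s + 1) * (2 * s ^ 2 * η * l) :=
      mul_le_mul_of_nonneg_left hur (by positivity)
    have e2 : ((s : ℝ) + 1) * u * Real.log 2 ≤ (s + 1) * u * 1 :=
      mul_le_mul_of_nonneg_left (by linarith) (by positivity)
    linarith
  linarith

/-- **Sets covered by few short polynomial progressions.** -/
theorem main (k : ℕ) (hk : 1 ≤ k) (d : ℕ) (ε : ℝ) (hε : 0 < ε) :
    ∃ δ η c : ℝ, 0 < δ ∧ 0 < η ∧ 0 < c ∧ ∀ (N : ℕ) (A : Finset ℤ), A.Nonempty → A.card ≤ N →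
      ∀ (ι : Type) (T : Finset ι) (g : ι → ℤ[X]), (T.card : ℝ) ≤ δ * A.card →
      (∀ i ∈ T, (g i).IsPrimitive ∧ (g i).natDegree ≤ d) →
      (∀ x ∈ A, ∃ i ∈ T, ∃ j : ℕ, (j : ℝ) ≤ (N : ℝ) ^ (η * Real.log (Real.log N)) ∧
        x = (g i).eval (j : ℤ)) →
      c * (N : ℝ) ^ (-ε) * (A.card : ℝ) ^ k ≤ (pk k A).card := by
  have hkr : (1 : ℝ) ≤ k := by exact_mod_cast hk
  have hk0 : (0 : ℝ) < k := by linarith
  -- the parameters
  set γ : ℝ := min 1 (ε / (2 * k)) with hγ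
  have hγ0 : 0 < γ := lt_min one_pos (by positivity)
  have hγ1 : γ ≤ 1 := min_le_left _ _
  have hγk : γ * k ≤ ε / 2 := by
    have h1 : γ ≤ ε / (2 * k) := min_le_right _ _
    calc γ * k ≤ ε / (2 * k) * k := mul_le_mul_of_nonneg_right h1 hk0.le
      _ = ε / 2 := by field_simp
  set v : ℝ := k * (4 + k) / γ with hv
  have hv0 : 0 ≤ v := by positivity
  set s : ℕ := ⌈(2 * d + 1) * Real.exp (6 + v)⌉₊ with hs
  have hsr : (2 * d + 1) * Real.exp (6 + v) ≤ s := Nat.le_ceil _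
  have hL1 : Real.exp (6 + v) ≤ (s : ℝ) / (2 * d + 1) := by
    rw [le_div_iff₀ (by positivity)]
    linarith
  have hL0 : 0 < (s : ℝ) / (2 * d + 1) := lt_of_lt_of_le (Real.exp_pos _) hL1
  have hlogL : 6 + v ≤ Real.log ((s : ℝ) / (2 * d + 1)) := by
    rw [Real.le_log_iff_exp_le hL0]
    exact hL1
  have hLone : 1 < (s : ℝ) / (2 * d + 1) :=
    lt_of_lt_of_le (Real.one_lt_exp_iff.2 (by linarith)) hL1
  have hs1 : 1 ≤ s := by
    rcases Nat.eq_zero_or_pos s with h | h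
    · rw [h] at hL0
      simp at hL0
    · exact h
  have hs0 : (0 : ℝ) < s := by exact_mod_cast hs1
  set η : ℝ := min 1 (ε / (16 * k * ((s + 1) * (2 * s ^ 2)))) with hη
  have hη0 : 0 < η := lt_min one_pos (by positivity)
  have hη1 : η ≤ 1 := min_le_left _ _
  have hηs : (s + 1) * (2 * (s : ℝ) ^ 2) * η ≤ ε / (16 * k) := by
    have h1 : η ≤ ε / (16 * k * ((s + 1) * (2 * s ^ 2))) := min_le_right _ _
    calc (s + 1) * (2 * (s : ℝ) ^ 2) * η ≤
        (s + 1) * (2 * (s : ℝ) ^ 2) * (ε / (16 * k * ((s + 1) * (2 * s ^ 2)))) :=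
          mul_le_mul_of_nonneg_left h1 (by positivity)
      _ = ε / (16 * k) := by field_simp
  obtain ⟨l₀, hl₀1, hasym⟩ := asym (2 * s ^ 2) (ε / (16 * k)) (by positivity) (by positivity)
  set l₁ : ℝ := max l₀ (max (Real.exp 1) (8 * k / ε)) with hl₁
  set N₀ : ℕ := ⌈Real.exp l₁⌉₊ with hN₀
  have hN₀1 : 1 ≤ N₀ := Nat.one_le_ceil_iff.2 (Real.exp_pos _)
  have hN₀r : (1 : ℝ) ≤ N₀ := by exact_mod_cast hN₀1
  refine ⟨1 / (2 * s), η, 1 / (N₀ : ℝ) ^ k, by positivity, hη0, by positivity, ?_⟩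
  intro N A hA hAN ι T g hT hg hcov
  have hA1 : 1 ≤ A.card := card_pos.2 hA
  have hA1r : (1 : ℝ) ≤ A.card := by exact_mod_cast hA1
  have hANr : (A.card : ℝ) ≤ N := by exact_mod_cast hAN
  have hN1 : (1 : ℝ) ≤ N := by linarith
  have hpk1 : (1 : ℝ) ≤ (pk k A).card := by exact_mod_cast card_pos.2 (pk_nonempty hA)
  have hNε : (N : ℝ) ^ (-ε) ≤ 1 := Real.rpow_le_one_of_one_le_of_nonpos hN1 (by linarith)
  have hNε0 : 0 < (N : ℝ) ^ (-ε) := Real.rpow_pos_of_pos (by linarith) _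
  by_cases hNbig : N < N₀
  · -- small sets
    have h1 : (A.card : ℝ) ^ k ≤ (N₀ : ℝ) ^ k := by
      refine pow_le_pow_left₀ (by positivity) ?_ k
      have : (N : ℝ) ≤ N₀ := by exact_mod_cast hNbig.le
      linarith
    calc 1 / (N₀ : ℝ) ^ k * (N : ℝ) ^ (-ε) * (A.card : ℝ) ^ k
        ≤ 1 / (N₀ : ℝ) ^ k * 1 * (N₀ : ℝ) ^ k := by gcongr
      _ = 1 := by field_simp
      _ ≤ _ := hpk1
  push Not at hNbig
  set l := Real.log N with hl
  have hl1 : l₁ ≤ l := by
    rw [hl, Real.le_log_iff_exp_le (by linarith)]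
    exact (Nat.le_ceil _).trans (by exact_mod_cast hNbig)
  have hll₀ : l₀ ≤ l := (le_max_left _ _).trans hl1
  have hl3 : Real.exp 1 ≤ l := (le_max_left _ _).trans ((le_max_right _ _).trans hl1)
  have hl8 : 8 * k / ε ≤ l := (le_max_right _ _).trans ((le_max_right _ _).trans hl1)
  have hl0 : 0 < l := lt_of_lt_of_le (Real.exp_pos _) hl3
  have hlam0 : 0 ≤ Real.log l := Real.log_nonneg (by
    have := Real.add_one_le_exp (1 : ℝ)
    linarith)
  -- the case of one element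
  have h8 : 8 * k ≤ ε * l := by
    rw [div_le_iff₀ hε] at hl8
    linarith
  have hfinal : (k : ℝ) * Real.log A.card - ε * l ≤ Real.log (pk k A).card →
      1 / (N₀ : ℝ) ^ k * (N : ℝ) ^ (-ε) * (A.card : ℝ) ^ k ≤ (pk k A).card := by
    intro h1
    have h2 : (N : ℝ) ^ (-ε) * (A.card : ℝ) ^ k ≤ (pk k A).card := by
      rw [← Real.log_le_log_iff (by positivity) (by linarith),
        Real.log_mul (by positivity) (by positivity), Real.log_rpow (by linarith), Real.log_pow]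
      rw [← hl]
      linarith
    refine le_trans ?_ h2
    have h3 : 1 / (N₀ : ℝ) ^ k ≤ 1 := by
      rw [div_le_one (by positivity)]
      exact one_le_pow₀ hN₀r
    calc 1 / (N₀ : ℝ) ^ k * (N : ℝ) ^ (-ε) * (A.card : ℝ) ^ k
        = 1 / (N₀ : ℝ) ^ k * ((N : ℝ) ^ (-ε) * (A.card : ℝ) ^ k) := by ring
      _ ≤ 1 * ((N : ℝ) ^ (-ε) * (A.card : ℝ) ^ k) := by gcongr
      _ = _ := one_mul _
  apply hfinal
  have hlogpk0 : 0 ≤ Real.log (pk k A).card := Real.log_nonneg hpk1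
  by_cases hA2 : A.card = 1
  · rw [hA2]
    simp only [Nat.cast_one, Real.log_one, mul_zero, zero_sub]
    have : 0 ≤ ε * l := by positivity
    linarith
  -- remove zero
  set A' := A.erase 0 with hA'
  have hA'c : A.card ≤ 2 * A'.card := by
    have h1 : A.card - 1 ≤ A'.card := Finset.pred_card_le_card_erase
    omega
  have hA'n : A'.Nonempty := card_pos.1 (by omega)
  have hA'A : A' ⊆ A := erase_subset _ _
  have hA'c' : A'.card ≤ A.card := card_le_card hA'A
  have : Nonempty ι := by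
    obtain ⟨x, hx⟩ := hA
    obtain ⟨i, -, -⟩ := hcov x hx
    exact ⟨i⟩
  choose! i hi j hj hxj using hcov
  have hw0 : (1 : ℝ) ≤ (N : ℝ) ^ (η * Real.log l) :=
    Real.one_le_rpow hN1 (mul_nonneg hη0.le hlam0)
  set w : ℕ := ⌊(N : ℝ) ^ (η * Real.log l)⌋₊ with hw
  have hw1 : 1 ≤ w := Nat.le_floor (by exact_mod_cast hw0)
  have hwN : (w : ℝ) ≤ (N : ℝ) ^ (η * Real.log l) := Nat.floor_le (by linarith)
  have hsT : s * T.card ≤ A'.card := by
    have h1 : (s : ℝ) * T.card ≤ A.card / 2 := by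
      calc (s : ℝ) * T.card ≤ s * (1 / (2 * s) * A.card) :=
            mul_le_mul_of_nonneg_left hT hs0.le
        _ = A.card / 2 := by field_simp
    have h2 : (A.card : ℝ) ≤ 2 * A'.card := by exact_mod_cast hA'c
    have h3 : (s : ℝ) * T.card ≤ A'.card := by linarith
    exact_mod_cast h3
  have hY1 : 1 ≤ ⌊Real.sqrt l⌋₊ := by
    refine Nat.le_floor ?_
    rw [Nat.cast_one, ← Real.sqrt_one]
    refine Real.sqrt_le_sqrt ?_
    have := Real.add_one_le_exp (1 : ℝ)
    linarith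
  obtain ⟨M, hM1, hM2, hM3⟩ := main_fin A' hA'n (notMem_erase _ _) T i
    (fun x hx => hi x (hA'A hx)) g d (fun x hx => hg _ (hi x (hA'A hx))) (fun x => (j x : ℤ))
    (fun x hx => hxj x (hA'A hx)) w hw1 (fun x hx => ⟨by positivity, by
      have := Nat.le_floor (hj x (hA'A hx))
      exact_mod_cast this⟩) s hs1 hsT ⌊Real.sqrt l⌋₊ hY1 k hk hγ1 hLone (by linarith) (by
      rw [div_le_iff₀ (by linarith)]
      have h2 : k * (4 + k) = γ * v := by
        rw [hv]
        field_simp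
      rw [h2]
      nlinarith)
  have hlab := label_bound hη1 hl hl3 w hw1 hwN M hM1 hM2
  have hlab2 : Real.log M ≤ ε / (8 * k) * l := by
    have h1 := hasym l hll₀
    have h2 : (s + 1) * (2 * (s : ℝ) ^ 2) * η * l ≤ ε / (16 * k) * l :=
      mul_le_mul_of_nonneg_right hηs hl0.le
    have h3 : ε / (8 * k) * l = ε / (16 * k) * l + ε / (16 * k) * l := by
      field_simp
      ring
    rw [h3]
    linarith
  have hlab3 : k * Real.log M ≤ ε / 8 * l := by
    have := mul_le_mul_of_nonneg_left hlab2 hk0.le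
    have e1 : k * (ε / (8 * k) * l) = ε / 8 * l := by field_simp
    rw [e1] at this
    exact this
  -- conclusion
  have hM0 : (0 : ℝ) < M := by exact_mod_cast hM1
  have hA'0 : (0 : ℝ) < A'.card := by exact_mod_cast card_pos.2 hA'n
  have hlog2 := Real.log_two_lt_d9
  have hlog2' := Real.log_two_gt_d9
  have hpkm : Real.log (pk k A').card ≤ Real.log (pk k A).card :=
    Real.log_le_log (by exact_mod_cast card_pos.2 (pk_nonempty hA'n))
      (by exact_mod_cast card_le_card (pk_mono hA'A))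
  have hlA' : Real.log A.card - Real.log 2 ≤ Real.log A'.card := by
    rw [← Real.log_div (by linarith) (by norm_num)]
    refine Real.log_le_log (by positivity) ?_
    have : (A.card : ℝ) ≤ 2 * A'.card := by exact_mod_cast hA'c
    linarith
  have hlA'l : Real.log A'.card ≤ l := by
    rw [hl]
    refine Real.log_le_log hA'0 ?_
    have : (A'.card : ℝ) ≤ A.card := by exact_mod_cast hA'c'
    linarith
  rw [Real.log_mul (by norm_num) hM0.ne'] at hM3
  have hM00 : 0 ≤ Real.log M := Real.log_natCast_nonneg M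
  have hlA'0 : 0 ≤ Real.log A'.card := Real.log_natCast_nonneg _
  -- (1-γ) k (log A' - log 2 - log M) ≥ k log A' - γ k l - k (log 2 + log M)
  have h1 : (k : ℝ) * Real.log A'.card - γ * k * l - k * (Real.log 2 + Real.log M) ≤
      (1 - γ) * k * (Real.log A'.card - (Real.log 2 + Real.log M)) := by
    have e1 : γ * k * Real.log A'.card ≤ γ * k * l :=
      mul_le_mul_of_nonneg_left hlA'l (by positivity)
    have e2 : 0 ≤ γ * k * (Real.log 2 + Real.log M) := by positivity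
    have e3 : (1 - γ) * k * (Real.log A'.card - (Real.log 2 + Real.log M)) =
        k * Real.log A'.card - γ * k * Real.log A'.card - k * (Real.log 2 + Real.log M) +
          γ * k * (Real.log 2 + Real.log M) := by ring
    rw [e3]
    linarith
  have h2 : γ * k * l ≤ ε / 2 * l := mul_le_mul_of_nonneg_right hγk hl0.le
  have h3 : (k : ℝ) * (Real.log A.card - Real.log 2) ≤ k * Real.log A'.card :=
    mul_le_mul_of_nonneg_left hlA' hk0.le
  have h4 : (k : ℝ) * Real.log 2 ≤ k * 1 := mul_le_mul_of_nonneg_left (by linarith) hk0.le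
  nlinarith

end Pool.Agent.U358.LP
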