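import Mathlib
import Pool.Agent.U358.LP.Asym
import Pool.Agent.R849.SV.Arb

/-!
# Consequences: common factors, clusters, shifts
-/

set_option autoImplicit false

namespace Pool.Agent.U358.LP

open Finset Polynomial Pool.Agent.Y359.PE Pool.Agent.R849.SV
open scoped Classical

/-- `N ^ (η log log N)` -/
noncomputable def len (η : ℝ) (N : ℕ) : ℝ := (N : ℝ) ^ (η * Real.log (Real.log N))

/-- the number of the products does not change under dilations -/
lemma card_pk_dil (k : ℕ) (A : Finset ℤ) {m : ℤ} (hm : m ≠ 0) :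
    (pk k (A.image fun x => m * x)).card = (pk k A).card := by
  have h1 : pk k (A.image fun x => m * x) = (pk k A).image fun x => m ^ k * x := by
    ext y
    unfold pk
    simp only [mem_image, Fintype.mem_piFinset]
    constructor
    · rintro ⟨f, hf, rfl⟩
      choose g hg hg' using hf
      refine ⟨∏ i, g i, ⟨g, hg, rfl⟩, ?_⟩
      rw [← prod_congr rfl fun i _ => hg' i, prod_mul_distrib]
      simp
    · rintro ⟨_, ⟨g, hg, rfl⟩, rfl⟩
      refine ⟨fun i => m * g i, fun i => ⟨g i, hg i, rfl⟩, ?_⟩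
      rw [prod_mul_distrib]
      simp
  rw [h1, card_image_of_injective]
  intro x y h
  exact mul_left_cancel₀ (pow_ne_zero k hm) h

/-- the main theorem, with a common factor -/
theorem mainM (k : ℕ) (hk : 1 ≤ k) (d : ℕ) (ε : ℝ) (hε : 0 < ε) :
    ∃ δ η c : ℝ, 0 < δ ∧ 0 < η ∧ 0 < c ∧ ∀ (N : ℕ) (A : Finset ℤ), A.Nonempty → A.card ≤ N →
      ∀ m : ℤ, m ≠ 0 → ∀ (ι : Type) (T : Finset ι) (g : ι → ℤ[X]), (T.card : ℝ) ≤ δ * A.card →
      (∀ i ∈ T, (g i).IsPrimitive ∧ (g i).natDegree ≤ d) →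
      (∀ x ∈ A, ∃ i ∈ T, ∃ j : ℕ, (j : ℝ) ≤ len η N ∧ x = m * (g i).eval (j : ℤ)) →
      c * (N : ℝ) ^ (-ε) * (A.card : ℝ) ^ k ≤ (pk k A).card := by
  obtain ⟨δ, η, c, hδ, hη, hc, h⟩ := main k hk d ε hε
  refine ⟨δ, η, c, hδ, hη, hc, fun N A hA hAN m hm ι T g hT hg hcov => ?_⟩
  have h1 : ∀ x ∈ A, m * (x / m) = x := by
    intro x hx
    obtain ⟨i, _, j, _, rfl⟩ := hcov x hx
    rw [Int.mul_ediv_cancel_left _ hm]
  have h2 : (A.image fun x => x / m).image (fun x => m * x) = A := by
    rw [image_image]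
    ext y
    simp only [mem_image, Function.comp]
    constructor
    · rintro ⟨x, hx, rfl⟩
      rwa [h1 x hx]
    · intro hy
      exact ⟨y, hy, h1 y hy⟩
  have h3 : (A.image fun x => x / m).card = A.card := by
    have h4 : ((A.image fun x => x / m).image (fun x => m * x)).card =
        (A.image fun x => x / m).card :=
      card_image_of_injective _ fun x y hxy => mul_left_cancel₀ hm hxy
    rw [← h4, h2]
  have h5 := h N (A.image fun x => x / m) (hA.image _) (h3.trans_le hAN) ι T g (by rwa [h3]) hg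
    (by
      intro x hx
      obtain ⟨y, hy, rfl⟩ := mem_image.1 hx
      obtain ⟨i, hi, j, hj, hy'⟩ := hcov y hy
      refine ⟨i, hi, j, hj, ?_⟩
      rw [hy', Int.mul_ediv_cancel_left _ hm])
  rw [h3] at h5
  have h6 := card_pk_dil k (A.image fun x => x / m) hm
  rw [h2] at h6
  rwa [h6]

/-- a maximal separated subset -/
lemma exists_sep (B : Finset ℤ) (w : ℤ) : ∃ R ⊆ B,
    (∀ x ∈ R, ∀ y ∈ R, x ≠ y → w < |x - y|) ∧ ∀ b ∈ B, ∃ r ∈ R, |b - r| ≤ w ∨ b = r := by
  obtain ⟨R, hR, hmax⟩ := exists_max_image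
    (B.powerset.filter fun R => ∀ x ∈ R, ∀ y ∈ R, x ≠ y → w < |x - y|) Finset.card
    ⟨∅, by simp⟩
  rw [mem_filter, mem_powerset] at hR
  refine ⟨R, hR.1, hR.2, fun b hb => ?_⟩
  by_contra hcon
  push Not at hcon
  have hbR : b ∉ R := fun h => (hcon b h).2 rfl
  have := hmax (insert b R) (by
    rw [mem_filter, mem_powerset]
    refine ⟨insert_subset hb hR.1, ?_⟩
    intro x hx y hy hxy
    rw [mem_insert] at hx hy
    rcases hx with rfl | hx <;> rcases hy with rfl | hy
    · exact absurd rfl hxy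
    · exact (hcon y hy).1
    · rw [abs_sub_comm]
      exact (hcon x hx).1
    · exact hR.2 x hx y hy hxy)
  rw [card_insert_of_notMem hbR] at this
  omega

/-- the composition of a primitive polynomial with a translation is primitive -/
lemma prim_comp {g : ℤ[X]} (hg : g.IsPrimitive) (c : ℤ) :
    (g.comp (Polynomial.X + C c)).IsPrimitive := by
  intro r hr
  refine hg r ?_
  obtain ⟨q, hq⟩ := hr
  refine ⟨q.comp (Polynomial.X - C c), ?_⟩
  have h1 : (g.comp (Polynomial.X + C c)).comp (Polynomial.X - C c) = g := by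
    rw [comp_assoc]
    simp
  rw [← h1, hq, mul_comp, C_comp]

lemma comp_deg (g : ℤ[X]) (c : ℤ) : (g.comp (Polynomial.X + C c)).natDegree = g.natDegree := by
  rw [natDegree_comp, natDegree_X_add_C, mul_one]

/-- the elements with many close neighbours -/
noncomputable def near (n : ℕ) (W : ℝ) (X : Finset ℤ) : Finset ℤ :=
  X.filter fun x => n ≤ (X.filter fun y => ((|y - x| : ℤ) : ℝ) ≤ W).card

/-- **Clusters.** -/
theorem clusters (k : ℕ) (hk : 1 ≤ k) (d : ℕ) (ε : ℝ) (hε : 0 < ε) :
    ∃ n : ℕ, ∃ η c : ℝ, 0 < η ∧ 0 < c ∧ ∀ f : ℤ[X], 1 ≤ f.natDegree → f.natDegree ≤ d →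
      ∀ (N : ℕ) (X : Finset ℤ), X.card ≤ N →
      c * (N : ℝ) ^ (-ε) * ((near n (len η N) X).card : ℝ) ^ k ≤ (pk k (vals f X)).card := by
  obtain ⟨δ, η, c, hδ, hη, hc, h⟩ := mainM k hk d ε hε
  obtain ⟨n, hn⟩ : ∃ n : ℕ, 12 * d / δ + 2 * d ≤ n := ⟨_, Nat.le_ceil _⟩
  refine ⟨n, η, c / (2 * d + 1) ^ k, hη, by positivity, fun f hf hfd N X hXN => ?_⟩
  set W := len η N with hW
  set B := near n W X with hB
  rcases B.eq_empty_or_nonempty with hBe | hBn
  · rw [hBe, card_empty, Nat.cast_zero, zero_pow (by omega), mul_zero]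
    positivity
  set w := ⌊W⌋₊ with hw
  have hW0 : 0 ≤ W := by
    rw [hW]
    unfold len
    positivity
  have hwle : ∀ z : ℤ, ((|z| : ℤ) : ℝ) ≤ W ↔ |z| ≤ (w : ℤ) := by
    intro z
    have e : (|z| : ℤ) = ((z.natAbs : ℕ) : ℤ) := (Int.natCast_natAbs z).symm
    rw [e, Int.cast_natCast, Nat.cast_le, hw, Nat.le_floor_iff hW0]
  have hBX : B ⊆ X := filter_subset _ _
  have hBn' : ∀ b ∈ B, n ≤ (X.filter fun y => |y - b| ≤ (w : ℤ)).card := by
    intro b hb
    have := (mem_filter.1 hb).2
    refine this.trans (le_of_eq ?_)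
    congr 1
    refine filter_congr fun y _ => hwle _
  -- the cluster points
  set X' := X.filter fun x => ∃ b ∈ B, |x - b| ≤ (w : ℤ) with hX'
  have hBX' : B ⊆ X' := by
    intro b hb
    refine mem_filter.2 ⟨hBX hb, b, hb, ?_⟩
    simp
  obtain ⟨R, hRB, hRsep, hRcov⟩ := exists_sep B (2 * w)
  have hcard : R.card * n ≤ X'.card := by
    have h1 : (R : Set ℤ).PairwiseDisjoint fun r => X.filter fun y => |y - r| ≤ (w : ℤ) := by
      intro r hr r' hr' hne
      refine disjoint_left.2 fun y hy hy' => ?_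
      have h2 := (mem_filter.1 hy).2
      have h3 := (mem_filter.1 hy').2
      have h4 := hRsep r hr r' hr' hne
      have h5 : |r - r'| ≤ |y - r'| + |y - r| := by
        have := abs_sub (y - r') (y - r)
        have e : y - r' - (y - r) = r - r' := by ring
        rwa [e] at this
      linarith
    have h2 : (R.biUnion fun r => X.filter fun y => |y - r| ≤ (w : ℤ)) ⊆ X' := by
      intro y hy
      obtain ⟨r, hr, hy⟩ := mem_biUnion.1 hy
      exact mem_filter.2 ⟨(mem_filter.1 hy).1, r, hRB hr, (mem_filter.1 hy).2⟩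
    calc R.card * n = ∑ _r ∈ R, n := by rw [sum_const, smul_eq_mul]
      _ ≤ ∑ r ∈ R, (X.filter fun y => |y - r| ≤ (w : ℤ)).card :=
          sum_le_sum fun r hr => hBn' r (hRB hr)
      _ = (R.biUnion fun r => X.filter fun y => |y - r| ≤ (w : ℤ)).card := (card_biUnion h1).symm
      _ ≤ X'.card := card_le_card h2
  -- the polynomial
  set g := f.primPart with hg
  have hfg : f = C f.content * g := f.eq_C_content_mul_primPart
  have hf0 : f ≠ 0 := by
    rintro rfl
    simp at hf
  have hcont : f.content ≠ 0 := fun h => hf0 (content_eq_zero_iff.1 h)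
  have hgd : g.natDegree = f.natDegree := f.natDegree_primPart
  have hgp : g.IsPrimitive := f.isPrimitive_primPart
  -- the set of values
  set A := vals f X' with hA
  have hX'X : X' ⊆ X := filter_subset _ _
  have hAX : A.card ≤ N := ((vals_card_le f X').trans (card_le_card hX'X)).trans hXN
  have hn2 : 2 * d ≤ n := by
    have h1 : (0 : ℝ) ≤ 12 * d / δ := by positivity
    have h2 : ((2 * d : ℕ) : ℝ) ≤ n := by
      push_cast
      linarith
    exact_mod_cast h2
  have hX'l : n ≤ X'.card := by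
    obtain ⟨b, hb⟩ := hBn
    have h1 : 1 ≤ R.card := by
      obtain ⟨r, hr, _⟩ := hRcov b hb
      exact card_pos.2 ⟨r, hr⟩
    nlinarith
  have hc' := card_vals f hf X'
  have hne : 0 < A.card := by
    by_contra hcon
    have h1 : A.card = 0 := by omega
    rw [h1] at hc'
    omega
  have hX2 : X'.card ≤ 2 * d * A.card := by
    calc X'.card ≤ f.natDegree * (A.card + 1) := hc'
      _ ≤ d * (2 * A.card) := Nat.mul_le_mul hfd (by omega)
      _ = 2 * d * A.card := by ring
  have hd1 : 1 ≤ d := hf.trans hfd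
  -- the cover
  have hT : (((R ×ˢ range 6).card : ℕ) : ℝ) ≤ δ * A.card := by
    rw [card_product, card_range]
    push_cast
    have h1 : (R.card : ℝ) * n ≤ 2 * d * A.card := by
      exact_mod_cast hcard.trans hX2
    have h2 : (12 * d : ℝ) ≤ δ * n := by
      have : (12 * d : ℝ) / δ ≤ n := by
        have : (0 : ℝ) ≤ 2 * d := by positivity
        linarith
      rw [div_le_iff₀ hδ] at this
      linarith
    have hd0 : (0 : ℝ) < d := by exact_mod_cast hd1
    have h3 : (R.card : ℝ) * (12 * d) ≤ δ * (2 * d * A.card) := by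
      calc (R.card : ℝ) * (12 * d) ≤ R.card * (δ * n) :=
            mul_le_mul_of_nonneg_left h2 (Nat.cast_nonneg _)
        _ = δ * (R.card * n) := by ring
        _ ≤ δ * (2 * d * A.card) := mul_le_mul_of_nonneg_left h1 hδ.le
    have h4 : (2 * d : ℝ) * (R.card * 6) ≤ 2 * d * (δ * A.card) := by linarith
    exact le_of_mul_le_mul_left h4 (by positivity)
  have hmain := h N A (card_pos.1 hne) hAX f.content hcont (ℤ × ℕ) (R ×ˢ range 6)
    (fun t => g.comp (Polynomial.X + C (t.1 - 3 * w + t.2 * (w + 1)))) hT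
    (fun t _ => ⟨prim_comp hgp _, by rw [comp_deg, hgd]; exact hfd⟩) (by
      intro a ha
      have ha1 : a ∈ (X'.image fun x => f.eval x).erase 0 := ha
      rw [mem_erase, mem_image] at ha1
      obtain ⟨-, x, hx, rfl⟩ := ha1
      obtain ⟨-, b, hb, hxb⟩ := mem_filter.1 hx
      obtain ⟨r, hr, hbr⟩ := hRcov b hb
      have hbr' : |b - r| ≤ 2 * w := by
        rcases hbr with hbr | rfl
        · exact hbr
        · simp
      have hxr : |x - r| ≤ 3 * w := by
        calc |x - r| = |(x - b) + (b - r)| := by ring_nf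
          _ ≤ |x - b| + |b - r| := abs_add_le _ _
          _ ≤ 3 * w := by linarith
      rw [abs_le] at hxr
      have hw1 : (0 : ℤ) < w + 1 := by positivity
      obtain ⟨y, hy⟩ : ∃ y : ℕ, (y : ℤ) = x - r + 3 * w := ⟨(x - r + 3 * w).toNat, by
        rw [Int.toNat_of_nonneg]
        linarith⟩
      have hy6 : y ≤ 6 * w := by
        have : (y : ℤ) ≤ 6 * w := by linarith
        exact_mod_cast this
      refine ⟨(r, y / (w + 1)), ?_, y % (w + 1), ?_, ?_⟩
      · rw [mem_product, mem_range]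
        refine ⟨hr, ?_⟩
        show y / (w + 1) < 6
        rw [Nat.div_lt_iff_lt_mul (by omega)]
        omega
      · have h1 : y % (w + 1) ≤ w := Nat.lt_succ_iff.1 (Nat.mod_lt _ (by omega))
        have h2 : (w : ℝ) ≤ W := Nat.floor_le hW0
        have h3 : ((y % (w + 1) : ℕ) : ℝ) ≤ w := by exact_mod_cast h1
        linarith
      · have e1 : ((y % (w + 1) : ℕ) : ℤ) + (r - 3 * w + ((y / (w + 1) : ℕ) : ℤ) * (w + 1)) =
            x := by
          have h1 : ((y % (w + 1) : ℕ) : ℤ) + (w + 1) * ((y / (w + 1) : ℕ) : ℤ) = y := by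
            exact_mod_cast Nat.mod_add_div y (w + 1)
          linarith
        show f.eval x = f.content * (g.comp (Polynomial.X +
          C (r - 3 * (w : ℤ) + ((y / (w + 1) : ℕ) : ℤ) * (w + 1)))).eval ((y % (w + 1) : ℕ) : ℤ)
        rw [eval_comp, eval_add, eval_X, eval_C, e1]
        conv_lhs => rw [hfg]
        rw [eval_mul, eval_C])
  have hBA : (B.card : ℝ) ≤ (2 * d + 1) * A.card := by
    have h1 := (card_le_card hBX').trans hX2
    have h2 : (B.card : ℝ) ≤ 2 * d * A.card := by exact_mod_cast h1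
    have h3 : (0 : ℝ) ≤ A.card := Nat.cast_nonneg _
    linarith
  have hmono : ((pk k A).card : ℝ) ≤ (pk k (vals f X)).card := by
    have : A ⊆ vals f X := erase_subset_erase _ (image_subset_image hX'X)
    exact_mod_cast card_le_card (pk_mono this)
  refine le_trans ?_ (hmain.trans hmono)
  have h1 : (B.card : ℝ) ^ k ≤ (2 * d + 1) ^ k * (A.card : ℝ) ^ k := by
    rw [← mul_pow]
    exact pow_le_pow_left₀ (Nat.cast_nonneg _) hBA k
  have h2 : ∀ a b e : ℝ, 0 < e → c / e * a * (e * b) = c * a * b := by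
    intro a b e he
    field_simp
  rw [← h2 _ _ ((2 * d + 1) ^ k) (by positivity)]
  exact mul_le_mul_of_nonneg_left h1
    (mul_nonneg (by positivity) (Real.rpow_nonneg (Nat.cast_nonneg _) _))

end Pool.Agent.U358.LP
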