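import Mathlib
import Pool.Agent.U358.LP.Count
import Pool.Agent.Y359.PE.Pow

/-!
# The entropy inequality with integer labels, and the labels of reference divisors
-/

set_option autoImplicit false

namespace Pool.Agent.U358.LP.R

open Finset Pool.Agent.Y359.PE Pool.Agent.U358.LP
open scoped Classical

/-- the deviation of the valuation from the reference value -/
noncomputable def XE (E : ℤ → ℕ → ℤ) (a : ℤ) (p : ℕ) : ℤ := (fa a p : ℤ) - E a p

lemma nz_XE (A : Finset ℤ) (E : ℤ → ℕ → ℤ) (p : ℕ) :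
    nz A (fun a => XE E a p) = (A.filter fun a => (fa a p : ℤ) ≠ E a p).card := by
  refine nz_eq _ _ _ fun a => ?_
  rw [mem_filter]
  refine and_congr_right fun _ => ?_
  show (fa a p : ℤ) ≠ E a p ↔ (fa a p : ℤ) - E a p ≠ 0
  omega

/-- the elements with the same valuations at `T` -/
noncomputable def fine (A : Finset ℤ) (T : Finset ℕ) (x : ℤ) : Finset ℤ :=
  A.filter fun y => ∀ p ∈ T, fa y p = fa x p

/-- the classes of the deviations are small -/
lemma fc_XE (A : Finset ℤ) (T : Finset ℕ) (E : ℤ → ℕ → ℤ) {F : ℕ}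
    (hF : ∀ x ∈ A, (fine A T x).card ≤ F) (x : ℤ) :
    fc A (mk T (XE E)) x ≤ F * (A.image E).card := by
  unfold fc
  have h1 : (cl A (mk T (XE E)) x).card =
      ∑ l ∈ A.image E, ((cl A (mk T (XE E)) x).filter fun y => E y = l).card := by
    refine card_eq_sum_card_fiberwise fun y hy => ?_
    rw [mem_coe, mem_cl] at hy
    exact mem_image_of_mem _ hy.1
  rw [h1, mul_comm, ← smul_eq_mul, ← sum_const]
  refine sum_le_sum fun l _ => ?_
  rcases ((cl A (mk T (XE E)) x).filter fun y => E y = l).eq_empty_or_nonempty with he | hne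
  · rw [he]
    simp
  obtain ⟨z, hz⟩ := hne
  rw [mem_filter, mem_cl, mk_eq_iff] at hz
  refine le_trans (card_le_card ?_) (hF z hz.1.1)
  intro y hy
  rw [mem_filter, mem_cl, mk_eq_iff] at hy
  unfold fine
  rw [mem_filter]
  refine ⟨hy.1.1, fun p hp => ?_⟩
  have h2 := (hy.1.2 p hp).trans (hz.1.2 p hp).symm
  unfold XE at h2
  rw [hy.2, hz.2] at h2
  have h3 : (fa y p : ℤ) = fa z p := by linarith
  exact_mod_cast h3

/-- **The entropy inequality with labels.** -/
theorem core (A : Finset ℤ) (hA : A.Nonempty) (h0 : (0 : ℤ) ∉ A) (T : Finset ℕ) (E : ℤ → ℕ → ℤ)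
    (k : ℕ) (hk : 1 ≤ k) {L γ : ℝ} (hL : 1 < L) (hl : 5 < Real.log L) (hγ : γ ≤ 1)
    (hLγ : k * (4 + k) / Real.log L ≤ γ)
    (hT : ∀ p ∈ T, L * ((A.filter fun a => (fa a p : ℤ) ≠ E a p).card : ℝ) ≤ A.card)
    {F : ℕ} (hF : ∀ x ∈ A, (fine A T x).card ≤ F) :
    (1 - γ) * k * (Real.log A.card - Real.log (F * (A.image E).card)) ≤
      Real.log ((pk k A).card * ((A.image E).card : ℝ) ^ k) := by
  have hkr : (1 : ℝ) ≤ k := by exact_mod_cast hk
  obtain ⟨p1, p2, p3⟩ := params hL hl (show (0 : ℝ) ≤ k by positivity)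
  have hL0 : 0 < L := by linarith
  have hl0 : 0 < Real.log L := by linarith
  set κ := 2 / Real.log (1 / (1 / Real.sqrt L)) + k * (1 / L) / (1 / Real.sqrt L) with hκ
  have hκk : k * κ ≤ γ := by
    have h1 := mul_le_mul_of_nonneg_left p3 (show (0 : ℝ) ≤ k by positivity)
    rw [← mul_div_assoc] at h1
    exact h1.trans hLγ
  have hκ0 : 0 ≤ κ := by
    have h3 : 0 < Real.log (1 / (1 / Real.sqrt L)) := by
      rw [one_div_one_div, Real.log_sqrt hL0.le]
      linarith
    positivity
  have hκ1 : κ ≤ 1 := by nlinarith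
  obtain ⟨β, B, Y, hB, h1, -, h3⟩ := kcopies A hA (XE E) (τ := 1 / L) (θ := 1 / Real.sqrt L)
    (by positivity) (by positivity) p2 k hκ1 T (fun p hp => by
      have h4 := hT p hp
      rw [nz_XE, one_div, ← div_eq_inv_mul, le_div_iff₀ hL0]
      linarith) k hk le_rfl
  have e1 : (1 - 2 / Real.log (1 / (1 / Real.sqrt L)) - k * (1 / L) / (1 / Real.sqrt L)) =
      1 - κ := by
    rw [hκ]
    ring
  rw [e1] at h3
  have hbern : 1 - (k : ℝ) * κ ≤ (1 - κ) ^ (k - 1) := by
    have h1 := one_add_mul_le_pow (show (-2 : ℝ) ≤ -κ by linarith) (k - 1)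
    have h2 : ((k - 1 : ℕ) : ℝ) ≤ k := by exact_mod_cast Nat.sub_le _ _
    have h3 : 1 - (k : ℝ) * κ ≤ 1 + ((k - 1 : ℕ) : ℝ) * (-κ) := by nlinarith
    rw [sub_eq_add_neg 1 κ]
    exact h3.trans h1
  set H := h A (mk T (XE E)) with hH
  have hH0 : 0 ≤ H := h_nonneg _ _
  -- the lower bound of the entropy of one vector
  have hlow : Real.log A.card - Real.log (F * (A.image E).card) ≤ H := by
    have h5 := h_ge_short A A hA (mk T (XE E)) (Subset.refl _)
      (F := F * ((A.image E).card : ℝ)) (fun x _ => by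
        exact_mod_cast fc_XE A T E hF x)
    have hA0 : (0 : ℝ) < A.card := by exact_mod_cast card_pos.2 hA
    rw [div_self hA0.ne', one_mul] at h5
    exact h5
  -- the upper bound
  have hup : h B (mk T Y) ≤ Real.log ((pk k A).card * ((A.image E).card : ℝ) ^ k) := by
    refine (h_le_log hB _).trans ?_
    have himg : B.image (mk T Y) ⊆ ((pk k A) ×ˢ (Fintype.piFinset fun _ : Fin k => A.image E)).image
        (fun s : ℤ × (Fin k → ℕ → ℤ) => fun p => if p ∈ T then
          (fa s.1 p : ℤ) - ∑ i, s.2 i p else 0) := by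
      intro v hv
      rw [mem_image] at hv
      obtain ⟨b, hb, rfl⟩ := hv
      obtain ⟨f, hf1, hf2⟩ := h1 b hb
      rw [mem_image]
      refine ⟨(∏ i, f i, fun i => E (f i)), mem_product.2
        ⟨mem_image_of_mem _ (Fintype.mem_piFinset.2 hf1), Fintype.mem_piFinset.2 fun i =>
          mem_image_of_mem _ (hf1 i)⟩, ?_⟩
      funext p
      unfold Pool.Agent.Y359.PE.mk
      split_ifs with hp
      · rw [hf2]
        dsimp only
        rw [fa_prod f (fun i => by
          intro h
          exact h0 (h ▸ hf1 i)), Finset.sum_apply]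
        unfold XE
        rw [sum_sub_distrib]
        push_cast
        rfl
      · rfl
    have hcard := (card_le_card himg).trans card_image_le
    rw [card_product, Fintype.card_piFinset, prod_const, card_univ, Fintype.card_fin] at hcard
    have hpos : (0 : ℝ) < (B.image (mk T Y)).card := by
      exact_mod_cast card_pos.2 (hB.image _)
    exact Real.log_le_log hpos (by exact_mod_cast hcard)
  have h4 : (1 - γ) * k * H ≤ (1 - κ) ^ (k - 1) * k * H := by
    have : 1 - γ ≤ (1 - κ) ^ (k - 1) := by linarith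
    gcongr
  refine le_trans ?_ (h4.trans (h3.trans hup))
  exact mul_le_mul_of_nonneg_left hlow (mul_nonneg (by linarith) (by linarith))

/-- the total exponent of the primes larger than `Y` in `n ≤ W` -/
lemma sum_fact_le {n W Y : ℕ} (hn : n ≠ 0) (hnW : n ≤ W) (hY : 1 ≤ Y) (P : Finset ℕ)
    (hP : ∀ p ∈ P, Y < p) : ∑ p ∈ P, n.factorization p ≤ Nat.log (Y + 1) W := by
  have h1 : (∏ p ∈ P, p ^ n.factorization p) ∣ n := by
    have h2 : ∏ p ∈ P, p ^ n.factorization p =
        ∏ p ∈ P.filter (fun p => p ∈ n.primeFactors), p ^ n.factorization p := by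
      rw [prod_filter]
      refine prod_congr rfl fun p _ => ?_
      split_ifs with h
      · rfl
      · rw [← Nat.support_factorization, Finsupp.notMem_support_iff] at h
        rw [h, pow_zero]
    rw [h2]
    have h3 : ∏ p ∈ n.primeFactors, p ^ n.factorization p = n :=
      Nat.prod_factorization_pow_eq_self hn
    calc _ ∣ ∏ p ∈ n.primeFactors, p ^ n.factorization p :=
          prod_dvd_prod_of_subset _ _ _ fun p hp => (mem_filter.1 hp).2
      _ = n := h3
  have h2 : (Y + 1) ^ (∑ p ∈ P, n.factorization p) ≤ ∏ p ∈ P, p ^ n.factorization p := by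
    rw [← prod_pow_eq_pow_sum]
    exact prod_le_prod' fun p hp => Nat.pow_le_pow_left (hP p hp) _
  refine Nat.le_log_of_pow_le (by omega) ?_
  exact h2.trans ((Nat.le_of_dvd (by omega) h1).trans hnW)

lemma fact_le_log {n W p : ℕ} (hn : n ≠ 0) (hnW : n ≤ W) (hp : 2 ≤ p) :
    n.factorization p ≤ Nat.log 2 W := by
  refine Nat.le_log_of_pow_le (by norm_num) ?_
  calc 2 ^ n.factorization p ≤ p ^ n.factorization p := Nat.pow_le_pow_left hp _
    _ ≤ n := Nat.ordProj_le p hn
    _ ≤ W := hnW

/-- **Labels.** The valuations of bounded numbers, up to few exceptions at every prime. -/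
lemma labels (A : Finset ℤ) (hA : A.Nonempty) (D : ℤ → ℕ) (W : ℕ)
    (hDW : ∀ x ∈ A, D x ≠ 0 ∧ D x ≤ W) (s Y : ℕ) (hY : 1 ≤ Y) :
    ∃ E : ℤ → ℕ → ℕ, (A.image E).card ≤ (Nat.log 2 W + 1) ^ (Y + 1) *
      2 ^ ((s + 1) * Nat.log (Y + 1) W) ∧
      ∀ p : ℕ, p.Prime → s * (A.filter fun x => (D x).factorization p ≠ E x p).card ≤ A.card := by
  set u := Nat.log (Y + 1) W with hu
  set Ps : Finset ℕ := (range (Y + 1)).filter Nat.Prime with hPs
  set Pl : Finset ℕ := (A.biUnion fun x => (D x).primeFactors).filter fun p =>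
    Y < p ∧ A.card ≤ s * (A.filter fun x => p ∣ D x).card with hPl
  have hPlY : ∀ p ∈ Pl, Y < p := fun p hp => (mem_filter.1 hp).2.1
  have hPlp : ∀ p ∈ Pl, p.Prime := by
    intro p hp
    obtain ⟨x, _, hx⟩ := mem_biUnion.1 (mem_filter.1 hp).1
    exact Nat.prime_of_mem_primeFactors hx
  have hPlc : Pl.card ≤ s * u := by
    have h1 : Pl.card * A.card ≤ s * u * A.card := by
      calc Pl.card * A.card = ∑ _p ∈ Pl, A.card := by rw [sum_const, smul_eq_mul]
        _ ≤ ∑ p ∈ Pl, s * (A.filter fun x => p ∣ D x).card :=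
            sum_le_sum fun p hp => (mem_filter.1 hp).2.2
        _ = s * ∑ p ∈ Pl, ∑ x ∈ A, if p ∣ D x then 1 else 0 := by
            rw [mul_sum]
            refine sum_congr rfl fun p _ => ?_
            rw [card_filter]
        _ = s * ∑ x ∈ A, ∑ p ∈ Pl, if p ∣ D x then 1 else 0 := by rw [sum_comm]
        _ ≤ s * ∑ _x ∈ A, u := by
            refine Nat.mul_le_mul_left s (sum_le_sum fun x hx => ?_)
            refine le_trans (sum_le_sum fun p hp => ?_)
              (sum_fact_le (hDW x hx).1 (hDW x hx).2 hY Pl hPlY)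
            split_ifs with h
            · exact (hPlp p hp).factorization_pos_of_dvd (hDW x hx).1 h
            · exact Nat.zero_le _
        _ = s * u * A.card := by rw [sum_const, smul_eq_mul]; ring
    exact Nat.le_of_mul_le_mul_right h1 (card_pos.2 hA)
  set E : ℤ → ℕ → ℕ := fun x p => if p ∈ Ps ∨ p ∈ Pl then (D x).factorization p else 0 with hE
  refine ⟨E, ?_, ?_⟩
  · refine (count Ps Pl (Nat.log 2 W + 1) u (A.image E) ?_).trans ?_
    · intro f hf
      obtain ⟨x, hx, rfl⟩ := mem_image.1 hf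
      refine ⟨?_, ?_, ?_⟩
      · intro p h1 h2
        simp only [hE, h1, h2, or_self, if_false]
      · intro p hp
        simp only [hE, hp, true_or, if_true]
        have h1 : p.Prime := (mem_filter.1 hp).2
        have h2 := fact_le_log (hDW x hx).1 (hDW x hx).2 h1.two_le
        omega
      · refine le_trans (sum_le_sum fun p hp => ?_)
          (sum_fact_le (hDW x hx).1 (hDW x hx).2 hY Pl hPlY)
        simp only [hE, hp, or_true, if_true]
        exact le_rfl
    · have h1 : Ps.card ≤ Y + 1 := (card_filter_le _ _).trans (by rw [card_range])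
      refine Nat.mul_le_mul (Nat.pow_le_pow_right (by omega) h1)
        (Nat.pow_le_pow_right (by norm_num) ?_)
      rw [add_mul, one_mul]
      omega
  · intro p hpp
    by_cases hc : p ∈ Ps ∨ p ∈ Pl
    · have h2 : (A.filter fun x => (D x).factorization p ≠ E x p) = ∅ := by
        rw [filter_eq_empty_iff]
        intro a _ h3
        apply h3
        simp only [hE, hc, if_true]
      rw [h2]
      simp
    · have h2 : (A.filter fun x => (D x).factorization p ≠ E x p) ⊆
          A.filter fun x => p ∣ D x := by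
        intro a ha
        rw [mem_filter] at ha ⊢
        refine ⟨ha.1, ?_⟩
        by_contra h4
        apply ha.2
        simp only [hE, hc, if_false]
        exact Nat.factorization_eq_zero_of_not_dvd h4
      refine (Nat.mul_le_mul_left s (card_le_card h2)).trans ?_
      by_contra h4
      apply hc
      right
      rw [hPl, mem_filter]
      have h5 : Y < p := by
        by_contra h6
        apply hc
        left
        rw [hPs, mem_filter, mem_range]
        exact ⟨by omega, hpp⟩
      refine ⟨?_, h5, by omega⟩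
      have h6 : (A.filter fun x => p ∣ D x).Nonempty := by
        rw [← card_pos]
        rcases Nat.eq_zero_or_pos (A.filter fun x => p ∣ D x).card with h7 | h7
        · rw [h7, mul_zero] at h4
          omega
        · exact h7
      obtain ⟨x, hx⟩ := h6
      rw [mem_filter] at hx
      exact mem_biUnion.2 ⟨x, hx.1, Nat.mem_primeFactors.2 ⟨hpp, hx.2, (hDW x hx.1).1⟩⟩

/-- **The finite inequality.** -/
theorem main_fin (A : Finset ℤ) (hA : A.Nonempty) (h0 : (0 : ℤ) ∉ A) (T : Finset ℕ)
    (hTp : ∀ p ∈ T, p.Prime) (e : ℕ → ℤ) (D₁ D₂ : ℤ → ℕ) (W : ℕ)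
    (hD₁ : ∀ x ∈ A, D₁ x ≠ 0 ∧ D₁ x ≤ W) (hD₂ : ∀ x ∈ A, D₂ x ≠ 0 ∧ D₂ x ≤ W) (s : ℕ)
    (hs : ∀ p ∈ T, s * (A.filter fun x =>
      (fa x p : ℤ) ≠ e p + (D₁ x).factorization p - (D₂ x).factorization p).card ≤ A.card)
    (Y : ℕ) (hY : 1 ≤ Y) (k : ℕ) (hk : 1 ≤ k) {γ : ℝ} (hγ : γ ≤ 1)
    (hL : 1 < (s : ℝ) / 3) (hl : 5 < Real.log ((s : ℝ) / 3))
    (hLγ : k * (4 + k) / Real.log ((s : ℝ) / 3) ≤ γ) {F : ℕ} (hF0 : 1 ≤ F)
    (hF : ∀ x ∈ A, (fine A T x).card ≤ F) :
    ∃ M : ℕ, 1 ≤ M ∧ M ≤ ((Nat.log 2 W + 1) ^ (Y + 1) * 2 ^ ((s + 1) * Nat.log (Y + 1) W)) ^ 2 ∧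
    (1 - γ) * k * (Real.log A.card - Real.log (F * M)) ≤
      Real.log (pk k A).card + k * Real.log M := by
  obtain ⟨E₁, hE₁, hx₁⟩ := labels A hA D₁ W hD₁ s Y hY
  obtain ⟨E₂, hE₂, hx₂⟩ := labels A hA D₂ W hD₂ s Y hY
  set E : ℤ → ℕ → ℤ := fun x p => e p + E₁ x p - E₂ x p with hE
  have hEc : (A.image E).card ≤ ((Nat.log 2 W + 1) ^ (Y + 1) *
      2 ^ ((s + 1) * Nat.log (Y + 1) W)) ^ 2 := by
    have h1 : A.image E ⊆ ((A.image E₁) ×ˢ (A.image E₂)).image
        fun q p => e p + q.1 p - q.2 p := by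
      intro f hf
      obtain ⟨x, hx, rfl⟩ := mem_image.1 hf
      exact mem_image.2 ⟨(E₁ x, E₂ x), mem_product.2 ⟨mem_image_of_mem _ hx,
        mem_image_of_mem _ hx⟩, rfl⟩
    refine (card_le_card h1).trans (card_image_le.trans ?_)
    rw [card_product, sq]
    exact Nat.mul_le_mul hE₁ hE₂
  have hpop : ∀ p ∈ T, s * (A.filter fun a => (fa a p : ℤ) ≠ E a p).card ≤ 3 * A.card := by
    intro p hp
    have hpp := hTp p hp
    have h2 : (A.filter fun a => (fa a p : ℤ) ≠ E a p) ⊆
        (A.filter fun x => (fa x p : ℤ) ≠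
          e p + (D₁ x).factorization p - (D₂ x).factorization p) ∪
        ((A.filter fun x => (D₁ x).factorization p ≠ E₁ x p) ∪
          (A.filter fun x => (D₂ x).factorization p ≠ E₂ x p)) := by
      intro a ha
      rw [mem_filter] at ha
      rw [mem_union, mem_union, mem_filter, mem_filter, mem_filter]
      by_contra hcon
      push Not at hcon
      apply ha.2
      have h3 := hcon.1 ha.1
      have h4 := hcon.2.1 ha.1
      have h5 := hcon.2.2 ha.1
      simp only [hE]
      rw [h3, h4, h5]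
    have h3 := (card_le_card h2).trans ((card_union_le _ _).trans
      (Nat.add_le_add_left (card_union_le _ _) _))
    calc s * (A.filter fun a => (fa a p : ℤ) ≠ E a p).card ≤ s * _ := Nat.mul_le_mul_left s h3
      _ = s * (A.filter fun x => (fa x p : ℤ) ≠
          e p + (D₁ x).factorization p - (D₂ x).factorization p).card +
          (s * (A.filter fun x => (D₁ x).factorization p ≠ E₁ x p).card +
          s * (A.filter fun x => (D₂ x).factorization p ≠ E₂ x p).card) := by ring
      _ ≤ A.card + (A.card + A.card) :=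
          Nat.add_le_add (hs p hp) (Nat.add_le_add (hx₁ p hpp) (hx₂ p hpp))
      _ = 3 * A.card := by ring
  have hEpos : 0 < (A.image E).card := card_pos.2 (hA.image _)
  refine ⟨(A.image E).card, hEpos, hEc, ?_⟩
  have hmain := core A hA h0 T E k hk hL hl hγ hLγ (by
    intro p hp
    have h1 : ((s : ℝ)) * ((A.filter fun a => (fa a p : ℤ) ≠ E a p).card : ℝ) ≤
        3 * A.card := by exact_mod_cast hpop p hp
    rw [div_mul_eq_mul_div, div_le_iff₀ (by norm_num)]
    linarith) hF
  have hpk : (0 : ℝ) < (pk k A).card := by exact_mod_cast card_pos.2 (pk_nonempty hA)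
  have hE0 : (0 : ℝ) < (A.image E).card := by exact_mod_cast hEpos
  rw [Real.log_mul hpk.ne' (by positivity), Real.log_pow] at hmain
  exact hmain

end Pool.Agent.U358.LP.R
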