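import Mathlib
import Pool.Agent.U358.LP.Parts

/-!
# Shifts and close pairs
-/

set_option autoImplicit false

namespace Pool.Agent.U358.LP

open Finset Polynomial Pool.Agent.Y359.PE Pool.Agent.R849.SV Pool.Agent.R849.RF
open scoped Classical

lemma len_nonneg (η : ℝ) (N : ℕ) : 0 ≤ len η N := Real.rpow_nonneg (Nat.cast_nonneg _) _

lemma len_mono {η : ℝ} (hη : 0 ≤ η) {a b : ℕ} (ha : 3 ≤ a) (hab : a ≤ b) : len η a ≤ len η b := by
  have har : (3 : ℝ) ≤ a := by exact_mod_cast ha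
  have habr : (a : ℝ) ≤ b := by exact_mod_cast hab
  have h1 : 1 ≤ Real.log a := by
    rw [← Real.log_exp 1]
    refine Real.log_le_log (Real.exp_pos _) ?_
    have := Real.exp_one_lt_d9
    linarith
  have h2 : Real.log a ≤ Real.log b := Real.log_le_log (by linarith) habr
  have h3 : 0 ≤ Real.log (Real.log a) := Real.log_nonneg h1
  have h4 : Real.log (Real.log a) ≤ Real.log (Real.log b) := Real.log_le_log (by linarith) h2
  unfold len
  calc (a : ℝ) ^ (η * Real.log (Real.log a)) ≤ (b : ℝ) ^ (η * Real.log (Real.log a)) :=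
        Real.rpow_le_rpow (by linarith) habr (by positivity)
    _ ≤ (b : ℝ) ^ (η * Real.log (Real.log b)) :=
        Real.rpow_le_rpow_of_exponent_le (by linarith) (mul_le_mul_of_nonneg_left h4 hη)

lemma near_mono {n m : ℕ} (h : n ≤ m) (W : ℝ) (X : Finset ℤ) : near m W X ⊆ near n W X := by
  intro x hx
  unfold near at *
  rw [mem_filter] at *
  exact ⟨hx.1, h.trans hx.2⟩

/-- the sum set of a set and `n` close shifts is a clustered set -/
lemma near_shift {n : ℕ} {W : ℝ} (S T : Finset ℤ) (hT : n ≤ T.card)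
    (hTW : ∀ x ∈ T, ∀ y ∈ T, ((|x - y| : ℤ) : ℝ) ≤ W) :
    near n W ((S ×ˢ T).image fun s => s.1 + s.2) = (S ×ˢ T).image fun s => s.1 + s.2 := by
  unfold near
  rw [filter_true_of_mem]
  intro x hx
  obtain ⟨⟨s, t⟩, hst, rfl⟩ := mem_image.1 hx
  rw [mem_product] at hst
  refine hT.trans ?_
  rw [← card_image_of_injective T (add_right_injective s)]
  refine card_le_card ?_
  intro y hy
  obtain ⟨t', ht', rfl⟩ := mem_image.1 hy
  rw [mem_filter]
  refine ⟨mem_image.2 ⟨(s, t'), mem_product.2 ⟨hst.1, ht'⟩, rfl⟩, ?_⟩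
  have e : s + t' - (s + t) = t' - t := by ring
  show ((|s + t' - (s + t)| : ℤ) : ℝ) ≤ W
  rw [e]
  exact hTW _ ht' _ hst.2

/-- pigeonhole for covers -/
lemma pigeon {α ι : Type*} [DecidableEq α] (P : Finset α) (I : Finset ι) (F : ι → Finset α)
    (h : P ⊆ I.biUnion F) (hP : P.Nonempty) :
    ∃ i ∈ I, P.card ≤ I.card * (F i).card := by
  by_contra hcon
  push Not at hcon
  have hI : I.Nonempty := by
    obtain ⟨x, hx⟩ := hP
    obtain ⟨i, hi, _⟩ := mem_biUnion.1 (h hx)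
    exact ⟨i, hi⟩
  have h1 : P.card ≤ ∑ i ∈ I, (F i).card := (card_le_card h).trans card_biUnion_le
  have h2 : ∑ i ∈ I, I.card * (F i).card < ∑ _i ∈ I, P.card := sum_lt_sum_of_nonempty hI hcon
  rw [← mul_sum, sum_const, smul_eq_mul] at h2
  have h3 : 0 < I.card := card_pos.2 hI
  have := Nat.lt_of_mul_lt_mul_left h2
  omega

/-- **Shifts.** -/
theorem shifts (k : ℕ) (hk : 1 ≤ k) (d : ℕ) (ε : ℝ) (hε : 0 < ε) :
    ∃ n : ℕ, ∃ η c : ℝ, 0 < η ∧ 0 < c ∧ ∀ f : ℤ[X], 1 ≤ f.natDegree → f.natDegree ≤ d →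
      ∀ S T : Finset ℤ, S.Nonempty → n ≤ T.card →
      (∀ x ∈ T, ∀ y ∈ T, ((|x - y| : ℤ) : ℝ) ≤ len η S.card) →
      ∃ t : Fin k → ℤ, (∀ i, t i ∈ T) ∧ c * (S.card : ℝ) ^ ((k : ℝ) - ε) ≤
        (((Fintype.piFinset fun _ : Fin k => S).image fun s => ∏ i, f.eval (s i + t i)).card : ℝ) := by
  obtain ⟨n, η, c, hη, hc, h⟩ := clusters k hk d ε hε
  refine ⟨n + 1, η, min (1 / 2 ^ k) (c / (n + 1 : ℝ) ^ ((k : ℝ) + ε)), hη, by positivity, ?_⟩
  intro f hf hfd S T hS hT hTW
  have hS1 : (1 : ℝ) ≤ S.card := by exact_mod_cast hS.card_pos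
  have hS0 : (0 : ℝ) < S.card := by linarith
  rcases Nat.lt_or_ge S.card 3 with hS3 | hS3
  · obtain ⟨t0, ht0⟩ : T.Nonempty := card_pos.1 (by omega)
    refine ⟨fun _ => t0, fun _ => ht0, ?_⟩
    have h1 : (1 : ℝ) ≤ (((Fintype.piFinset fun _ : Fin k => S).image
        fun s => ∏ i, f.eval (s i + t0)).card : ℝ) := by
      obtain ⟨s0, hs0⟩ := hS
      have : 0 < ((Fintype.piFinset fun _ : Fin k => S).image
        fun s => ∏ i, f.eval (s i + t0)).card :=
        card_pos.2 ⟨_, mem_image_of_mem _ (Fintype.mem_piFinset.2 fun _ => hs0)⟩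
      exact_mod_cast this
    refine le_trans ?_ h1
    have h2 : (S.card : ℝ) ^ ((k : ℝ) - ε) ≤ 2 ^ k := by
      calc (S.card : ℝ) ^ ((k : ℝ) - ε) ≤ (S.card : ℝ) ^ (k : ℝ) :=
            Real.rpow_le_rpow_of_exponent_le hS1 (by linarith)
        _ = (S.card : ℝ) ^ k := Real.rpow_natCast _ _
        _ ≤ 2 ^ k := by
            refine pow_le_pow_left₀ hS0.le ?_ k
            exact_mod_cast Nat.lt_succ_iff.1 hS3
    calc min (1 / 2 ^ k) (c / (n + 1 : ℝ) ^ ((k : ℝ) + ε)) * (S.card : ℝ) ^ ((k : ℝ) - ε)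
        ≤ 1 / 2 ^ k * 2 ^ k := by
          refine mul_le_mul (min_le_left _ _) h2 (Real.rpow_nonneg hS0.le _) (by positivity)
      _ = 1 := by field_simp
  obtain ⟨T', hT'T, hT'c⟩ := exists_subset_card_eq hT
  set Y := (S ×ˢ T').image fun s => s.1 + s.2 with hY
  have hSY : S.card ≤ Y.card := by
    obtain ⟨t0, ht0⟩ : T'.Nonempty := card_pos.1 (by omega)
    rw [← card_image_of_injective S (add_left_injective t0)]
    refine card_le_card ?_
    intro y hy
    obtain ⟨s, hs, rfl⟩ := mem_image.1 hy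
    exact mem_image.2 ⟨(s, t0), mem_product.2 ⟨hs, ht0⟩, rfl⟩
  have hYS : Y.card ≤ (n + 1) * S.card := by
    refine card_image_le.trans ?_
    rw [card_product, hT'c, mul_comm]
  have hlen : len η S.card ≤ len η Y.card := len_mono hη.le hS3 hSY
  have hnear : near n (len η Y.card) Y = Y :=
    near_shift S T' (by omega) fun x hx y hy => (hTW x (hT'T hx) y (hT'T hy)).trans hlen
  have h1 := h f hf hfd Y.card Y le_rfl
  rw [hnear] at h1
  have hY0 : (0 : ℝ) < Y.card := by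
    have : (S.card : ℝ) ≤ Y.card := by exact_mod_cast hSY
    linarith
  have hP : 0 < (pk k (vals f Y)).card := by
    have : (0 : ℝ) < (pk k (vals f Y)).card := lt_of_lt_of_le (by positivity) h1
    exact_mod_cast this
  obtain ⟨t, ht, h2⟩ := pigeon (pk k (vals f Y)) (Fintype.piFinset fun _ : Fin k => T')
    (fun t => (Fintype.piFinset fun _ : Fin k => S).image fun s => ∏ i, f.eval (s i + t i)) (by
      intro y hy
      unfold pk at hy
      obtain ⟨a, ha, rfl⟩ := mem_image.1 hy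
      rw [Fintype.mem_piFinset] at ha
      have h3 : ∀ i, ∃ s ∈ S, ∃ t ∈ T', f.eval (s + t) = a i := by
        intro i
        have h4 := ha i
        unfold vals at h4
        rw [mem_erase, mem_image] at h4
        obtain ⟨-, x, hx, hxa⟩ := h4
        obtain ⟨⟨s, t⟩, hst, rfl⟩ := mem_image.1 hx
        rw [mem_product] at hst
        exact ⟨s, hst.1, t, hst.2, hxa⟩
      choose s hs t ht hst using h3
      refine mem_biUnion.2 ⟨t, Fintype.mem_piFinset.2 ht, mem_image.2 ⟨s,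
        Fintype.mem_piFinset.2 hs, prod_congr rfl fun i _ => hst i⟩⟩) (card_pos.1 hP)
  rw [Fintype.mem_piFinset] at ht
  refine ⟨t, fun i => hT'T (ht i), ?_⟩
  have h3 : (Fintype.piFinset fun _ : Fin k => T').card = (n + 1) ^ k := by
    rw [Fintype.card_piFinset_const, hT'c]
  rw [h3] at h2
  obtain ⟨q, hq⟩ : ∃ q : ℝ, q = (((Fintype.piFinset fun _ : Fin k => S).image
    fun s => ∏ i, f.eval (s i + t i)).card : ℝ) := ⟨_, rfl⟩
  have h4 : ((pk k (vals f Y)).card : ℝ) ≤ (n + 1) ^ k * q := by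
    rw [hq]
    exact_mod_cast h2
  rw [← hq]
  have h5 : c * (Y.card : ℝ) ^ (-ε) * (Y.card : ℝ) ^ k ≤ (n + 1) ^ k * q := h1.trans h4
  have h6 : ((n + 1 : ℝ) * S.card) ^ (-ε) ≤ (Y.card : ℝ) ^ (-ε) := by
    refine Real.rpow_le_rpow_of_nonpos hY0 ?_ (by linarith)
    exact_mod_cast hYS
  have h7 : (S.card : ℝ) ^ k ≤ (Y.card : ℝ) ^ k :=
    pow_le_pow_left₀ hS0.le (by exact_mod_cast hSY) k
  have hn0 : (0 : ℝ) < n + 1 := by positivity
  have h8 : c * ((n + 1 : ℝ) * S.card) ^ (-ε) * (S.card : ℝ) ^ k ≤ (n + 1) ^ k * q := by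
    refine le_trans ?_ h5
    refine mul_le_mul (mul_le_mul_of_nonneg_left h6 hc.le) h7 (by positivity) ?_
    exact mul_nonneg hc.le (Real.rpow_nonneg hY0.le _)
  rw [Real.mul_rpow hn0.le hS0.le] at h8
  have h9 : c / (n + 1 : ℝ) ^ ((k : ℝ) + ε) * (S.card : ℝ) ^ ((k : ℝ) - ε) ≤ q := by
    have e1 : (n + 1 : ℝ) ^ ((k : ℝ) + ε) = (n + 1 : ℝ) ^ k * (n + 1 : ℝ) ^ ε := by
      rw [Real.rpow_add hn0, Real.rpow_natCast]
    have e2 : (S.card : ℝ) ^ ((k : ℝ) - ε) = (S.card : ℝ) ^ k * (S.card : ℝ) ^ (-ε) := by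
      rw [sub_eq_add_neg, Real.rpow_add hS0, Real.rpow_natCast]
    rw [Real.rpow_neg hn0.le] at h8
    have e3 : (0 : ℝ) < (n + 1 : ℝ) ^ ε := by positivity
    have e4 : (0 : ℝ) < (n + 1 : ℝ) ^ k := by positivity
    rw [e1, e2, div_mul_eq_mul_div, div_le_iff₀ (by positivity)]
    have h10 : c * (S.card : ℝ) ^ (-ε) * (S.card : ℝ) ^ k / (n + 1 : ℝ) ^ ε ≤ (n + 1) ^ k * q := by
      refine le_trans (le_of_eq ?_) h8
      field_simp
    rw [div_le_iff₀ e3] at h10
    linarith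
  exact le_trans (mul_le_mul_of_nonneg_right (min_le_right _ _) (Real.rpow_nonneg hS0.le _)) h9

/-- the pairs of elements at distance at most `W` -/
noncomputable def pairs (W : ℝ) (X : Finset ℤ) : Finset (ℤ × ℤ) :=
  (X ×ˢ X).filter fun s => ((|s.2 - s.1| : ℤ) : ℝ) ≤ W

lemma near_half {n : ℕ} {W : ℝ} (X : Finset ℤ) (x : ℤ) :
    ∃ Y ⊆ X, (X.filter fun y => ((|y - x| : ℤ) : ℝ) ≤ W).card ≤ 2 * Y.card ∧
      (n ≤ Y.card → near n W Y = Y) := by
  set Z := X.filter fun y => ((|y - x| : ℤ) : ℝ) ≤ W with hZ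
  set Z1 := Z.filter fun y => x ≤ y with hZ1
  set Z2 := Z.filter fun y => ¬ x ≤ y with hZ2
  have h1 : Z1.card + Z2.card = Z.card := card_filter_add_card_filter_not _
  have hZ1X : Z1 ⊆ X := (filter_subset _ _).trans (filter_subset _ _)
  have hZ2X : Z2 ⊆ X := (filter_subset _ _).trans (filter_subset _ _)
  have key : ∀ Y : Finset ℤ, (∀ a ∈ Y, ∀ b ∈ Y, ((|b - a| : ℤ) : ℝ) ≤ W) → n ≤ Y.card →
      near n W Y = Y := by
    intro Y hY hn
    unfold near
    rw [filter_true_of_mem]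
    intro a ha
    rw [filter_true_of_mem fun b hb => hY a ha b hb]
    exact hn
  have hd1 : ∀ a ∈ Z1, ∀ b ∈ Z1, ((|b - a| : ℤ) : ℝ) ≤ W := by
    intro a ha b hb
    rw [hZ1, mem_filter, hZ, mem_filter] at ha hb
    have e : |b - a| ≤ max |a - x| |b - x| := by
      rw [abs_of_nonneg (by linarith [ha.2] : (0 : ℤ) ≤ a - x),
        abs_of_nonneg (by linarith [hb.2] : (0 : ℤ) ≤ b - x), abs_le]
      constructor
      · have := le_max_left (a - x) (b - x)
        linarith [hb.2]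
      · have := le_max_right (a - x) (b - x)
        linarith [ha.2]
    have e2 : ((|b - a| : ℤ) : ℝ) ≤ ((max |a - x| |b - x| : ℤ) : ℝ) := by exact_mod_cast e
    refine e2.trans ?_
    rw [Int.cast_max]
    exact max_le ha.1.2 hb.1.2
  have hd2 : ∀ a ∈ Z2, ∀ b ∈ Z2, ((|b - a| : ℤ) : ℝ) ≤ W := by
    intro a ha b hb
    rw [hZ2, mem_filter, hZ, mem_filter] at ha hb
    have ha2 := not_le.1 ha.2
    have hb2 := not_le.1 hb.2
    have e : |b - a| ≤ max |a - x| |b - x| := by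
      rw [abs_of_neg (by linarith : a - x < (0 : ℤ)),
        abs_of_neg (by linarith : b - x < (0 : ℤ)), abs_le]
      constructor
      · have := le_max_right (-(a - x)) (-(b - x))
        linarith
      · have := le_max_left (-(a - x)) (-(b - x))
        linarith
    have e2 : ((|b - a| : ℤ) : ℝ) ≤ ((max |a - x| |b - x| : ℤ) : ℝ) := by exact_mod_cast e
    refine e2.trans ?_
    rw [Int.cast_max]
    exact max_le ha.1.2 hb.1.2
  rcases le_total Z1.card Z2.card with h | h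
  · exact ⟨Z2, hZ2X, by omega, key _ hd2⟩
  · exact ⟨Z1, hZ1X, by omega, key _ hd1⟩

/-- counting pairs -/
lemma pairs_le {n : ℕ} {W : ℝ} (X : Finset ℤ) {m : ℕ}
    (hm : ∀ x ∈ near n W X, (X.filter fun y => ((|y - x| : ℤ) : ℝ) ≤ W).card ≤ m) :
    (pairs W X).card ≤ n * X.card + (near n W X).card * m := by
  have h1 : (pairs W X).card = ∑ x ∈ X, (X.filter fun y => ((|y - x| : ℤ) : ℝ) ≤ W).card := by
    unfold pairs
    rw [card_filter, sum_product]
    refine sum_congr rfl fun x _ => ?_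
    rw [card_filter]
  have h2 : ∀ x ∈ X, (X.filter fun y => ((|y - x| : ℤ) : ℝ) ≤ W).card ≤
      n + if x ∈ near n W X then m else 0 := by
    intro x hx
    split_ifs with h
    · exact (hm x h).trans (by omega)
    · by_contra hcon
      push Not at hcon
      exact h (mem_filter.2 ⟨hx, by omega⟩)
  rw [h1]
  refine (sum_le_sum h2).trans ?_
  rw [sum_add_distrib, sum_const, smul_eq_mul, mul_comm, ← sum_filter, sum_const, smul_eq_mul]
  have h3 : (X.filter fun x => x ∈ near n W X) = near n W X := by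
    ext x
    rw [mem_filter]
    exact ⟨fun h => h.2, fun h => ⟨(mem_filter.1 h).1, h⟩⟩
  rw [h3]

end Pool.Agent.U358.LP
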