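import Mathlib
import Pool.Agent.U358.LP.RCore
import Pool.Agent.U358.LP.Shift

/-!
# Reference divisors: the asymptotic form
-/

set_option autoImplicit false

namespace Pool.Agent.U358.LP.R

open Finset Pool.Agent.Y359.PE Pool.Agent.U358.LP
open scoped Classical

/-- the size of the number of labels -/
lemma label_bound {s N : ℕ} {η : ℝ} (hη1 : η ≤ 1) {l : ℝ} (hl : l = Real.log N)
    (hl3 : Real.exp 1 ≤ l) (W : ℕ) (hW1 : 1 ≤ W) (hWN : (W : ℝ) ≤ (N : ℝ) ^ (η * Real.log l)) :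
    Real.log (((Nat.log 2 W + 1) ^ (⌊Real.sqrt l⌋₊ + 1) *
      2 ^ ((s + 1) * Nat.log (⌊Real.sqrt l⌋₊ + 1) W) : ℕ) : ℝ) ≤
      (Real.sqrt l + 1) * Real.log (2 * l ^ 2 + 1) + (s + 1) * 2 * η * l := by
  have he := Real.add_one_le_exp (1 : ℝ)
  have hl0 : 0 < l := by linarith
  have hN1 : (1 : ℝ) < N := by
    by_contra h
    have h1 : Real.log N ≤ 0 := Real.log_nonpos (by positivity) (not_lt.1 h)
    linarith
  have hN0 : (0 : ℝ) < N := by linarith
  set lam := Real.log l with hlam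
  have hlam1 : 1 ≤ lam := by
    rw [hlam, Real.le_log_iff_exp_le hl0]
    exact hl3
  have hlaml : lam ≤ l := by
    have := Real.log_le_sub_one_of_pos hl0
    linarith
  have hwr : (1 : ℝ) ≤ W := by exact_mod_cast hW1
  have hlogW : Real.log W ≤ η * lam * l := by
    have h1 := Real.log_le_log (by linarith) hWN
    rw [Real.log_rpow hN0, ← hl] at h1
    exact h1
  have hlogW0 : 0 ≤ Real.log (W : ℝ) := Real.log_nonneg (by exact_mod_cast hW1)
  set Y := ⌊Real.sqrt l⌋₊ with hY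
  have hs1 : 1 ≤ Real.sqrt l := by
    rw [← Real.sqrt_one]
    exact Real.sqrt_le_sqrt (by linarith)
  have hY1 : 1 ≤ Y := Nat.le_floor (by exact_mod_cast hs1)
  have hYs : (Y : ℝ) ≤ Real.sqrt l := Nat.floor_le (Real.sqrt_nonneg _)
  have hYs' : Real.sqrt l ≤ (Y : ℝ) + 1 := (Nat.lt_floor_add_one _).le
  have hlogY : lam / 2 ≤ Real.log ((Y : ℝ) + 1) := by
    have h1 := Real.log_le_log (by linarith) hYs'
    rw [Real.log_sqrt hl0.le] at h1
    exact h1
  -- the exponent `u`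
  set u := Nat.log (Y + 1) W with hu
  have hur : (u : ℝ) ≤ 2 * η * l := by
    have h1 : (Y + 1) ^ u ≤ W := Nat.pow_log_le_self _ (by omega)
    have h2 : (((Y + 1) ^ u : ℕ) : ℝ) ≤ W := by exact_mod_cast h1
    have h3 := Real.log_le_log (by positivity) h2
    push_cast at h3
    rw [Real.log_pow] at h3
    have h4 : (u : ℝ) * (lam / 2) ≤ η * lam * l :=
      (mul_le_mul_of_nonneg_left hlogY (by positivity)).trans (h3.trans hlogW)
    have h5 : (u : ℝ) * lam ≤ (2 * η * l) * lam := by nlinarith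
    exact le_of_mul_le_mul_right h5 (by linarith)
  have hlog2 := Real.log_two_gt_d9
  have hlog2' := Real.log_two_lt_d9
  -- the bound `J`
  have hJ : ((Nat.log 2 W + 1 : ℕ) : ℝ) ≤ 2 * l ^ 2 + 1 := by
    have h1 : 2 ^ Nat.log 2 W ≤ W := Nat.pow_log_le_self _ (by omega)
    have h2 : ((2 ^ Nat.log 2 W : ℕ) : ℝ) ≤ W := by exact_mod_cast h1
    have h3 := Real.log_le_log (by positivity) h2
    push_cast at h3
    rw [Real.log_pow] at h3
    have h4 : ((Nat.log 2 W : ℕ) : ℝ) ≤ 2 * Real.log W := by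
      have : 0 ≤ ((Nat.log 2 W : ℕ) : ℝ) := by positivity
      nlinarith
    have h5 : η * lam * l ≤ l ^ 2 := by
      have h6 : η * lam ≤ l := by
        calc η * lam ≤ 1 * l := mul_le_mul hη1 hlaml (by linarith) (by norm_num)
          _ = l := one_mul l
      calc η * lam * l ≤ l * l := mul_le_mul_of_nonneg_right h6 hl0.le
        _ = l ^ 2 := by ring
    push_cast
    linarith
  -- conclusion
  have hJ0 : (0 : ℝ) < ((Nat.log 2 W + 1 : ℕ) : ℝ) := by positivity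
  have e0 : (((Nat.log 2 W + 1) ^ (Y + 1) * 2 ^ ((s + 1) * u) : ℕ) : ℝ) =
      ((Nat.log 2 W + 1 : ℕ) : ℝ) ^ (Y + 1) * 2 ^ ((s + 1) * u) := by push_cast; rfl
  rw [e0, Real.log_mul (by positivity) (by positivity), Real.log_pow, Real.log_pow]
  have h2 : Real.log ((Nat.log 2 W + 1 : ℕ) : ℝ) ≤ Real.log (2 * l ^ 2 + 1) :=
    Real.log_le_log hJ0 hJ
  have h3 : 0 ≤ Real.log ((Nat.log 2 W + 1 : ℕ) : ℝ) := Real.log_natCast_nonneg _
  have h4 : ((Y + 1 : ℕ) : ℝ) * Real.log ((Nat.log 2 W + 1 : ℕ) : ℝ) ≤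
      (Real.sqrt l + 1) * Real.log (2 * l ^ 2 + 1) := by
    refine mul_le_mul ?_ h2 h3 (by positivity)
    push_cast
    linarith
  have h5 : (((s + 1) * u : ℕ) : ℝ) * Real.log 2 ≤ (s + 1) * 2 * η * l := by
    push_cast
    have e1 : ((s : ℝ) + 1) * u ≤ (s + 1) * (2 * η * l) :=
      mul_le_mul_of_nonneg_left hur (by positivity)
    have e2 : ((s : ℝ) + 1) * u * Real.log 2 ≤ (s + 1) * u * 1 :=
      mul_le_mul_of_nonneg_left (by linarith) (by positivity)
    linarith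
  linarith

/-- the references agree with the valuations for most elements -/
def Ref (T : Finset ℕ) (A : Finset ℤ) (e : ℕ → ℤ) (D₁ D₂ : ℤ → ℕ) (t : ℝ) : Prop :=
  ∀ p ∈ T, ((A.filter fun x =>
    (fa x p : ℤ) ≠ e p + (D₁ x).factorization p - (D₂ x).factorization p).card : ℝ) ≤ t

/-- **Reference divisors.** -/
theorem mainR (k : ℕ) (hk : 1 ≤ k) (ε : ℝ) (hε : 0 < ε) :
    ∃ δ η c : ℝ, 0 < δ ∧ 0 < η ∧ 0 < c ∧ ∀ (N : ℕ) (A : Finset ℤ), A.Nonempty → (0 : ℤ) ∉ A →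
      A.card ≤ N → ∀ (T : Finset ℕ) (e : ℕ → ℤ) (D₁ D₂ : ℤ → ℕ), (∀ p ∈ T, p.Prime) →
      (∀ x ∈ A, D₁ x ≠ 0 ∧ (D₁ x : ℝ) ≤ len η N) → (∀ x ∈ A, D₂ x ≠ 0 ∧ (D₂ x : ℝ) ≤ len η N) →
      Ref T A e D₁ D₂ (δ * A.card) → ∀ F : ℕ, (∀ x ∈ A, (fine A T x).card ≤ F) →
      c * (N : ℝ) ^ (-ε) * ((A.card : ℝ) / F) ^ k ≤ (pk k A).card := by
  have hkr : (1 : ℝ) ≤ k := by exact_mod_cast hk
  have hk0 : (0 : ℝ) < k := by linarith
  -- the parameters
  set γ : ℝ := min 1 (ε / (2 * k)) with hγ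
  have hγ0 : 0 < γ := lt_min one_pos (by positivity)
  have hγ1 : γ ≤ 1 := min_le_left _ _
  have hγk : γ * k ≤ ε / 2 := by
    have h1 : γ ≤ ε / (2 * k) := min_le_right _ _
    calc γ * k ≤ ε / (2 * k) * k := mul_le_mul_of_nonneg_right h1 hk0.le
      _ = ε / 2 := by field_simp
  set v : ℝ := k * (4 + k) / γ with hv
  have hv0 : 0 ≤ v := by positivity
  set s : ℕ := ⌈3 * Real.exp (6 + v)⌉₊ with hs
  have hsr : 3 * Real.exp (6 + v) ≤ s := Nat.le_ceil _
  have hL1 : Real.exp (6 + v) ≤ (s : ℝ) / 3 := by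
    rw [le_div_iff₀ (by positivity)]
    linarith
  have hL0 : 0 < (s : ℝ) / 3 := lt_of_lt_of_le (Real.exp_pos _) hL1
  have hlogL : 6 + v ≤ Real.log ((s : ℝ) / 3) := by
    rw [Real.le_log_iff_exp_le hL0]
    exact hL1
  have hLone : 1 < (s : ℝ) / 3 :=
    lt_of_lt_of_le (Real.one_lt_exp_iff.2 (by linarith)) hL1
  have hs0 : (0 : ℝ) < s := by
    have := Real.exp_pos (6 + v)
    linarith
  set η : ℝ := min 1 (ε / (16 * k * ((s + 1) * 2))) with hη
  have hη0 : 0 < η := lt_min one_pos (by positivity)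
  have hη1 : η ≤ 1 := min_le_left _ _
  have hηs : ((s : ℝ) + 1) * 2 * η ≤ ε / (16 * k) := by
    have h1 : η ≤ ε / (16 * k * ((s + 1) * 2)) := min_le_right _ _
    calc ((s : ℝ) + 1) * 2 * η ≤ (s + 1) * 2 * (ε / (16 * k * ((s + 1) * 2))) :=
          mul_le_mul_of_nonneg_left h1 (by positivity)
      _ = ε / (16 * k) := by field_simp
  obtain ⟨l₀, hl₀1, hasym⟩ := asym 2 (ε / (16 * k)) (by positivity) (by positivity)
  set l₁ : ℝ := max l₀ (Real.exp 1) with hl₁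
  set N₀ : ℕ := ⌈Real.exp l₁⌉₊ with hN₀
  have hN₀1 : 1 ≤ N₀ := Nat.one_le_ceil_iff.2 (Real.exp_pos _)
  have hN₀r : (1 : ℝ) ≤ N₀ := by exact_mod_cast hN₀1
  refine ⟨1 / s, η, 1 / (N₀ : ℝ) ^ k, by positivity, hη0, by positivity, ?_⟩
  intro N A hA h0 hAN T e D₁ D₂ hTp hD₁ hD₂ href F hF
  have hA1 : 1 ≤ A.card := card_pos.2 hA
  have hA1r : (1 : ℝ) ≤ A.card := by exact_mod_cast hA1
  have hANr : (A.card : ℝ) ≤ N := by exact_mod_cast hAN
  have hN1 : (1 : ℝ) ≤ N := by linarith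
  have hpk1 : (1 : ℝ) ≤ (pk k A).card := by exact_mod_cast card_pos.2 (pk_nonempty hA)
  have hNε : (N : ℝ) ^ (-ε) ≤ 1 := Real.rpow_le_one_of_one_le_of_nonpos hN1 (by linarith)
  have hNε0 : 0 < (N : ℝ) ^ (-ε) := Real.rpow_pos_of_pos (by linarith) _
  have hF1 : 1 ≤ F := by
    obtain ⟨x, hx⟩ := hA
    refine le_trans ?_ (hF x hx)
    exact card_pos.2 ⟨x, mem_filter.2 ⟨hx, fun _ _ => rfl⟩⟩
  have hF1r : (1 : ℝ) ≤ F := by exact_mod_cast hF1
  have hAF : (A.card : ℝ) / F ≤ A.card := div_le_self (by linarith) hF1r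
  by_cases hNbig : N < N₀
  · -- small sets
    have h1 : ((A.card : ℝ) / F) ^ k ≤ (N₀ : ℝ) ^ k := by
      refine pow_le_pow_left₀ (by positivity) ?_ k
      have : (N : ℝ) ≤ N₀ := by exact_mod_cast hNbig.le
      linarith
    calc 1 / (N₀ : ℝ) ^ k * (N : ℝ) ^ (-ε) * ((A.card : ℝ) / F) ^ k
        ≤ 1 / (N₀ : ℝ) ^ k * 1 * (N₀ : ℝ) ^ k := by gcongr
      _ = 1 := by field_simp
      _ ≤ _ := hpk1
  push Not at hNbig
  set l := Real.log N with hl
  have hl1 : l₁ ≤ l := by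
    rw [hl, Real.le_log_iff_exp_le (by linarith)]
    exact (Nat.le_ceil _).trans (by exact_mod_cast hNbig)
  have hll₀ : l₀ ≤ l := (le_max_left _ _).trans hl1
  have hl3 : Real.exp 1 ≤ l := (le_max_right _ _).trans hl1
  have hl0 : 0 < l := lt_of_lt_of_le (Real.exp_pos _) hl3
  have hlam0 : 0 ≤ Real.log l := Real.log_nonneg (by
    have := Real.add_one_le_exp (1 : ℝ)
    linarith)
  have hA0 : (0 : ℝ) < A.card := by linarith
  have hfinal : (k : ℝ) * (Real.log A.card - Real.log F) - ε * l ≤ Real.log (pk k A).card →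
      1 / (N₀ : ℝ) ^ k * (N : ℝ) ^ (-ε) * ((A.card : ℝ) / F) ^ k ≤ (pk k A).card := by
    intro h1
    have h2 : (N : ℝ) ^ (-ε) * ((A.card : ℝ) / F) ^ k ≤ (pk k A).card := by
      rw [← Real.log_le_log_iff (by positivity) (by linarith),
        Real.log_mul (by positivity) (by positivity), Real.log_rpow (by linarith), Real.log_pow,
        Real.log_div (by positivity) (by positivity)]
      rw [← hl]
      linarith
    refine le_trans ?_ h2
    have h3 : 1 / (N₀ : ℝ) ^ k ≤ 1 := by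
      rw [div_le_one (by positivity)]
      exact one_le_pow₀ hN₀r
    calc 1 / (N₀ : ℝ) ^ k * (N : ℝ) ^ (-ε) * ((A.card : ℝ) / F) ^ k
        = 1 / (N₀ : ℝ) ^ k * ((N : ℝ) ^ (-ε) * ((A.card : ℝ) / F) ^ k) := by ring
      _ ≤ 1 * ((N : ℝ) ^ (-ε) * ((A.card : ℝ) / F) ^ k) := by gcongr
      _ = _ := one_mul _
  apply hfinal
  have hlogpk0 : 0 ≤ Real.log (pk k A).card := Real.log_nonneg hpk1
  obtain ⟨a, ha⟩ : ∃ a : ℝ, a = Real.log A.card - Real.log F := ⟨_, rfl⟩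
  rw [← ha]
  by_cases ha0 : a ≤ 0
  · have h1 : (k : ℝ) * a ≤ 0 := mul_nonpos_of_nonneg_of_nonpos hk0.le ha0
    have h2 : 0 ≤ ε * l := by positivity
    linarith
  push Not at ha0
  have hal : a ≤ l := by
    have h1 : Real.log A.card ≤ l := Real.log_le_log hA0 hANr
    have h2 : 0 ≤ Real.log F := Real.log_nonneg hF1r
    linarith
  -- the window
  set W : ℕ := ⌊len η N⌋₊ with hW
  have hlen1 : 1 ≤ len η N := by
    unfold len
    exact Real.one_le_rpow hN1 (by positivity)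
  have hW1 : 1 ≤ W := Nat.le_floor (by exact_mod_cast hlen1)
  have hWN : (W : ℝ) ≤ (N : ℝ) ^ (η * Real.log l) := Nat.floor_le (by linarith)
  have hY1 : 1 ≤ ⌊Real.sqrt l⌋₊ := by
    refine Nat.le_floor ?_
    rw [Nat.cast_one, ← Real.sqrt_one]
    refine Real.sqrt_le_sqrt ?_
    have := Real.add_one_le_exp (1 : ℝ)
    linarith
  obtain ⟨M, hM1, hM2, hM3⟩ := main_fin A hA h0 T hTp e D₁ D₂ W
    (fun x hx => ⟨(hD₁ x hx).1, Nat.le_floor (hD₁ x hx).2⟩)
    (fun x hx => ⟨(hD₂ x hx).1, Nat.le_floor (hD₂ x hx).2⟩) s (by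
      intro p hp
      have h1 := href p hp
      rw [div_mul_eq_mul_div, one_mul, le_div_iff₀ hs0] at h1
      have h2 : (s : ℝ) * ((A.filter fun x =>
        (fa x p : ℤ) ≠ e p + (D₁ x).factorization p - (D₂ x).factorization p).card : ℝ) ≤
        A.card := by linarith
      exact_mod_cast h2) ⌊Real.sqrt l⌋₊ hY1 k hk hγ1 hLone (by linarith) (by
      rw [div_le_iff₀ (by linarith)]
      have h2 : k * (4 + k) = γ * v := by
        rw [hv]
        field_simp
      rw [h2]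
      nlinarith) hF1 hF
  have hlab := label_bound (s := s) hη1 hl hl3 W hW1 hWN
  have hM0 : (0 : ℝ) < M := by exact_mod_cast hM1
  have hM00 : 0 ≤ Real.log M := Real.log_natCast_nonneg M
  have hlogM : Real.log M ≤ ε / (4 * k) * l := by
    obtain ⟨q, hq⟩ : ∃ q : ℕ, q = (Nat.log 2 W + 1) ^ (⌊Real.sqrt l⌋₊ + 1) *
      2 ^ ((s + 1) * Nat.log (⌊Real.sqrt l⌋₊ + 1) W) := ⟨_, rfl⟩
    rw [← hq] at hlab hM2
    have h1 : Real.log M ≤ 2 * Real.log q := by
      have h2 : (M : ℝ) ≤ (q : ℝ) ^ 2 := by exact_mod_cast hM2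
      have h3 := Real.log_le_log hM0 h2
      rw [Real.log_pow] at h3
      exact_mod_cast h3
    have h2 := hasym l hll₀
    have h3 : ((s : ℝ) + 1) * 2 * η * l ≤ ε / (16 * k) * l :=
      mul_le_mul_of_nonneg_right hηs hl0.le
    have h4 : ε / (4 * k) * l = 4 * (ε / (16 * k) * l) := by
      field_simp
      norm_num
    rw [h4]
    linarith
  have hkM : k * Real.log M ≤ ε / 4 * l := by
    have := mul_le_mul_of_nonneg_left hlogM hk0.le
    have e1 : k * (ε / (4 * k) * l) = ε / 4 * l := by field_simp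
    rw [e1] at this
    exact this
  -- conclusion
  have hF0 : (0 : ℝ) < F := by linarith
  rw [Real.log_mul hF0.ne' hM0.ne'] at hM3
  have h1 : (k : ℝ) * a - γ * k * l - k * Real.log M ≤
      (1 - γ) * k * (Real.log A.card - (Real.log F + Real.log M)) := by
    have e1 : γ * k * a ≤ γ * k * l :=
      mul_le_mul_of_nonneg_left hal (by positivity)
    have e2 : 0 ≤ γ * k * Real.log M := by positivity
    have e3 : (1 - γ) * k * (Real.log A.card - (Real.log F + Real.log M)) =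
        k * a - γ * k * a - k * Real.log M + γ * k * Real.log M := by
      rw [ha]
      ring
    rw [e3]
    linarith
  have h2 : γ * k * l ≤ ε / 2 * l := mul_le_mul_of_nonneg_right hγk hl0.le
  linarith

end Pool.Agent.U358.LP.R
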