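import Mathlib
import Pool.Agent.U358.LP.RAsym
import Pool.Agent.Y359.PE.Dich

/-!
# Reference divisors outside of few primes: sums or products
-/

set_option autoImplicit false

namespace Pool.Agent.U358.LP.R

open Finset Pool.Agent.Y359.PE Pool.Agent.U358.LP
open scoped Classical

lemma len_mono_left {η₁ η₂ : ℝ} (h : η₁ ≤ η₂) {N : ℕ} (hN : 3 ≤ N) : len η₁ N ≤ len η₂ N := by
  have har : (3 : ℝ) ≤ N := by exact_mod_cast hN
  have h1 : 1 ≤ Real.log N := by
    rw [← Real.log_exp 1]
    refine Real.log_le_log (Real.exp_pos _) ?_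
    have := Real.exp_one_lt_d9
    linarith
  have h3 : 0 ≤ Real.log (Real.log N) := Real.log_nonneg h1
  unfold len
  exact Real.rpow_le_rpow_of_exponent_le (by linarith) (mul_le_mul_of_nonneg_right h h3)

/-- **Reference divisors, few exceptional primes: sums or products.** -/
theorem mainS (k : ℕ) (hk : 1 ≤ k) (ε : ℝ) (hε : 0 < ε) (hε1 : ε ≤ 1) :
    ∃ δ c : ℝ, 0 < δ ∧ 0 < c ∧ ∀ (A B : Finset ℤ) (P : Finset ℕ), B ⊆ A →
      B.Nonempty → (∀ p ∈ P, p.Prime) →
      (P.card : ℝ) * Real.log (Real.log B.card) ≤ δ * Real.log B.card →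
      ∀ (e : ℕ → ℤ) (D₁ D₂ : ℤ → ℕ),
      (∀ x ∈ B, x ≠ 0 → D₁ x ≠ 0 ∧ (D₁ x : ℝ) ≤ len δ B.card) →
      (∀ x ∈ B, x ≠ 0 → D₂ x ≠ 0 ∧ (D₂ x : ℝ) ≤ len δ B.card) →
      (∀ p : ℕ, p.Prime → p ∉ P → ((B.filter fun b => b ≠ 0 ∧
        (fa b p : ℤ) ≠ e p + (D₁ b).factorization p - (D₂ b).factorization p).card : ℝ) ≤
          δ * B.card) →
      c * (B.card : ℝ) ^ ((k : ℝ) - ε) ≤ max ((sk k A).card : ℝ) ((pk k A).card : ℝ) := by
  have hkr : (1 : ℝ) ≤ k := by exact_mod_cast hk
  have hk0 : (0 : ℝ) < k := by linarith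
  obtain ⟨δR, ηR, cR, hδR, hηR, hcR, hR⟩ := mainR k hk (ε / 4) (by positivity)
  -- the parameters
  set γ : ℝ := ε / (4 * k) with hγ
  have hγ0 : 0 < γ := by positivity
  have hγ4 : γ ≤ 1 / 4 := by
    rw [hγ, div_le_div_iff₀ (by positivity) (by norm_num)]
    nlinarith
  set δ : ℝ := ε / (64 * k) with hδ
  have hδ0 : 0 < δ := by positivity
  have hδ64 : δ ≤ 1 / 64 := by
    rw [hδ, div_le_div_iff₀ (by positivity) (by norm_num)]
    nlinarith
  set ε' : ℝ := ε / (2 * k) with hε'
  have hε'0 : 0 < ε' := by positivity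
  have hε'1 : ε' ≤ 1 := by
    rw [hε', div_le_one (by positivity)]
    nlinarith
  set C : ℝ := 4 * k / ε' * Real.exp (6 * k / ε') with hC
  have hC0 : 0 < C := by positivity
  -- large `N`
  have hlim : Filter.Tendsto (fun n : ℕ => Real.log (n : ℝ)) Filter.atTop Filter.atTop :=
    Real.tendsto_log_atTop.comp tendsto_natCast_atTop_atTop
  have hev : ∀ᶠ ℓ : ℝ in Filter.atTop, 2 ≤ ℓ ∧ 2 * C ≤ ℓ ∧ 1 ≤ Real.log ℓ ∧
      Real.log ℓ ≤ δ * ℓ := by
    refine (Filter.eventually_ge_atTop 2).and ((Filter.eventually_ge_atTop (2 * C)).and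
      ((Real.tendsto_log_atTop.eventually_ge_atTop 1).and ?_))
    have h1 := Real.isLittleO_log_id_atTop.bound hδ0
    filter_upwards [h1, Filter.eventually_ge_atTop 1] with x hx hx1
    rw [Real.norm_eq_abs, Real.norm_eq_abs, abs_of_nonneg (Real.log_nonneg hx1), id,
      abs_of_nonneg (by linarith)] at hx
    exact hx
  obtain ⟨N₀, hN₀⟩ := (hlim.eventually hev).exists_forall_of_atTop
  set N₁ : ℕ := max N₀ 3 with hN₁
  have hN₁3 : 3 ≤ N₁ := le_max_right _ _
  have hN₁r : (3 : ℝ) ≤ N₁ := by exact_mod_cast hN₁3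
  set c₁ : ℝ := (γ / (3 * N₁)) ^ k with hc₁
  have hc₁0 : 0 < c₁ := by positivity
  refine ⟨min δ (min (δR / 6) ηR), min c₁ (cR / 6 ^ k), by positivity, by positivity, ?_⟩
  intro A B P hBA hBn hP hPc e D₁ D₂ hD₁ hD₂ hpop
  set N : ℝ := (B.card : ℝ) with hN
  have hN1 : 1 ≤ N := by
    rw [hN]
    exact_mod_cast card_pos.2 hBn
  have hN0 : 0 < N := by linarith
  have hkε : (k : ℝ) - ε ≤ k := by linarith
  have hkε0 : 0 ≤ (k : ℝ) - ε := by linarith
  have hNk0 : 0 < N ^ ((k : ℝ) - ε) := by positivity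
  rcases lt_or_ge B.card N₁ with hsmall | hlarge
  · -- small sets
    have h1 : N ^ ((k : ℝ) - ε) ≤ N ^ k := by
      rw [← Real.rpow_natCast N k]
      exact Real.rpow_le_rpow_of_exponent_le hN1 hkε
    have h2 : (γ / (3 * N₁)) ^ k * N ^ k ≤ 1 := by
      rw [← mul_pow]
      refine pow_le_one₀ (by positivity) ?_
      have h3 : N ≤ N₁ := by
        rw [hN]
        exact_mod_cast hsmall.le
      rw [div_mul_eq_mul_div, div_le_one (by positivity)]
      nlinarith only [h3, hγ4, hγ0, hN₁r, hN0]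
    have h4 : (1 : ℝ) ≤ (pk k A).card := by
      exact_mod_cast card_pos.2 (pk_nonempty (hBn.mono hBA))
    have h5 := mul_le_mul_of_nonneg_left h1 (show 0 ≤ (γ / (3 * (N₁ : ℝ))) ^ k by positivity)
    refine le_trans (mul_le_mul_of_nonneg_right (min_le_left _ _) hNk0.le) ?_
    exact (h5.trans h2).trans (h4.trans (le_max_right _ _))
  -- large sets
  obtain ⟨hℓ2, hℓC, hℓ1, hℓδ⟩ := hN₀ B.card ((le_max_left _ _).trans hlarge)
  set ℓ := Real.log (B.card : ℝ) with hℓ
  have hℓ0 : 0 < ℓ := by linarith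
  have hNexp : Real.exp ℓ = N := Real.exp_log hN0
  obtain ⟨S, hSB, hS0, hSs, hSc⟩ := sign_part B (hN₁3.trans hlarge)
  have hSc' : N ≤ 3 * S.card := by
    rw [hN]
    exact_mod_cast hSc
  have hSp : (0 : ℝ) < S.card := by linarith
  have hSn : S.Nonempty := card_pos.1 (by exact_mod_cast hSp)
  set T := pr S \ P with hT
  -- long classes
  set S2 := S.filter fun x => Real.exp (γ * ℓ) ≤ ((fine S T x).card : ℝ) with hS2
  set S1 := S.filter fun x => ¬ Real.exp (γ * ℓ) ≤ ((fine S T x).card : ℝ) with hS1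
  have hS12 : S2.card + S1.card = S.card := card_filter_add_card_filter_not _
  have hS12r : (S2.card : ℝ) + S1.card = S.card := by exact_mod_cast hS12
  rcases lt_or_ge (S2.card : ℝ) (γ * S.card) with hcase | hcase
  · -- products
    have hS1S : S1 ⊆ S := filter_subset _ _
    have hS1c : (S.card : ℝ) / 2 ≤ S1.card := by
      have : γ * S.card ≤ 1 / 4 * S.card := mul_le_mul_of_nonneg_right hγ4 hSp.le
      linarith
    have hS1N : N ≤ 6 * S1.card := by linarith
    have hS1p : (0 : ℝ) < S1.card := by linarith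
    have hS1n : S1.Nonempty := card_pos.1 (by exact_mod_cast hS1p)
    have hlenη : len (min δ (min (δR / 6) ηR)) B.card ≤ len ηR B.card :=
      len_mono_left ((min_le_right _ _).trans (min_le_right _ _)) (hN₁3.trans hlarge)
    have hmain := hR B.card S1 hS1n (fun h => hS0 (hS1S h)) (card_le_card (hS1S.trans hSB)) T e D₁ D₂
      (fun p hp => prime_of_mem_pr (mem_sdiff.1 hp).1)
      (fun x hx => by
        have h1 := hD₁ x (hSB (hS1S hx)) (fun h => hS0 (h ▸ hS1S hx))
        exact ⟨h1.1, h1.2.trans hlenη⟩)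
      (fun x hx => by
        have h1 := hD₂ x (hSB (hS1S hx)) (fun h => hS0 (h ▸ hS1S hx))
        exact ⟨h1.1, h1.2.trans hlenη⟩)
      (by
        intro p hp
        rw [hT, mem_sdiff] at hp
        have h1 := hpop p (prime_of_mem_pr hp.1) hp.2
        have h2 : ((S1.filter fun x =>
          (fa x p : ℤ) ≠ e p + (D₁ x).factorization p - (D₂ x).factorization p).card : ℝ) ≤
          ((B.filter fun b => b ≠ 0 ∧
            (fa b p : ℤ) ≠ e p + (D₁ b).factorization p - (D₂ b).factorization p).card : ℝ) := by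
          have : (S1.filter fun x =>
              (fa x p : ℤ) ≠ e p + (D₁ x).factorization p - (D₂ x).factorization p) ⊆
              B.filter fun b => b ≠ 0 ∧
                (fa b p : ℤ) ≠ e p + (D₁ b).factorization p - (D₂ b).factorization p := by
            intro a ha
            rw [mem_filter] at ha ⊢
            exact ⟨hSB (hS1S ha.1), fun h => hS0 (h ▸ hS1S ha.1), ha.2⟩
          exact_mod_cast card_le_card this
        refine h2.trans (h1.trans ?_)
        have h3 : min δ (min (δR / 6) ηR) ≤ δR / 6 := (min_le_right _ _).trans (min_le_left _ _)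
        calc min δ (min (δR / 6) ηR) * N ≤ δR / 6 * (6 * S1.card) :=
              mul_le_mul h3 hS1N hN0.le (by positivity)
          _ = δR * S1.card := by ring)
      ⌊Real.exp (γ * ℓ)⌋₊ (by
        intro x hx
        refine Nat.le_floor ?_
        have h1 := not_le.1 (mem_filter.1 hx).2
        have h2 : ((fine S1 T x).card : ℝ) ≤ (fine S T x).card := by
          have : fine S1 T x ⊆ fine S T x := filter_subset_filter _ hS1S
          exact_mod_cast card_le_card this
        linarith)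
    have hfl : (⌊Real.exp (γ * ℓ)⌋₊ : ℝ) ≤ Real.exp (γ * ℓ) := Nat.floor_le (Real.exp_pos _).le
    have hfl0 : (0 : ℝ) < (⌊Real.exp (γ * ℓ)⌋₊ : ℝ) := by
      have : 1 ≤ ⌊Real.exp (γ * ℓ)⌋₊ := Nat.le_floor (by
        rw [Nat.cast_one]
        exact Real.one_le_exp (by positivity))
      exact_mod_cast this
    have hq : N ^ (1 - γ) / 6 ≤ (S1.card : ℝ) / (⌊Real.exp (γ * ℓ)⌋₊ : ℝ) := by
      have e1 : N ^ (1 - γ) = N / Real.exp (γ * ℓ) := by
        rw [Real.rpow_sub hN0, Real.rpow_one, ← hNexp, ← Real.exp_mul, mul_comm ℓ γ]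
      rw [e1, le_div_iff₀ hfl0]
      have h1 : N / Real.exp (γ * ℓ) / 6 * (⌊Real.exp (γ * ℓ)⌋₊ : ℝ) ≤
          N / Real.exp (γ * ℓ) / 6 * Real.exp (γ * ℓ) :=
        mul_le_mul_of_nonneg_left hfl (by positivity)
      have h2 : N / Real.exp (γ * ℓ) / 6 * Real.exp (γ * ℓ) = N / 6 := by
        field_simp
      linarith
    have hq2 : N ^ ((k : ℝ) - ε / 4) / 6 ^ k ≤
        ((S1.card : ℝ) / (⌊Real.exp (γ * ℓ)⌋₊ : ℝ)) ^ k := by
      refine le_trans (le_of_eq ?_) (pow_le_pow_left₀ (by positivity) hq k)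
      rw [div_pow, ← Real.rpow_natCast (N ^ (1 - γ)) k, ← Real.rpow_mul hN0.le]
      congr 2
      rw [hγ]
      field_simp
    have hpkS : ((pk k S1).card : ℝ) ≤ (pk k A).card := by
      exact_mod_cast card_le_card (pk_mono (hS1S.trans (hSB.trans hBA)))
    refine le_trans ?_ (le_max_right _ _)
    refine le_trans ?_ hpkS
    refine le_trans ?_ hmain
    have h1 : cR * N ^ (-(ε / 4)) * (N ^ ((k : ℝ) - ε / 4) / 6 ^ k) ≤
        cR * N ^ (-(ε / 4)) * ((S1.card : ℝ) / (⌊Real.exp (γ * ℓ)⌋₊ : ℝ)) ^ k :=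
      mul_le_mul_of_nonneg_left hq2 (by positivity)
    refine le_trans ?_ h1
    have h2 : cR * N ^ (-(ε / 4)) * (N ^ ((k : ℝ) - ε / 4) / 6 ^ k) =
        cR / 6 ^ k * N ^ ((k : ℝ) - ε / 2) := by
      have e1 : N ^ ((k : ℝ) - ε / 2) = N ^ (-(ε / 4)) * N ^ ((k : ℝ) - ε / 4) := by
        rw [← Real.rpow_add hN0]
        congr 1
        ring
      rw [e1]
      ring
    rw [h2]
    refine mul_le_mul (min_le_right _ _) ?_ hNk0.le (by positivity)
    exact Real.rpow_le_rpow_of_exponent_le hN1 (by linarith)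
  · -- sums
    have hS2p : (0 : ℝ) < S2.card := lt_of_lt_of_le (by positivity) hcase
    have hS2n : S2.Nonempty := card_pos.1 (by exact_mod_cast hS2p)
    have hS2S : S2 ⊆ S := filter_subset _ _
    set P' := insert 2 P with hP'
    have hP'p : ∀ p ∈ P', p.Prime := by
      intro p hp
      rcases mem_insert.1 hp with rfl | h
      · exact Nat.prime_two
      · exact hP p h
    set M : ℝ := 4 * k / ε' * Real.exp (6 * k / ε') * Real.log (2 * S2.card) with hM
    have hMC : M = C * Real.log (2 * S2.card) := rfl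
    have hS21 : (1 : ℝ) ≤ S2.card := by exact_mod_cast card_pos.2 hS2n
    have hM0 : 0 ≤ M := by
      rw [hMC]
      have : 0 ≤ Real.log (2 * (S2.card : ℝ)) := Real.log_nonneg (by linarith)
      positivity
    have hSN : (S.card : ℝ) ≤ N := by
      rw [hN]
      exact_mod_cast card_le_card hSB
    have hMle : M ≤ C * (Real.log 2 + ℓ) := by
      rw [hMC]
      refine mul_le_mul_of_nonneg_left ?_ hC0.le
      rw [hℓ, ← Real.log_mul (by norm_num) (by positivity)]
      refine Real.log_le_log (by positivity) ?_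
      have : (S2.card : ℝ) ≤ S.card := by exact_mod_cast card_le_card hS2S
      change 2 * (S2.card : ℝ) ≤ 2 * N
      linarith
    have hr : (P'.card : ℝ) * Real.log ℓ ≤ 2 * δ * ℓ := by
      have h1 : (P'.card : ℝ) ≤ P.card + 1 := by exact_mod_cast card_insert_le _ _
      have h2 := mul_le_mul_of_nonneg_right h1 (show 0 ≤ Real.log ℓ by linarith)
      have h3 : (P.card : ℝ) * Real.log ℓ ≤ δ * ℓ := by
        refine le_trans hPc ?_
        exact mul_le_mul_of_nonneg_right (min_le_left _ _) hℓ0.le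
      linarith
    obtain ⟨n1, n2⟩ := num_sum (k := k) (r := P'.card) hk (δ := δ) (by linarith) hℓ2 hℓ1 hC0.le
      hℓC hM0 hMle hr
    have h4δ : 4 * δ ≤ γ := by
      rw [hδ, hγ, ← mul_div_assoc, div_le_div_iff₀ (by positivity) (by positivity)]
      nlinarith only [mul_pos hε (show (0 : ℝ) < k by positivity)]
    have sc := sums_case k hk hε'0 hε'1 P' hP'p ⟨2, mem_insert_self _ _⟩ S2 hS2n
      (fun h => hS0 (hS2S h)) (fun x hx y hy => hSs x (hS2S hx) y (hS2S hy)) M hM (fun x hx => by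
        have hx' := mem_filter.1 hx
        refine n1.trans ?_
        have h1 : Real.exp (4 * δ * ℓ) ≤ Real.exp (γ * ℓ) :=
          Real.exp_le_exp.2 (mul_le_mul_of_nonneg_right h4δ hℓ0.le)
        refine h1.trans (hx'.2.trans ?_)
        have h2 : fine S T x ⊆ S2.filter fun y => ∀ p, p ∉ P' → fa x p = fa y p := by
          intro y hy
          have hy' := mem_filter.1 hy
          have hcl : fine S T y = fine S T x := by
            unfold fine
            refine filter_congr fun z _ => ?_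
            exact forall₂_congr fun p hp => by rw [hy'.2 p hp]
          rw [mem_filter]
          refine ⟨mem_filter.2 ⟨hy'.1, ?_⟩, ?_⟩
          · rw [hcl]
            exact hx'.2
          · intro p hp
            have hpP : p ∉ P := fun h => hp (mem_insert_of_mem h)
            by_cases hp2 : p ∈ pr S
            · have h3 : p ∈ T := mem_sdiff.2 ⟨hp2, hpP⟩
              exact (hy'.2 p h3).symm
            · rw [fa_eq_zero hy'.1 hp2, fa_eq_zero (hS2S hx) hp2]
        exact_mod_cast card_le_card h2)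
    have hsub : ((sk k S2).card : ℝ) ≤ (sk k A).card := by
      exact_mod_cast card_le_card (sk_mono (hS2S.trans (hSB.trans hBA)))
    refine le_trans ?_ (hsub.trans (le_max_left _ _))
    have hskn : (sk k S2).Nonempty := by
      obtain ⟨a, ha⟩ := hS2n
      exact ⟨_, mem_image_of_mem _ (Fintype.mem_piFinset.2 fun _ => ha)⟩
    have hsk0 : (0 : ℝ) < (sk k S2).card := by exact_mod_cast card_pos.2 hskn
    have hlogsc : (1 - ε') * (k * Real.log S2.card) ≤ 16 * k * δ * ℓ +
        Real.log (sk k S2).card := by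
      have h1 : ((S2.card : ℝ) ^ k) ^ (1 - ε') ≤ Real.exp (16 * k * δ * ℓ) * (sk k S2).card :=
        sc.trans (mul_le_mul_of_nonneg_right n2 hsk0.le)
      have h2 := Real.log_le_log (by positivity) h1
      rw [Real.log_rpow (by positivity), Real.log_pow, Real.log_mul (Real.exp_pos _).ne' hsk0.ne',
        Real.log_exp] at h2
      exact h2
    have hlogS2 : ℓ + Real.log (γ / 3) ≤ Real.log S2.card := by
      rw [hℓ, ← Real.log_mul (by positivity) (by positivity)]
      refine Real.log_le_log (by positivity) ?_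
      change N * (γ / 3) ≤ _
      have h1 : γ * (N / 3) ≤ γ * S.card := mul_le_mul_of_nonneg_left (by linarith) hγ0.le
      linarith
    have hcle : c₁ ≤ (γ / 3) ^ k := by
      refine pow_le_pow_left₀ (by positivity) ?_ k
      exact div_le_div_of_nonneg_left hγ0.le (by norm_num) (by nlinarith)
    have h8 : min c₁ (cR / 6 ^ k) * N ^ ((k : ℝ) - ε) ≤ (γ / 3) ^ k * N ^ ((k : ℝ) - ε) :=
      mul_le_mul_of_nonneg_right ((min_le_left _ _).trans hcle) hNk0.le
    refine h8.trans ?_
    rw [← Real.log_le_log_iff (by positivity) hsk0, Real.log_mul (by positivity)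
      (Real.rpow_pos_of_pos hN0 _).ne', Real.log_rpow hN0, Real.log_pow]
    change k * Real.log (γ / 3) + ((k : ℝ) - ε) * ℓ ≤ _
    have hg0 : Real.log (γ / 3) ≤ 0 :=
      Real.log_nonpos (by positivity) (by linarith only [hγ4])
    have h9 := mul_le_mul_of_nonneg_left hlogS2 (show 0 ≤ (1 - ε') * k by
      have : 0 ≤ 1 - ε' := by linarith
      positivity)
    have hkε' : k * ε' = ε / 2 := by
      rw [hε']
      field_simp
    have hkδ : 16 * k * δ = ε / 4 := by
      rw [hδ]
      field_simp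
      norm_num
    rw [hkδ] at hlogsc
    have h10 : (1 - ε') * k * (ℓ + Real.log (γ / 3)) =
        k * ℓ - (k * ε') * ℓ + k * Real.log (γ / 3) - (k * ε') * Real.log (γ / 3) := by ring
    rw [h10, hkε'] at h9
    have h11 : ε / 2 * Real.log (γ / 3) ≤ 0 := mul_nonpos_of_nonneg_of_nonpos (by positivity) hg0
    have h12 : (1 - ε') * (k * Real.log S2.card) = (1 - ε') * k * Real.log S2.card := by ring
    rw [h12] at hlogsc
    have h13 : 0 ≤ ε / 4 * ℓ := by positivity
    linarith only [h9, h11, hlogsc, h13]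

end Pool.Agent.U358.LP.R
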