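import Mathlib
import Pool.Agent.U358.LP.RSum

/-!
# Reference divisors: both statements together, and colourings
-/

set_option autoImplicit false

namespace Pool.Agent.U358.LP.R

open Finset Pool.Agent.Y359.PE Pool.Agent.U358.LP
open scoped Classical

/-- all valuations equal: at most two elements -/
lemma fine_two (A : Finset ℤ) (h0 : (0 : ℤ) ∉ A) (x : ℤ) (hx : x ∈ A) :
    (fine A (pr A) x).card ≤ 2 := by
  have h1 : (fine A (pr A) x).card ≤ (univ : Finset Bool).card := by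
    refine card_le_card_of_injOn (fun y => decide (0 < y)) (fun y _ => mem_coe.2 (mem_univ _)) ?_
    intro y hy z hz hyz
    have hy' := mem_filter.1 (mem_coe.1 hy)
    have hz' := mem_filter.1 (mem_coe.1 hz)
    have hs : (0 < y ↔ 0 < z) := by
      have h : decide (0 < y) = decide (0 < z) := hyz
      rwa [decide_eq_decide] at h
    refine eq_of_fa (fun h => h0 (h ▸ hy'.1)) (fun h => h0 (h ▸ hz'.1)) hs fun p => ?_
    by_cases hp : p ∈ pr A
    · rw [hy'.2 p hp, hz'.2 p hp]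
    · rw [fa_eq_zero hy'.1 hp, fa_eq_zero hz'.1 hp]
  exact h1.trans (by rw [card_univ, Fintype.card_bool])

/-- **Reference divisors at all primes: products.** -/
theorem mainP (k : ℕ) (hk : 1 ≤ k) (ε : ℝ) (hε : 0 < ε) :
    ∃ δ c : ℝ, 0 < δ ∧ 0 < c ∧ ∀ A B : Finset ℤ, B ⊆ A → B.Nonempty →
      ∀ (e : ℕ → ℤ) (D₁ D₂ : ℤ → ℕ),
      (∀ x ∈ B, x ≠ 0 → D₁ x ≠ 0 ∧ (D₁ x : ℝ) ≤ len δ B.card) →
      (∀ x ∈ B, x ≠ 0 → D₂ x ≠ 0 ∧ (D₂ x : ℝ) ≤ len δ B.card) →
      (∀ p : ℕ, p.Prime → ((B.filter fun b => b ≠ 0 ∧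
        (fa b p : ℤ) ≠ e p + (D₁ b).factorization p - (D₂ b).factorization p).card : ℝ) ≤
          δ * B.card) →
      c * (B.card : ℝ) ^ ((k : ℝ) - ε) ≤ ((pk k A).card : ℝ) := by
  have hkr : (1 : ℝ) ≤ k := by exact_mod_cast hk
  obtain ⟨δR, ηR, cR, hδR, hηR, hcR, hR⟩ := mainR k hk ε hε
  refine ⟨min (δR / 2) ηR, min (1 / 2 ^ k) (cR / 4 ^ k), by positivity, by positivity, ?_⟩
  intro A B hBA hBn e D₁ D₂ hD₁ hD₂ hpop
  have hB1 : (1 : ℝ) ≤ B.card := by exact_mod_cast card_pos.2 hBn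
  have hB0 : (0 : ℝ) < B.card := by linarith
  have hNk0 : (0 : ℝ) < (B.card : ℝ) ^ ((k : ℝ) - ε) := by positivity
  rcases Nat.lt_or_ge B.card 3 with hB3 | hB3
  · have h4 : (1 : ℝ) ≤ (pk k A).card := by
      exact_mod_cast card_pos.2 (pk_nonempty (hBn.mono hBA))
    refine le_trans ?_ h4
    have h2 : (B.card : ℝ) ^ ((k : ℝ) - ε) ≤ 2 ^ k := by
      calc (B.card : ℝ) ^ ((k : ℝ) - ε) ≤ (B.card : ℝ) ^ (k : ℝ) :=
            Real.rpow_le_rpow_of_exponent_le hB1 (by linarith)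
        _ = (B.card : ℝ) ^ k := Real.rpow_natCast _ _
        _ ≤ 2 ^ k := by
            refine pow_le_pow_left₀ hB0.le ?_ k
            exact_mod_cast Nat.lt_succ_iff.1 hB3
    calc min (1 / 2 ^ k) (cR / 4 ^ k) * (B.card : ℝ) ^ ((k : ℝ) - ε)
        ≤ 1 / 2 ^ k * 2 ^ k := mul_le_mul (min_le_left _ _) h2 hNk0.le (by positivity)
      _ = 1 := by field_simp
  set S := B.erase 0 with hS
  have hSc : B.card ≤ 2 * S.card := by
    have h1 : B.card - 1 ≤ S.card := pred_card_le_card_erase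
    omega
  have hScr : (B.card : ℝ) ≤ 2 * S.card := by exact_mod_cast hSc
  have hSn : S.Nonempty := card_pos.1 (by omega)
  have hSB : S ⊆ B := erase_subset _ _
  have hS0 : (0 : ℤ) ∉ S := notMem_erase _ _
  have hlenη : len (min (δR / 2) ηR) B.card ≤ len ηR B.card :=
    len_mono_left (min_le_right _ _) hB3
  have hmain := hR B.card S hSn hS0 (card_le_card hSB) (pr S) e D₁ D₂
    (fun p hp => prime_of_mem_pr hp)
    (fun x hx => by
      have h1 := hD₁ x (hSB hx) (ne_of_mem_erase hx)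
      exact ⟨h1.1, h1.2.trans hlenη⟩)
    (fun x hx => by
      have h1 := hD₂ x (hSB hx) (ne_of_mem_erase hx)
      exact ⟨h1.1, h1.2.trans hlenη⟩)
    (by
      intro p hp
      have h1 := hpop p (prime_of_mem_pr hp)
      have h2 : ((S.filter fun x =>
        (fa x p : ℤ) ≠ e p + (D₁ x).factorization p - (D₂ x).factorization p).card : ℝ) ≤
        ((B.filter fun b => b ≠ 0 ∧
          (fa b p : ℤ) ≠ e p + (D₁ b).factorization p - (D₂ b).factorization p).card : ℝ) := by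
        have : (S.filter fun x =>
            (fa x p : ℤ) ≠ e p + (D₁ x).factorization p - (D₂ x).factorization p) ⊆
            B.filter fun b => b ≠ 0 ∧
              (fa b p : ℤ) ≠ e p + (D₁ b).factorization p - (D₂ b).factorization p := by
          intro a ha
          rw [mem_filter] at ha ⊢
          exact ⟨hSB ha.1, ne_of_mem_erase ha.1, ha.2⟩
        exact_mod_cast card_le_card this
      refine h2.trans (h1.trans ?_)
      calc min (δR / 2) ηR * (B.card : ℝ) ≤ δR / 2 * (2 * S.card) :=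
            mul_le_mul (min_le_left _ _) hScr hB0.le (by positivity)
        _ = δR * S.card := by ring) 2 (fun x hx => fine_two S hS0 x hx)
  have hpkS : ((pk k S).card : ℝ) ≤ (pk k A).card := by
    exact_mod_cast card_le_card (pk_mono (hSB.trans hBA))
  refine le_trans ?_ (hmain.trans hpkS)
  have h1 : (B.card : ℝ) / 4 ≤ (S.card : ℝ) / ((2 : ℕ) : ℝ) := by
    push_cast
    linarith
  have h2 : (B.card : ℝ) ^ k / 4 ^ k ≤ ((S.card : ℝ) / ((2 : ℕ) : ℝ)) ^ k := by
    rw [← div_pow]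
    exact pow_le_pow_left₀ (by positivity) h1 k
  have h3 : (B.card : ℝ) ^ ((k : ℝ) - ε) = (B.card : ℝ) ^ (-ε) * (B.card : ℝ) ^ k := by
    rw [sub_eq_add_neg, add_comm, Real.rpow_add hB0, Real.rpow_natCast]
  calc min (1 / 2 ^ k) (cR / 4 ^ k) * (B.card : ℝ) ^ ((k : ℝ) - ε)
      ≤ cR / 4 ^ k * (B.card : ℝ) ^ ((k : ℝ) - ε) :=
        mul_le_mul_of_nonneg_right (min_le_right _ _) hNk0.le
    _ = cR * (B.card : ℝ) ^ (-ε) * ((B.card : ℝ) ^ k / 4 ^ k) := by
        rw [h3]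
        ring
    _ ≤ _ := mul_le_mul_of_nonneg_left h2 (by positivity)

/-- the conclusion: sums or products, and products if there are no exceptional primes -/
def Good (k : ℕ) (ε c : ℝ) (P : Finset ℕ) (A B : Finset ℤ) : Prop :=
  c * (B.card : ℝ) ^ ((k : ℝ) - ε) ≤ max ((sk k A).card : ℝ) ((pk k A).card : ℝ) ∧
  (P = ∅ → c * (B.card : ℝ) ^ ((k : ℝ) - ε) ≤ ((pk k A).card : ℝ))

/-- **Reference divisors.** -/
theorem mainB (k : ℕ) (hk : 1 ≤ k) (ε : ℝ) (hε : 0 < ε) (hε1 : ε ≤ 1) :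
    ∃ δ c : ℝ, 0 < δ ∧ 0 < c ∧ ∀ (A B : Finset ℤ) (P : Finset ℕ), B ⊆ A →
      B.Nonempty → (∀ p ∈ P, p.Prime) →
      (P.card : ℝ) * Real.log (Real.log B.card) ≤ δ * Real.log B.card →
      ∀ (e : ℕ → ℤ) (D₁ D₂ : ℤ → ℕ),
      (∀ x ∈ B, x ≠ 0 → D₁ x ≠ 0 ∧ (D₁ x : ℝ) ≤ len δ B.card) →
      (∀ x ∈ B, x ≠ 0 → D₂ x ≠ 0 ∧ (D₂ x : ℝ) ≤ len δ B.card) →
      (∀ p : ℕ, p.Prime → p ∉ P → ((B.filter fun b => b ≠ 0 ∧
        (fa b p : ℤ) ≠ e p + (D₁ b).factorization p - (D₂ b).factorization p).card : ℝ) ≤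
          δ * B.card) → Good k ε c P A B := by
  obtain ⟨δ₁, c₁, hδ₁, hc₁, h₁⟩ := mainS k hk ε hε hε1
  obtain ⟨δ₂, c₂, hδ₂, hc₂, h₂⟩ := mainP k hk ε hε
  refine ⟨min δ₁ δ₂, min (1 / 2 ^ k) (min c₁ c₂), by positivity, by positivity, ?_⟩
  intro A B P hBA hBn hP hPc e D₁ D₂ hD₁ hD₂ hpop
  have hB1 : (1 : ℝ) ≤ B.card := by exact_mod_cast card_pos.2 hBn
  have hB0 : (0 : ℝ) < B.card := by linarith
  have hNk0 : (0 : ℝ) < (B.card : ℝ) ^ ((k : ℝ) - ε) := by positivity
  rcases Nat.lt_or_ge B.card 3 with hB3 | hB3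
  · have h4 : (1 : ℝ) ≤ (pk k A).card := by
      exact_mod_cast card_pos.2 (pk_nonempty (hBn.mono hBA))
    have h2 : (B.card : ℝ) ^ ((k : ℝ) - ε) ≤ 2 ^ k := by
      calc (B.card : ℝ) ^ ((k : ℝ) - ε) ≤ (B.card : ℝ) ^ (k : ℝ) :=
            Real.rpow_le_rpow_of_exponent_le hB1 (by linarith)
        _ = (B.card : ℝ) ^ k := Real.rpow_natCast _ _
        _ ≤ 2 ^ k := by
            refine pow_le_pow_left₀ hB0.le ?_ k
            exact_mod_cast Nat.lt_succ_iff.1 hB3
    have h5 : min (1 / 2 ^ k) (min c₁ c₂) * (B.card : ℝ) ^ ((k : ℝ) - ε) ≤ (pk k A).card := by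
      refine le_trans ?_ h4
      calc min (1 / 2 ^ k) (min c₁ c₂) * (B.card : ℝ) ^ ((k : ℝ) - ε)
          ≤ 1 / 2 ^ k * 2 ^ k := mul_le_mul (min_le_left _ _) h2 hNk0.le (by positivity)
        _ = 1 := by field_simp
    exact ⟨h5.trans (le_max_right _ _), fun _ => h5⟩
  have hl1 : len (min δ₁ δ₂) B.card ≤ len δ₁ B.card := len_mono_left (min_le_left _ _) hB3
  have hl2 : len (min δ₁ δ₂) B.card ≤ len δ₂ B.card := len_mono_left (min_le_right _ _) hB3
  have hlog : 0 ≤ Real.log (B.card : ℝ) := Real.log_nonneg hB1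
  have e1 : min (1 / 2 ^ k) (min c₁ c₂) ≤ c₁ := (min_le_right _ _).trans (min_le_left _ _)
  have e2 : min (1 / 2 ^ k) (min c₁ c₂) ≤ c₂ := (min_le_right _ _).trans (min_le_right _ _)
  refine ⟨?_, ?_⟩
  · refine le_trans (mul_le_mul_of_nonneg_right e1 hNk0.le) (h₁ A B P hBA hBn hP
      (hPc.trans (mul_le_mul_of_nonneg_right (min_le_left _ _) hlog)) e D₁ D₂
      (fun x hx hx0 => ⟨(hD₁ x hx hx0).1, (hD₁ x hx hx0).2.trans hl1⟩)
      (fun x hx hx0 => ⟨(hD₂ x hx hx0).1, (hD₂ x hx hx0).2.trans hl1⟩) ?_)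
    intro p hp hpP
    exact (hpop p hp hpP).trans (mul_le_mul_of_nonneg_right (min_le_left _ _) hB0.le)
  · intro hPe
    refine le_trans (mul_le_mul_of_nonneg_right e2 hNk0.le) (h₂ A B hBA hBn e D₁ D₂
      (fun x hx hx0 => ⟨(hD₁ x hx hx0).1, (hD₁ x hx hx0).2.trans hl2⟩)
      (fun x hx hx0 => ⟨(hD₂ x hx hx0).1, (hD₂ x hx hx0).2.trans hl2⟩) ?_)
    intro p hp
    exact (hpop p hp (by rw [hPe]; exact notMem_empty _)).trans
      (mul_le_mul_of_nonneg_right (min_le_right _ _) hB0.le)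

/-! ### Colourings -/

/-- the part of `n` without the primes of `P` -/
noncomputable def free (P : Finset ℕ) (n : ℕ) : ℕ :=
  ∏ p ∈ n.primeFactors \ P, p ^ n.factorization p

lemma free_prime {P : Finset ℕ} {n : ℕ} : ∀ p ∈ n.primeFactors \ P, p.Prime := fun _ hp =>
  Nat.prime_of_mem_primeFactors (mem_sdiff.1 hp).1

lemma free_fact {P : Finset ℕ} {n p : ℕ} (hp : p ∉ P) :
    (free P n).factorization p = n.factorization p := by
  unfold free
  rw [fact_prod _ free_prime]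
  split_ifs with h
  · rfl
  · have h1 : p ∉ n.primeFactors := fun h2 => h (mem_sdiff.2 ⟨h2, hp⟩)
    rw [← Nat.support_factorization, Finsupp.notMem_support_iff] at h1
    exact h1.symm

lemma free_ne_zero (P : Finset ℕ) (n : ℕ) : free P n ≠ 0 :=
  prod_ne_zero_iff.2 fun p hp => pow_ne_zero _ (free_prime p hp).ne_zero

lemma free_dvd {P : Finset ℕ} {n : ℕ} (hn : n ≠ 0) : free P n ∣ n := by
  have h3 : ∏ p ∈ n.primeFactors, p ^ n.factorization p = n :=
    Nat.prod_factorization_pow_eq_self hn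
  calc free P n ∣ ∏ p ∈ n.primeFactors, p ^ n.factorization p :=
        prod_dvd_prod_of_subset _ _ _ sdiff_subset
    _ = n := h3

lemma free_not_dvd {P : Finset ℕ} {n p : ℕ} (hp : p.Prime) (hpP : p ∈ P) : ¬ p ∣ free P n := by
  intro h
  have h1 := hp.factorization_pos_of_dvd (free_ne_zero P n) h
  unfold free at h1
  rw [fact_prod _ free_prime, if_neg (fun h => (mem_sdiff.1 h).2 hpP)] at h1
  omega

/-- the greatest common divisor -/
noncomputable def gq (Q : Finset ℤ) : ℕ := (Q.gcd id).natAbs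

lemma gq_dvd {Q : Finset ℤ} {x : ℤ} (hx : x ∈ Q) : (gq Q : ℤ) ∣ x := by
  unfold gq
  rw [Int.natAbs_dvd]
  exact Finset.gcd_dvd hx

lemma dvd_gq {Q : Finset ℤ} {q : ℕ} (h : ∀ x ∈ Q, (q : ℤ) ∣ x) : q ∣ gq Q := by
  have h1 : (q : ℤ) ∣ Q.gcd id := Finset.dvd_gcd fun x hx => h x hx
  unfold gq
  rwa [← Int.natCast_dvd]

lemma gq_ne_zero {Q : Finset ℤ} {x : ℤ} (hx : x ∈ Q) (hx0 : x ≠ 0) : gq Q ≠ 0 := by
  intro h
  have h1 := gq_dvd hx
  rw [h, Nat.cast_zero, zero_dvd_iff] at h1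
  exact hx0 h1

section

variable {ι : Type} (S : Finset ℤ) (b : ℤ → ι × ℕ) (r : ℕ) (P : Finset ℕ)

/-- the product of the free parts of the common divisors of `r + 1` elements of the block of `x` -/
noncomputable def GG (x : ℤ) : ℕ :=
  ∏ Q ∈ (S.filter fun y => b y = b x).powersetCard (r + 1), free P (gq Q)

lemma GG_congr {x y : ℤ} (h : b x = b y) : GG S b r P x = GG S b r P y := by
  unfold GG
  rw [h]

lemma GG_ne_zero (x : ℤ) : GG S b r P x ≠ 0 := prod_ne_zero_iff.2 fun _ _ => free_ne_zero _ _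

variable {S b r P}

lemma block_exc (h0 : (0 : ℤ) ∉ S) {p : ℕ} (hp : p.Prime) (hpP : p ∉ P) (x : ℤ) :
    ((S.filter fun y => b y = b x).filter fun y =>
      (GG S b r P x).factorization p < fa y p).card ≤ r := by
  by_contra hcon
  push Not at hcon
  obtain ⟨Q, hQ, hQc⟩ := exists_subset_card_eq hcon
  have hQm : ∀ y ∈ Q, y ∈ S ∧ (GG S b r P x).factorization p < fa y p := by
    intro y hy
    have h1 := hQ hy
    rw [mem_filter, mem_filter] at h1
    exact ⟨h1.1.1, h1.2⟩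
  have hQb : Q ∈ (S.filter fun y => b y = b x).powersetCard (r + 1) :=
    mem_powersetCard.2 ⟨hQ.trans (filter_subset _ _), hQc⟩
  obtain ⟨y₀, hy₀⟩ : Q.Nonempty := card_pos.1 (by omega)
  have hg0 : gq Q ≠ 0 := gq_ne_zero hy₀ fun h => h0 (h ▸ (hQm y₀ hy₀).1)
  have h1 : p ^ ((GG S b r P x).factorization p + 1) ∣ gq Q := dvd_gq fun y hy => by
    obtain ⟨h2, h3⟩ := hQm y hy
    exact (le_fa_iff (fun h => h0 (h ▸ h2)) hp _).1 h3
  rw [hp.pow_dvd_iff_le_factorization hg0] at h1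
  have h1' := free_fact (n := gq Q) hpP
  have h2 : free P (gq Q) ∣ GG S b r P x := dvd_prod_of_mem _ hQb
  have h3 := (Nat.factorization_le_iff_dvd (free_ne_zero _ _) (GG_ne_zero S b r P x)).2 h2 p
  omega

lemma exc (h0 : (0 : ℤ) ∉ S) {p : ℕ} (hp : p.Prime) (hpP : p ∉ P) :
    (S.filter fun y => (GG S b r P y).factorization p < fa y p).card ≤ r * (S.image b).card := by
  have h1 : (S.filter fun y => (GG S b r P y).factorization p < fa y p).card =
      ∑ v ∈ S.image b, ((S.filter fun y => (GG S b r P y).factorization p < fa y p).filter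
        fun y => b y = v).card := by
    refine card_eq_sum_card_fiberwise fun y hy => ?_
    rw [mem_coe, mem_filter] at hy
    exact mem_image_of_mem _ hy.1
  rw [h1, mul_comm, ← smul_eq_mul, ← sum_const]
  refine sum_le_sum fun v hv => ?_
  obtain ⟨x, hx, rfl⟩ := mem_image.1 hv
  refine le_trans (card_le_card ?_) (block_exc (b := b) (P := P) h0 hp hpP x)
  intro y hy
  rw [mem_filter, mem_filter] at hy
  rw [mem_filter, mem_filter]
  refine ⟨⟨hy.1.1, hy.2⟩, ?_⟩
  rw [← GG_congr S b r P hy.2]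
  exact hy.1.2

end

lemma len_pow (η : ℝ) (N m : ℕ) : len η N ^ m = len (m * η) N := by
  unfold len
  rw [← Real.rpow_natCast, ← Real.rpow_mul (Nat.cast_nonneg _)]
  congr 1
  ring

lemma one_le_len {η : ℝ} (hη : 0 ≤ η) {N : ℕ} (hN : 3 ≤ N) : 1 ≤ len η N := by
  have h1 := len_mono_left hη hN
  unfold len at h1 ⊢
  rwa [zero_mul, Real.rpow_zero] at h1

/-- **Colourings.** -/
theorem mainC (k : ℕ) (hk : 1 ≤ k) (r : ℕ) (ε : ℝ) (hε : 0 < ε) (hε1 : ε ≤ 1) :
    ∃ δ c : ℝ, 0 < δ ∧ 0 < c ∧ ∀ (A B : Finset ℤ) (P : Finset ℕ), B ⊆ A →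
      B.Nonempty → (∀ p ∈ P, p.Prime) →
      (P.card : ℝ) * Real.log (Real.log B.card) ≤ δ * Real.log B.card →
      ∀ (ι : Type) (col : ℤ → ι), ((B.image col).card : ℝ) ≤ δ * B.card →
      (∀ Q ⊆ B, Q.card = r + 1 → (0 : ℤ) ∉ Q → (∀ x ∈ Q, ∀ y ∈ Q, col x = col y) →
        ∀ q : ℕ, (∀ x ∈ Q, (q : ℤ) ∣ x) → (∀ p ∈ P, ¬ p ∣ q) → (q : ℝ) ≤ len δ B.card) →
      Good k ε c P A B := by
  obtain ⟨δ₀, c₀, hδ₀, hc₀, h⟩ := mainB k hk ε hε hε1
  set s : ℕ := ⌈2 * (r + 1) / δ₀⌉₊ with hs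
  have hsr : 2 * ((r : ℝ) + 1) / δ₀ ≤ s := Nat.le_ceil _
  have hs1 : 1 ≤ s := Nat.one_le_ceil_iff.2 (by positivity)
  have hs0 : (0 : ℝ) < s := by exact_mod_cast hs1
  set δ : ℝ := min δ₀ (min (δ₀ / (2 * (r + 1))) (δ₀ / 2 ^ s)) with hδ
  have hδ0 : 0 < δ := by positivity
  have d1 : δ ≤ δ₀ := min_le_left _ _
  have d2 : δ ≤ δ₀ / (2 * (r + 1)) := (min_le_right _ _).trans (min_le_left _ _)
  have d3 : δ ≤ δ₀ / 2 ^ s := (min_le_right _ _).trans (min_le_right _ _)
  refine ⟨δ, min (1 / 2 ^ k) c₀, hδ0, by positivity, ?_⟩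
  intro A B P hBA hBn hP hPc ι col hcol hgcd
  have hB1 : (1 : ℝ) ≤ B.card := by exact_mod_cast card_pos.2 hBn
  have hB0 : (0 : ℝ) < B.card := by linarith
  have hNk0 : (0 : ℝ) < (B.card : ℝ) ^ ((k : ℝ) - ε) := by positivity
  rcases Nat.lt_or_ge B.card 3 with hB3 | hB3
  · have h4 : (1 : ℝ) ≤ (pk k A).card := by
      exact_mod_cast card_pos.2 (pk_nonempty (hBn.mono hBA))
    have h2 : (B.card : ℝ) ^ ((k : ℝ) - ε) ≤ 2 ^ k := by
      calc (B.card : ℝ) ^ ((k : ℝ) - ε) ≤ (B.card : ℝ) ^ (k : ℝ) :=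
            Real.rpow_le_rpow_of_exponent_le hB1 (by linarith)
        _ = (B.card : ℝ) ^ k := Real.rpow_natCast _ _
        _ ≤ 2 ^ k := by
            refine pow_le_pow_left₀ hB0.le ?_ k
            exact_mod_cast Nat.lt_succ_iff.1 hB3
    have h5 : min (1 / 2 ^ k) c₀ * (B.card : ℝ) ^ ((k : ℝ) - ε) ≤ (pk k A).card := by
      refine le_trans ?_ h4
      calc min (1 / 2 ^ k) c₀ * (B.card : ℝ) ^ ((k : ℝ) - ε)
          ≤ 1 / 2 ^ k * 2 ^ k := mul_le_mul (min_le_left _ _) h2 hNk0.le (by positivity)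
        _ = 1 := by field_simp
    exact ⟨h5.trans (le_max_right _ _), fun _ => h5⟩
  have hlog : 0 ≤ Real.log (B.card : ℝ) := Real.log_nonneg hB1
  set S := B.erase 0 with hS
  have hSB : S ⊆ B := erase_subset _ _
  have hS0 : (0 : ℤ) ∉ S := notMem_erase _ _
  obtain ⟨b, hb1, hb2, hb3⟩ := blocks S (S.image col) col (fun x hx => mem_image_of_mem _ hx) s hs1
  have hcolS : ((S.image col).card : ℝ) ≤ δ * B.card := by
    refine le_trans ?_ hcol
    exact_mod_cast card_le_card (image_subset_image hSB)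
  -- the size of the reference divisor
  have hGG : ∀ x ∈ S, (GG S b r P x : ℝ) ≤ len δ₀ B.card := by
    intro x hx
    have h1 : ∀ Q ∈ (S.filter fun y => b y = b x).powersetCard (r + 1),
        (free P (gq Q) : ℝ) ≤ len δ B.card := by
      intro Q hQ
      rw [mem_powersetCard] at hQ
      have hQS : Q ⊆ S := hQ.1.trans (filter_subset _ _)
      obtain ⟨y₀, hy₀⟩ : Q.Nonempty := card_pos.1 (by omega)
      have hg0 : gq Q ≠ 0 := gq_ne_zero hy₀ (ne_of_mem_erase (hQS hy₀))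
      refine hgcd Q (hQS.trans hSB) hQ.2 (fun h => hS0 (hQS h)) ?_ _ ?_ ?_
      · intro y hy z hz
        have h1 := (mem_filter.1 (hQ.1 hy)).2
        have h2 := (mem_filter.1 (hQ.1 hz)).2
        rw [← hb1 y, ← hb1 z, h1, h2]
      · intro y hy
        exact (Int.natCast_dvd_natCast.2 (free_dvd hg0)).trans (gq_dvd hy)
      · intro p hp
        exact free_not_dvd (hP p hp) hp
    have h2 : (GG S b r P x : ℝ) ≤
        len δ B.card ^ ((S.filter fun y => b y = b x).powersetCard (r + 1)).card := by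
      unfold GG
      push_cast
      calc ∏ Q ∈ (S.filter fun y => b y = b x).powersetCard (r + 1), (free P (gq Q) : ℝ)
          ≤ ∏ _Q ∈ (S.filter fun y => b y = b x).powersetCard (r + 1), len δ B.card :=
            prod_le_prod (fun _ _ => Nat.cast_nonneg _) h1
        _ = _ := by rw [prod_const]
    refine h2.trans ?_
    have h3 : ((S.filter fun y => b y = b x).powersetCard (r + 1)).card ≤ 2 ^ s := by
      calc ((S.filter fun y => b y = b x).powersetCard (r + 1)).card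
          ≤ (S.filter fun y => b y = b x).powerset.card :=
            card_le_card fun Q hQ => mem_powerset.2 (mem_powersetCard.1 hQ).1
        _ = 2 ^ (S.filter fun y => b y = b x).card := card_powerset _
        _ ≤ 2 ^ s := Nat.pow_le_pow_right (by norm_num) (hb2 x hx)
    refine (pow_le_pow_right₀ (one_le_len hδ0.le hB3) h3).trans ?_
    rw [len_pow]
    refine len_mono_left ?_ hB3
    push_cast
    rw [le_div_iff₀ (by positivity)] at d3
    linarith
  have hmain := h A B P hBA hBn hP (hPc.trans (mul_le_mul_of_nonneg_right d1 hlog)) (fun _ => 0)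
    (fun x => Nat.gcd x.natAbs (GG S b r P x)) (fun _ => 1) (by
      intro x hx hx0
      have hxS : x ∈ S := mem_erase.2 ⟨hx0, hx⟩
      refine ⟨Nat.gcd_ne_zero_right (GG_ne_zero S b r P x), ?_⟩
      refine le_trans ?_ (hGG x hxS)
      exact_mod_cast Nat.le_of_dvd (Nat.pos_of_ne_zero (GG_ne_zero S b r P x))
        (Nat.gcd_dvd_right _ _)) (by
      intro x _ _
      refine ⟨one_ne_zero, ?_⟩
      rw [Nat.cast_one]
      exact one_le_len hδ₀.le hB3) (by
      intro p hp hpP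
      have h1 : (B.filter fun y => y ≠ 0 ∧ (fa y p : ℤ) ≠ 0 +
          ((Nat.gcd y.natAbs (GG S b r P y)).factorization p : ℤ) -
            ((1 : ℕ).factorization p : ℤ)) ⊆
          S.filter fun y => (GG S b r P y).factorization p < fa y p := by
        intro y hy
        rw [mem_filter] at hy
        obtain ⟨hyB, hy0, hy1⟩ := hy
        rw [mem_filter]
        refine ⟨mem_erase.2 ⟨hy0, hyB⟩, ?_⟩
        by_contra hcon
        apply hy1
        have h2 : (Nat.gcd y.natAbs (GG S b r P y)).factorization p = fa y p := by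
          rw [Nat.factorization_gcd (Int.natAbs_ne_zero.2 hy0) (GG_ne_zero S b r P y)]
          show min (y.natAbs.factorization p) ((GG S b r P y).factorization p) = fa y p
          exact min_eq_left (not_lt.1 hcon)
        rw [h2]
        simp
      have h2 := (card_le_card h1).trans (exc hS0 hp hpP)
      have h3 : ((B.filter fun y => y ≠ 0 ∧ (fa y p : ℤ) ≠ 0 +
          ((Nat.gcd y.natAbs (GG S b r P y)).factorization p : ℤ) -
            ((1 : ℕ).factorization p : ℤ)).card : ℝ) ≤ r * (S.image b).card := by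
        exact_mod_cast h2
      refine h3.trans ?_
      have h4 : (s : ℝ) * (S.image b).card ≤ B.card + s * (δ * B.card) := by
        have h5 : (s : ℝ) * (S.image b).card ≤ S.card + s * (S.image col).card := by
          exact_mod_cast hb3
        have h6 : (S.card : ℝ) ≤ B.card := by exact_mod_cast card_le_card hSB
        have h7 := mul_le_mul_of_nonneg_left hcolS hs0.le
        linarith
      have h5 : ((S.image b).card : ℝ) ≤ B.card / s + δ * B.card := by
        have : ((S.image b).card : ℝ) ≤ (B.card + s * (δ * B.card)) / s := by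
          rw [le_div_iff₀ hs0]
          linarith
        refine this.trans (le_of_eq ?_)
        field_simp
      have h6 : ((r : ℝ) + 1) * (B.card / s) ≤ δ₀ / 2 * B.card := by
        rw [div_le_iff₀ hδ₀] at hsr
        rw [← mul_div_assoc, div_le_iff₀ hs0]
        nlinarith
      have h7 : ((r : ℝ) + 1) * (δ * B.card) ≤ δ₀ / 2 * B.card := by
        have : ((r : ℝ) + 1) * δ ≤ δ₀ / 2 := by
          rw [le_div_iff₀ (by positivity)] at d2
          linarith
        nlinarith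
      have h8 : (0 : ℝ) ≤ (S.image b).card := Nat.cast_nonneg _
      calc (r : ℝ) * (S.image b).card ≤ (r + 1) * (S.image b).card := by linarith
        _ ≤ (r + 1) * (B.card / s + δ * B.card) := mul_le_mul_of_nonneg_left h5 (by positivity)
        _ ≤ δ₀ * B.card := by linarith)
  refine ⟨?_, fun hPe => ?_⟩
  · exact (mul_le_mul_of_nonneg_right (min_le_right _ _) hNk0.le).trans hmain.1
  · exact (mul_le_mul_of_nonneg_right (min_le_right _ _) hNk0.le).trans (hmain.2 hPe)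

end Pool.Agent.U358.LP.R
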