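import Mathlib
import Pool.Agent.U358.LP.RBoth
import Pool.Agent.U358.LP.Parts

/-!
# Sets covered by few short polynomial progressions with factors composed of few primes
-/

set_option autoImplicit false

namespace Pool.Agent.U358.LP.R

open Finset Polynomial Pool.Agent.Y359.PE Pool.Agent.U358.LP Pool.Agent.R849.SV
open scoped Classical

lemma good_small {k : ℕ} {ε c : ℝ} (hε : 0 < ε) (hc : 0 ≤ c) (hck : c ≤ 1 / 2 ^ k) {P : Finset ℕ}
    {A B : Finset ℤ} (hBA : B ⊆ A) (hBn : B.Nonempty) (hB3 : B.card < 3) : Good k ε c P A B := by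
  have hB1 : (1 : ℝ) ≤ B.card := by exact_mod_cast card_pos.2 hBn
  have hB0 : (0 : ℝ) < B.card := by linarith
  have hNk0 : (0 : ℝ) < (B.card : ℝ) ^ ((k : ℝ) - ε) := by positivity
  have h4 : (1 : ℝ) ≤ (pk k A).card := by
    exact_mod_cast card_pos.2 (pk_nonempty (hBn.mono hBA))
  have h2 : (B.card : ℝ) ^ ((k : ℝ) - ε) ≤ 2 ^ k := by
    calc (B.card : ℝ) ^ ((k : ℝ) - ε) ≤ (B.card : ℝ) ^ (k : ℝ) :=
          Real.rpow_le_rpow_of_exponent_le hB1 (by linarith)
      _ = (B.card : ℝ) ^ k := Real.rpow_natCast _ _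
      _ ≤ 2 ^ k := by
          refine pow_le_pow_left₀ hB0.le ?_ k
          exact_mod_cast Nat.lt_succ_iff.1 hB3
  have h5 : c * (B.card : ℝ) ^ ((k : ℝ) - ε) ≤ (pk k A).card := by
    refine le_trans ?_ h4
    calc c * (B.card : ℝ) ^ ((k : ℝ) - ε)
        ≤ 1 / 2 ^ k * 2 ^ k := mul_le_mul hck h2 hNk0.le (by positivity)
      _ = 1 := by field_simp
  exact ⟨h5.trans (le_max_right _ _), fun _ => h5⟩

lemma good_mono {k : ℕ} {ε c : ℝ} {P : Finset ℕ} {A A' B : Finset ℤ} (h : A ⊆ A')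
    (hg : Good k ε c P A B) : Good k ε c P A' B := by
  have h1 : ((sk k A).card : ℝ) ≤ (sk k A').card := by exact_mod_cast card_le_card (sk_mono h)
  have h2 : ((pk k A).card : ℝ) ≤ (pk k A').card := by exact_mod_cast card_le_card (pk_mono h)
  exact ⟨hg.1.trans (max_le_max h1 h2), fun hP => (hg.2 hP).trans h2⟩

/-- the number of the sums does not change under dilations -/
lemma card_sk_dil (k : ℕ) (A : Finset ℤ) {m : ℤ} (hm : m ≠ 0) :
    (sk k (A.image fun x => m * x)).card = (sk k A).card := by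
  have h1 : sk k (A.image fun x => m * x) = (sk k A).image fun x => m * x := by
    ext y
    unfold sk
    simp only [mem_image, Fintype.mem_piFinset]
    constructor
    · rintro ⟨f, hf, rfl⟩
      choose g hg hg' using hf
      refine ⟨∑ i, g i, ⟨g, hg, rfl⟩, ?_⟩
      rw [← sum_congr rfl fun i _ => hg' i, mul_sum]
    · rintro ⟨_, ⟨g, hg, rfl⟩, rfl⟩
      refine ⟨fun i => m * g i, fun i => ⟨g i, hg i, rfl⟩, ?_⟩
      rw [mul_sum]
  rw [h1, card_image_of_injective]
  intro x y h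
  exact mul_left_cancel₀ hm h

/-- **Polynomial progressions.** -/
theorem mainG (k : ℕ) (hk : 1 ≤ k) (d : ℕ) (ε : ℝ) (hε : 0 < ε) (hε1 : ε ≤ 1) :
    ∃ δ c : ℝ, 0 < δ ∧ 0 < c ∧ ∀ (A B : Finset ℤ) (P : Finset ℕ), B ⊆ A →
      B.Nonempty → (∀ p ∈ P, p.Prime) →
      (P.card : ℝ) * Real.log (Real.log B.card) ≤ δ * Real.log B.card →
      ∀ m : ℤ, m ≠ 0 → ∀ (ι : Type) (I : Finset ι) (u : ι → ℤ) (g : ι → ℤ[X]),
      (I.card : ℝ) ≤ δ * B.card →
      (∀ i ∈ I, u i ≠ 0 ∧ (∀ p : ℕ, p.Prime → (p : ℤ) ∣ u i → p ∈ P) ∧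
        (g i).IsPrimitive ∧ (g i).natDegree ≤ d) →
      (∀ x ∈ B, ∃ i ∈ I, ∃ j : ℕ, (j : ℝ) ≤ len δ B.card ∧ x = m * (u i * (g i).eval (j : ℤ))) →
      Good k ε c P A B := by
  obtain ⟨δ₀, c₀, hδ₀, hc₀, h⟩ := mainC k hk d ε hε hε1
  set δ : ℝ := δ₀ / (d + 1) ^ 2 with hδ
  have hδ0 : 0 < δ := by positivity
  have hδδ : δ ≤ δ₀ := div_le_self hδ₀.le (one_le_pow₀ (by linarith [(Nat.cast_nonneg d : (0 : ℝ) ≤ d)]))
  refine ⟨δ, min (1 / 2 ^ k) c₀, hδ0, by positivity, ?_⟩
  intro A B P hBA hBn hP hPc m hm ι I u g hI hg hcov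
  have hB1 : (1 : ℝ) ≤ B.card := by exact_mod_cast card_pos.2 hBn
  rcases Nat.lt_or_ge B.card 3 with hB3 | hB3
  · exact good_small hε (by positivity) (min_le_left _ _) hBA hBn hB3
  have hlog : 0 ≤ Real.log (B.card : ℝ) := Real.log_nonneg hB1
  have hIn : Nonempty ι := by
    obtain ⟨x, hx⟩ := hBn
    obtain ⟨i, _, _⟩ := hcov x hx
    exact ⟨i⟩
  -- the quotient set
  have hdiv : ∀ x ∈ B, m * (x / m) = x := by
    intro x hx
    obtain ⟨i, _, j, _, rfl⟩ := hcov x hx
    rw [Int.mul_ediv_cancel_left _ hm]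
  set S := B.image fun x => x / m with hS
  have hSB : S.image (fun x => m * x) = B := by
    rw [hS, image_image]
    ext y
    simp only [mem_image, Function.comp]
    constructor
    · rintro ⟨x, hx, rfl⟩
      rwa [hdiv x hx]
    · intro hy
      exact ⟨y, hy, hdiv y hy⟩
  have hSc : S.card = B.card := by
    have h4 : (S.image (fun x => m * x)).card = S.card :=
      card_image_of_injective _ fun x y hxy => mul_left_cancel₀ hm hxy
    rw [← h4, hSB]
  have hcov' : ∀ x ∈ S, ∃ i, i ∈ I ∧ ∃ j : ℕ, (j : ℝ) ≤ len δ B.card ∧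
      x = u i * (g i).eval (j : ℤ) := by
    intro x hx
    obtain ⟨y, hy, rfl⟩ := mem_image.1 hx
    obtain ⟨i, hi, j, hj, hy'⟩ := hcov y hy
    refine ⟨i, hi, j, hj, ?_⟩
    rw [hy', Int.mul_ediv_cancel_left _ hm]
  choose! i hi j hj hx using hcov'
  set w : ℕ := ⌊len δ B.card⌋₊ with hw
  have hlen1 : 1 ≤ len δ B.card := one_le_len hδ0.le hB3
  have hw1 : 1 ≤ w := Nat.le_floor (by exact_mod_cast hlen1)
  have hww : (w : ℝ) ≤ len δ B.card := Nat.floor_le (by linarith)
  have hmain := h S S P Subset.rfl (card_pos.1 (by omega)) hP (by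
    rw [hSc]
    exact hPc.trans (mul_le_mul_of_nonneg_right hδδ hlog)) ι i (by
      rw [hSc]
      have h1 : ((S.image i).card : ℝ) ≤ I.card := by
        exact_mod_cast card_le_card (image_subset_iff.2 fun x hx => hi x hx)
      refine h1.trans (hI.trans (mul_le_mul_of_nonneg_right hδδ (by linarith)))) (by
      intro Q hQ hQc h0 hQi q hq hqP
      rw [hSc]
      obtain ⟨y₀, hy₀⟩ : Q.Nonempty := card_pos.1 (by omega)
      have hinj : Set.InjOn (fun x => (j x : ℤ)) Q := by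
        intro y hy z hz hyz
        have hyz' : (j y : ℤ) = j z := hyz
        rw [hx y (hQ hy), hx z (hQ hz), hQi y hy z hz, hyz']
      have hc : (Q.image fun x => (j x : ℤ)).card = Q.card := card_image_of_injOn hinj
      obtain ⟨hu0, huP, hprim, hdeg⟩ := hg (i y₀) (hi y₀ (hQ hy₀))
      have hcop : IsCoprime (q : ℤ) (u (i y₀)) := by
        rw [Int.isCoprime_iff_gcd_eq_one]
        by_contra hne
        obtain ⟨p, hp, hpd⟩ := Nat.exists_prime_and_dvd hne
        have h1 : p ∣ q := by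
          have := hpd.trans (Int.gcd_dvd_natAbs_left (q : ℤ) (u (i y₀)))
          simpa using this
        have h2 : (p : ℤ) ∣ u (i y₀) := by
          have := hpd.trans (Int.gcd_dvd_natAbs_right (q : ℤ) (u (i y₀)))
          exact Int.natCast_dvd.2 this
        exact hqP p (huP p hp h2) h1
      have h1 := dvd_wt (g (i y₀)) hprim (Q.image fun x => (j x : ℤ)) (by omega) (q : ℤ) (by
        intro v hv
        obtain ⟨y, hy, rfl⟩ := mem_image.1 hv
        have h2 := hq y hy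
        rw [hx y (hQ hy), hQi y hy y₀ hy₀] at h2
        exact hcop.dvd_of_dvd_mul_left h2)
      have h2 : q ∣ disc (Q.image fun x => (j x : ℤ)) := by
        rw [Int.natCast_dvd] at h1
        exact h1
      have h3 := disc_le (Q.image fun x => (j x : ℤ)) w (d + 1) hw1 (by omega) (by
        intro v hv v' hv'
        obtain ⟨y, hy, rfl⟩ := mem_image.1 hv
        obtain ⟨y', hy', rfl⟩ := mem_image.1 hv'
        have e1 : j y ≤ w := Nat.le_floor (hj y (hQ hy))
        have e2 : j y' ≤ w := Nat.le_floor (hj y' (hQ hy'))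
        rw [abs_le]
        constructor <;> [have := (Nat.cast_nonneg (j y) : (0 : ℤ) ≤ j y);
          have := (Nat.cast_nonneg (j y') : (0 : ℤ) ≤ j y')] <;> omega)
      have h4 : q ≤ w ^ ((d + 1) * (d + 1)) :=
        (Nat.le_of_dvd (Nat.pos_of_ne_zero (disc_ne_zero _)) h2).trans h3
      have h5 : (q : ℝ) ≤ len δ B.card ^ ((d + 1) * (d + 1)) := by
        calc (q : ℝ) ≤ (w : ℝ) ^ ((d + 1) * (d + 1)) := by exact_mod_cast h4
          _ ≤ _ := pow_le_pow_left₀ (by positivity) hww _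
      refine h5.trans ?_
      rw [len_pow]
      refine len_mono_left (le_of_eq ?_) hB3
      rw [hδ]
      push_cast
      field_simp)
  have e1 : (sk k S).card = (sk k B).card := by rw [← card_sk_dil k S hm, hSB]
  have e2 : (pk k S).card = (pk k B).card := by rw [← card_pk_dil k S hm, hSB]
  have hgB : Good k ε (min (1 / 2 ^ k) c₀) P B B := by
    unfold Good at hmain ⊢
    rw [hSc, e1, e2] at hmain
    have h6 : min (1 / 2 ^ k) c₀ * (B.card : ℝ) ^ ((k : ℝ) - ε) ≤
        c₀ * (B.card : ℝ) ^ ((k : ℝ) - ε) :=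
      mul_le_mul_of_nonneg_right (min_le_right _ _) (by positivity)
    exact ⟨h6.trans hmain.1, fun hP => h6.trans (hmain.2 hP)⟩
  exact good_mono hBA hgB

end Pool.Agent.U358.LP.R
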