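import Mathlib
import Pool.Agent.R483.GC.Ex
import Pool.Agent.U358.LP.Shift

/-!
# The length of the window cannot be improved
-/

set_option autoImplicit false

namespace Pool.Agent.U358.LP

open Finset Pool.Agent.Y359.PE Pool.Agent.R483.GC
open scoped Classical

lemma card_pk_sub (k : ℕ) (P : Finset ℕ) : (pk k (sub P)).card ≤ (k + 1) ^ P.card := by
  have h1 : pk k (sub P) ⊆
      (Fintype.piFinset fun _ : P => range (k + 1)).image
        fun e => ∏ p : P, ((p : ℕ) : ℤ) ^ (e p) := by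
    intro m hm
    unfold pk at hm
    obtain ⟨a, ha, rfl⟩ := mem_image.1 hm
    rw [Fintype.mem_piFinset] at ha
    have h2 : ∀ i, ∃ I ⊆ P, ((∏ p ∈ I, p : ℕ) : ℤ) = a i := by
      intro i
      obtain ⟨I, hI, h⟩ := mem_image.1 (ha i)
      exact ⟨I, mem_powerset.1 hI, h⟩
    choose I hI hIa using h2
    refine mem_image.2 ⟨fun p => ∑ i : Fin k, if (p : ℕ) ∈ I i then 1 else 0,
      Fintype.mem_piFinset.2 fun p => ?_, ?_⟩
    · rw [mem_range, Nat.lt_succ_iff]
      calc ∑ i : Fin k, (if (p : ℕ) ∈ I i then 1 else 0) ≤ ∑ _i : Fin k, 1 :=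
            sum_le_sum fun i _ => by split_ifs <;> norm_num
        _ = k := by simp
    · have key : ∀ K ⊆ P, ((∏ p ∈ K, p : ℕ) : ℤ) =
          ∏ p : P, ((p : ℕ) : ℤ) ^ (if (p : ℕ) ∈ K then 1 else 0) := by
        intro K hK
        rw [Finset.prod_coe_sort P fun p : ℕ => ((p : ℕ) : ℤ) ^ (if p ∈ K then 1 else 0)]
        push_cast
        rw [← prod_subset hK fun p _ hp => by rw [if_neg hp, pow_zero]]
        exact prod_congr rfl fun p hp => by rw [if_pos hp, pow_one]
      show ∏ p : P, ((p : ℕ) : ℤ) ^ (∑ i : Fin k, if (p : ℕ) ∈ I i then 1 else 0) = ∏ i, a i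
      rw [← prod_congr rfl fun i _ => hIa i, prod_congr rfl fun i _ => key (I i) (hI i),
        prod_comm]
      refine prod_congr rfl fun p _ => ?_
      rw [prod_pow_eq_pow_sum]
  refine (card_le_card h1).trans (card_image_le.trans (le_of_eq ?_))
  rw [Fintype.card_piFinset]
  simp

/-- **The example.** -/
theorem sharp (N : ℕ) : ∃ S : Finset ℤ, N ≤ S.card ∧
    (∀ s ∈ S, 1 ≤ s ∧ (s : ℝ) ≤ len 6 S.card) ∧
    ∀ k : ℕ, ((pk k S).card : ℝ) ≤ (S.card : ℝ) ^ (Real.log (k + 1) / Real.log 2) := by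
  set s := max N 16 with hs
  have hs16 : 16 ≤ s := le_max_right _ _
  have hsr : (16 : ℝ) ≤ s := by exact_mod_cast hs16
  obtain ⟨P, hP, hPc⟩ := exists_subset_card_eq (many_primes s hs16)
  have hPp : ∀ p ∈ P, p.Prime ∧ p ≤ s ^ 2 := by
    intro p hp
    have := hP hp
    rw [Nat.mem_primesLE] at this
    exact ⟨this.2, this.1⟩
  have hc := card_sub P fun p hp => (hPp p hp).1
  rw [hPc] at hc
  refine ⟨sub P, ?_, ?_, ?_⟩
  · rw [hc]
    exact (le_max_left N 16).trans (Nat.lt_two_pow_self).le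
  · intro a ha
    obtain ⟨I, hI, rfl⟩ := mem_image.1 ha
    rw [mem_powerset] at hI
    constructor
    · have h1 : 1 ≤ ∏ p ∈ I, p := Nat.one_le_iff_ne_zero.2
        (prod_ne_zero_iff.2 fun p hp => (hPp p (hI hp)).1.ne_zero)
      exact_mod_cast h1
    have h2 : ∏ p ∈ I, p ≤ (s ^ 2) ^ s := by
      calc ∏ p ∈ I, p ≤ ∏ p ∈ P, p :=
            prod_le_prod_of_subset_of_one_le' hI fun p hp _ => (hPp p hp).1.one_le
        _ ≤ ∏ _p ∈ P, s ^ 2 := prod_le_prod' fun p hp => (hPp p hp).2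
        _ = (s ^ 2) ^ s := by rw [prod_const, hPc]
    have h3 : ((((∏ p ∈ I, p : ℕ) : ℤ)) : ℝ) ≤ ((s : ℝ) ^ 2) ^ s := by
      rw [Int.cast_natCast]
      exact_mod_cast h2
    refine h3.trans ?_
    unfold len
    rw [hc]
    have hlogS : Real.log ((2 ^ s : ℕ) : ℝ) = s * Real.log 2 := by
      push_cast
      rw [Real.log_pow]
    rw [hlogS]
    have hs0 : (0 : ℝ) < s := by linarith
    have hlog2 := Real.log_two_gt_d9
    have h5 : Real.log s / 2 ≤ Real.log (s * Real.log 2) := by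
      rw [← Real.log_sqrt hs0.le]
      refine Real.log_le_log (Real.sqrt_pos.2 hs0) ?_
      have h6 : 4 ≤ Real.sqrt s := by
        rw [show (4 : ℝ) = Real.sqrt 16 by
          rw [show (16 : ℝ) = 4 ^ 2 by norm_num, Real.sqrt_sq (by norm_num)]]
        exact Real.sqrt_le_sqrt hsr
      have h7 := Real.sq_sqrt hs0.le
      nlinarith
    have h6 : 0 ≤ Real.log s := Real.log_nonneg (by linarith)
    rw [Real.rpow_def_of_pos (by positivity), hlogS, ← pow_mul, ← Real.exp_log hs0,
      ← Real.exp_nat_mul, Real.exp_log hs0]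
    refine Real.exp_le_exp.2 ?_
    push_cast
    have h7 : 6 * Real.log 2 * (Real.log s / 2) ≤ 6 * Real.log 2 * Real.log (s * Real.log 2) :=
      mul_le_mul_of_nonneg_left h5 (by positivity)
    have h8 : 2 * Real.log s ≤ 6 * Real.log 2 * (Real.log s / 2) := by nlinarith
    have h9 := mul_le_mul_of_nonneg_left (h8.trans h7) hs0.le
    linarith
  · intro k
    have h1 := card_pk_sub k P
    rw [hPc] at h1
    have h2 : ((pk k (sub P)).card : ℝ) ≤ ((k : ℝ) + 1) ^ s := by exact_mod_cast h1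
    refine h2.trans (le_of_eq ?_)
    rw [hc]
    have hlog2 := Real.log_two_gt_d9
    push_cast
    rw [Real.rpow_def_of_pos (by positivity), Real.log_pow, ← Real.rpow_natCast,
      Real.rpow_def_of_pos (by positivity)]
    congr 1
    field_simp

end Pool.Agent.U358.LP
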