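import Mathlib
import Pool.Agent.U358.LP.Shift

/-!
# Close pairs; products with arbitrary sets
-/

set_option autoImplicit false

namespace Pool.Agent.U358.LP

open Finset Polynomial Pool.Agent.Y359.PE Pool.Agent.R849.SV Pool.Agent.R849.RF
open scoped Classical

lemma pairs_of_bound {n : ℕ} {W : ℝ} (X : Finset ℤ) {u : ℝ}
    (hu : ∀ Y ⊆ X, ((near n W Y).card : ℝ) ≤ u) :
    ((pairs W X).card : ℝ) ≤ n * X.card + 2 * (n + 1) * u ^ 2 := by
  have hu0 : 0 ≤ u := le_trans (Nat.cast_nonneg _) (hu X Subset.rfl)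
  rcases (near n W X).eq_empty_or_nonempty with he | hne
  · have h1 := pairs_le (n := n) (W := W) X (m := 0) (by rw [he]; simp)
    rw [he, card_empty, zero_mul, add_zero] at h1
    have h2 : ((pairs W X).card : ℝ) ≤ n * X.card := by exact_mod_cast h1
    have : 0 ≤ 2 * ((n : ℝ) + 1) * u ^ 2 := by positivity
    linarith
  have hu1 : 1 ≤ u := by
    refine le_trans ?_ (hu X Subset.rfl)
    exact_mod_cast hne.card_pos
  have h1 := pairs_le (n := n) (W := W) X (m := ⌊2 * ((n : ℝ) + 1) * u⌋₊) (by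
    intro x hx
    refine Nat.le_floor ?_
    obtain ⟨Y, hYX, hY1, hY2⟩ := near_half (n := n) (W := W) X x
    have h2 : ((X.filter fun y => ((|y - x| : ℤ) : ℝ) ≤ W).card : ℝ) ≤ 2 * Y.card := by
      exact_mod_cast hY1
    refine h2.trans ?_
    have h3 : (Y.card : ℝ) ≤ (n + 1) * u := by
      rcases le_or_gt n Y.card with h | h
      · have h4 := hu Y hYX
        rw [hY2 h] at h4
        have : 0 ≤ (n : ℝ) * u := by positivity
        linarith
      · have h4 : (Y.card : ℝ) ≤ n := by exact_mod_cast h.le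
        nlinarith
    linarith)
  have h2 : ((pairs W X).card : ℝ) ≤ n * X.card +
      (near n W X).card * (⌊2 * ((n : ℝ) + 1) * u⌋₊ : ℝ) := by exact_mod_cast h1
  have h3 : (⌊2 * ((n : ℝ) + 1) * u⌋₊ : ℝ) ≤ 2 * ((n : ℝ) + 1) * u :=
    Nat.floor_le (by positivity)
  have h4 : ((near n W X).card : ℝ) * (⌊2 * ((n : ℝ) + 1) * u⌋₊ : ℝ) ≤
      u * (2 * ((n : ℝ) + 1) * u) :=
    mul_le_mul (hu X Subset.rfl) h3 (Nat.cast_nonneg _) hu0
  calc ((pairs W X).card : ℝ) ≤ n * X.card + u * (2 * ((n : ℝ) + 1) * u) := by linarith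
    _ = _ := by ring

lemma vals_mono (f : ℤ[X]) {Y Z : Finset ℤ} (h : Y ⊆ Z) : vals f Y ⊆ vals f Z :=
  erase_subset_erase _ (image_subset_image h)

/-- **Close pairs, iterated products.** -/
theorem kpairs (k : ℕ) (hk : 1 ≤ k) (d : ℕ) (ε : ℝ) (hε : 0 < ε) :
    ∃ n : ℕ, ∃ η C : ℝ, 0 < η ∧ 0 < C ∧ ∀ f : ℤ[X], 1 ≤ f.natDegree → f.natDegree ≤ d →
      ∀ Z : Finset ℤ, ((pairs (len η Z.card) Z).card : ℝ) ≤ n * Z.card +
        C * (Z.card : ℝ) ^ ε * ((pk k (vals f Z)).card : ℝ) ^ (2 / (k : ℝ)) := by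
  have hkr : (1 : ℝ) ≤ k := by exact_mod_cast hk
  have hk0 : (0 : ℝ) < k := by linarith
  obtain ⟨n, η, c, hη, hc, h⟩ := clusters k hk d (ε * k / 2) (by positivity)
  refine ⟨n, η, 2 * (n + 1) * (1 / c) ^ (2 / (k : ℝ)), hη, by positivity, fun f hf hfd Z => ?_⟩
  rcases Z.eq_empty_or_nonempty with rfl | hZ
  · have : pairs (len η (∅ : Finset ℤ).card) ∅ = ∅ := by
      unfold pairs
      simp
    rw [this, card_empty, Nat.cast_zero]
    positivity
  have hZ0 : (0 : ℝ) < Z.card := by exact_mod_cast hZ.card_pos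
  obtain ⟨q, hq⟩ : ∃ q : ℝ, q = ((pk k (vals f Z)).card : ℝ) := ⟨_, rfl⟩
  have hq0 : 0 ≤ q := by rw [hq]; exact Nat.cast_nonneg _
  rw [← hq]
  have h1 := pairs_of_bound (n := n) (W := len η Z.card) Z
    (u := ((1 / c) * (Z.card : ℝ) ^ (ε * k / 2) * q) ^ (1 / (k : ℝ))) (by
      intro Y hY
      have h2 := h f hf hfd Z.card Y (card_le_card hY)
      have h3 : ((pk k (vals f Y)).card : ℝ) ≤ q := by
        rw [hq]
        exact_mod_cast card_le_card (pk_mono (vals_mono f hY))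
      have h4 := h2.trans h3
      rw [Real.rpow_neg hZ0.le] at h4
      have h5 : ((near n (len η Z.card) Y).card : ℝ) ^ k ≤
          (1 / c) * (Z.card : ℝ) ^ (ε * k / 2) * q := by
        have e1 : (0 : ℝ) < (Z.card : ℝ) ^ (ε * k / 2) := by positivity
        rw [one_div, mul_assoc, ← div_eq_inv_mul, le_div_iff₀ hc]
        have e2 : c * ((near n (len η Z.card) Y).card : ℝ) ^ k / (Z.card : ℝ) ^ (ε * k / 2) ≤
            q := by
          refine le_trans (le_of_eq ?_) h4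
          field_simp
        rw [div_le_iff₀ e1] at e2
        linarith
      calc ((near n (len η Z.card) Y).card : ℝ) =
          (((near n (len η Z.card) Y).card : ℝ) ^ k) ^ (1 / (k : ℝ)) := by
            rw [← Real.rpow_natCast, ← Real.rpow_mul (Nat.cast_nonneg _), mul_one_div,
              div_self hk0.ne', Real.rpow_one]
        _ ≤ _ := Real.rpow_le_rpow (by positivity) h5 (by positivity))
  refine h1.trans (add_le_add le_rfl (le_of_eq ?_))
  have e0 : (0 : ℝ) ≤ 1 / c * (Z.card : ℝ) ^ (ε * k / 2) := by positivity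
  have e1 : (((1 / c) * (Z.card : ℝ) ^ (ε * k / 2) * q) ^ (1 / (k : ℝ))) ^ 2 =
      (1 / c) ^ (2 / (k : ℝ)) * (Z.card : ℝ) ^ ε * q ^ (2 / (k : ℝ)) := by
    rw [← Real.rpow_natCast (((1 / c) * (Z.card : ℝ) ^ (ε * k / 2) * q) ^ (1 / (k : ℝ))) 2,
      ← Real.rpow_mul (by positivity)]
    have e2 : 1 / (k : ℝ) * ((2 : ℕ) : ℝ) = 2 / k := by
      push_cast
      ring
    rw [e2, Real.mul_rpow e0 hq0, Real.mul_rpow (by positivity) (by positivity),
      ← Real.rpow_mul hZ0.le]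
    congr 3
    field_simp
  rw [e1]
  ring

/-- **Products with an arbitrary set.** -/
theorem arbNear (d : ℕ) (ε : ℝ) (hε : 0 < ε) :
    ∃ n : ℕ, ∃ η c : ℝ, 0 < η ∧ 0 < c ∧ ∀ f : ℤ[X], 1 ≤ f.natDegree → f.natDegree ≤ d →
      ∀ (N : ℕ) (Z : Finset ℤ), Z.card ≤ N → ∀ A : Finset ℂ, A.Nonempty → (0 : ℂ) ∉ A →
      c * ((A.card : ℝ) * N) ^ (-ε) * (A.card * (near n (len η N) Z).card) ≤
        (AB A (vals f Z)).card := by
  set k : ℕ := ⌈1 / ε⌉₊ with hk
  have hk1 : 1 ≤ k := Nat.one_le_ceil_iff.2 (by positivity)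
  have hkr : (1 : ℝ) ≤ k := by exact_mod_cast hk1
  have hk0 : (0 : ℝ) < k := by linarith
  have hkε : 1 ≤ ε * k := by
    have := Nat.le_ceil (1 / ε)
    rw [← hk, div_le_iff₀ hε] at this
    linarith
  obtain ⟨n, η, c, hη, hc, h⟩ := clusters k hk1 d (ε * k) (by positivity)
  refine ⟨n, η, (c / 2) ^ (1 / (k : ℝ)), hη, by positivity, fun f hf hfd N Z hZ A hA h0 => ?_⟩
  have h1 := h f hf hfd N Z hZ
  rcases (near n (len η N) Z).eq_empty_or_nonempty with he | hne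
  · rw [he, card_empty, Nat.cast_zero, mul_zero, mul_zero]
    exact Nat.cast_nonneg _
  obtain ⟨b, hb⟩ : ∃ b : ℝ, b = ((near n (len η N) Z).card : ℝ) := ⟨_, rfl⟩
  rw [← hb] at h1 ⊢
  have hb1 : 1 ≤ b := by
    rw [hb]
    exact_mod_cast hne.card_pos
  have hN1 : (1 : ℝ) ≤ N := by
    have h2 : (near n (len η N) Z).card ≤ Z.card := card_le_card (filter_subset _ _)
    have h3 := hne.card_pos
    exact_mod_cast (by omega : 1 ≤ N)
  have ha1 : (1 : ℝ) ≤ A.card := by exact_mod_cast hA.card_pos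
  have hv : (vals f Z).Nonempty := by
    have h2 : (0 : ℝ) < (pk k (vals f Z)).card := lt_of_lt_of_le (by positivity) h1
    have h3 : (pk k (vals f Z)).Nonempty := card_pos.1 (by exact_mod_cast h2)
    obtain ⟨y, hy⟩ := h3
    unfold pk at hy
    obtain ⟨g, hg, -⟩ := mem_image.1 hy
    rw [Fintype.mem_piFinset] at hg
    exact ⟨_, hg ⟨0, hk1⟩⟩
  have h2 := plun_zero A hA h0 (vals f Z) (exists_ne_zero hv (notMem_erase _ _)) k
  obtain ⟨x, hx⟩ : ∃ x : ℝ, x = ((AB A (vals f Z)).card : ℝ) := ⟨_, rfl⟩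
  have hx0 : 0 ≤ x := by rw [hx]; exact Nat.cast_nonneg _
  obtain ⟨a, ha⟩ : ∃ a : ℝ, a = (A.card : ℝ) := ⟨_, rfl⟩
  obtain ⟨M, hM⟩ : ∃ M : ℝ, M = (N : ℝ) := ⟨_, rfl⟩
  rw [← hx, ← ha] at h2 ⊢
  rw [← ha] at ha1
  rw [← hM] at h1 hN1 ⊢
  have ha0 : 0 < a := by linarith
  have hM0 : 0 < M := by linarith
  have h3 : c / 2 * M ^ (-(ε * k)) * b ^ k * a ^ k ≤ x ^ k * a := by
    have h4 := mul_le_mul_of_nonneg_right h1 (show 0 ≤ a ^ k by positivity)
    have h5 := h4.trans h2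
    linarith
  have h4 : ((c / 2) ^ (1 / (k : ℝ)) * (a * M) ^ (-ε) * (a * b)) ^ k ≤ x ^ k := by
    have e1 : ((c / 2) ^ (1 / (k : ℝ))) ^ k = c / 2 := by
      rw [← Real.rpow_natCast, ← Real.rpow_mul (by positivity), one_div, inv_mul_cancel₀ hk0.ne',
        Real.rpow_one]
    have e2 : ((a * M) ^ (-ε)) ^ k = a ^ (-(ε * k)) * M ^ (-(ε * k)) := by
      rw [← Real.rpow_natCast, ← Real.rpow_mul (by positivity),
        Real.mul_rpow ha0.le hM0.le]
      congr 2 <;> ring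
    rw [mul_pow, mul_pow, e1, e2, mul_pow]
    have e3 : a ^ (-(ε * k)) ≤ a⁻¹ := by
      rw [← Real.rpow_neg_one]
      exact Real.rpow_le_rpow_of_exponent_le ha1 (by linarith)
    have e4 : c / 2 * M ^ (-(ε * k)) * b ^ k * a ^ k * a⁻¹ ≤ x ^ k := by
      rw [← div_eq_mul_inv, div_le_iff₀ ha0]
      exact h3
    refine le_trans ?_ e4
    have e5 : 0 ≤ c / 2 * M ^ (-(ε * k)) * b ^ k * a ^ k := by positivity
    calc c / 2 * (a ^ (-(ε * k)) * M ^ (-(ε * k))) * (a ^ k * b ^ k)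
        = c / 2 * M ^ (-(ε * k)) * b ^ k * a ^ k * a ^ (-(ε * k)) := by ring
      _ ≤ _ := mul_le_mul_of_nonneg_left e3 e5
  exact le_of_pow_le_pow_left₀ (by omega) hx0 h4

/-- **Close pairs, products with an arbitrary set.** -/
theorem arbPairs (d : ℕ) (ε : ℝ) (hε : 0 < ε) :
    ∃ n : ℕ, ∃ η C : ℝ, 0 < η ∧ 0 < C ∧ ∀ f : ℤ[X], 1 ≤ f.natDegree → f.natDegree ≤ d →
      ∀ (Z : Finset ℤ) (A : Finset ℂ), A.Nonempty → (0 : ℂ) ∉ A →
      ((pairs (len η Z.card) Z).card : ℝ) ≤ n * Z.card +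
        C * ((A.card : ℝ) * Z.card) ^ ε * (((AB A (vals f Z)).card : ℝ) / A.card) ^ 2 := by
  obtain ⟨n, η, c, hη, hc, h⟩ := arbNear d (ε / 2) (by positivity)
  refine ⟨n, η, 2 * (n + 1) * (1 / c) ^ 2, hη, by positivity, fun f hf hfd Z A hA h0 => ?_⟩
  rcases Z.eq_empty_or_nonempty with rfl | hZ
  · have : pairs (len η (∅ : Finset ℤ).card) ∅ = ∅ := by
      unfold pairs
      simp
    rw [this, card_empty, Nat.cast_zero]
    positivity
  have hZ0 : (0 : ℝ) < Z.card := by exact_mod_cast hZ.card_pos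
  have hA0 : (0 : ℝ) < A.card := by exact_mod_cast hA.card_pos
  obtain ⟨q, hq⟩ : ∃ q : ℝ, q = ((AB A (vals f Z)).card : ℝ) := ⟨_, rfl⟩
  have hq0 : 0 ≤ q := by rw [hq]; exact Nat.cast_nonneg _
  rw [← hq]
  have e1 : (0 : ℝ) < ((A.card : ℝ) * Z.card) ^ (ε / 2) := by positivity
  have h1 := pairs_of_bound (n := n) (W := len η Z.card) Z
    (u := (1 / c) * ((A.card : ℝ) * Z.card) ^ (ε / 2) * (q / A.card)) (by
      intro Y hY
      have h2 := h f hf hfd Z.card Y (card_le_card hY) A hA h0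
      have h3 : ((AB A (vals f Y)).card : ℝ) ≤ q := by
        rw [hq]
        have : AB A (vals f Y) ⊆ AB A (vals f Z) :=
          image_subset_image (product_subset_product_right (vals_mono f hY))
        exact_mod_cast card_le_card this
      have h4 := h2.trans h3
      rw [Real.rpow_neg (by positivity)] at h4
      have h5 : c * (A.card * (near n (len η Z.card) Y).card) / ((A.card : ℝ) * Z.card) ^ (ε / 2) ≤
          q := by
        refine le_trans (le_of_eq ?_) h4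
        field_simp
      rw [div_le_iff₀ e1] at h5
      rw [one_div, mul_assoc, ← div_eq_inv_mul, le_div_iff₀ hc, ← mul_div_assoc,
        le_div_iff₀ hA0]
      linarith)
  refine h1.trans (add_le_add le_rfl (le_of_eq ?_))
  have e2 : (((A.card : ℝ) * Z.card) ^ (ε / 2)) ^ 2 = ((A.card : ℝ) * Z.card) ^ ε := by
    rw [← Real.rpow_natCast, ← Real.rpow_mul (by positivity)]
    congr 1
    push_cast
    ring
  calc 2 * ((n : ℝ) + 1) * ((1 / c) * ((A.card : ℝ) * Z.card) ^ (ε / 2) * (q / A.card)) ^ 2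
      = 2 * ((n : ℝ) + 1) * (1 / c) ^ 2 * (((A.card : ℝ) * Z.card) ^ (ε / 2)) ^ 2 *
        (q / A.card) ^ 2 := by ring
    _ = _ := by rw [e2]

end Pool.Agent.U358.LP
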