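import Mathlib
import Pool.Agent.U358.LP.Pairs

/-!
# Bad shifts
-/

set_option autoImplicit false

namespace Pool.Agent.U358.LP

open Finset Polynomial Pool.Agent.Y359.PE Pool.Agent.R849.SV Pool.Agent.R849.RF
open scoped Classical

/-- the products `a f(s + t)` -/
noncomputable def shP (f : ℤ[X]) (A : Finset ℂ) (S : Finset ℤ) (t : ℤ) : Finset ℂ :=
  (A ×ˢ S).image fun s => s.1 * ((f.eval (s.2 + t) : ℤ) : ℂ)

/-- **Bad shifts.** -/
theorem badShifts (d : ℕ) (ε : ℝ) (hε : 0 < ε) :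
    ∃ n : ℕ, ∃ η c : ℝ, 0 < η ∧ 0 < c ∧ ∀ f : ℤ[X], 1 ≤ f.natDegree → f.natDegree ≤ d →
      ∀ (S T : Finset ℤ) (A : Finset ℂ), S.Nonempty → A.Nonempty → (0 : ℂ) ∉ A → n ≤ T.card →
      (∀ x ∈ T, ∀ y ∈ T, ((|x - y| : ℤ) : ℝ) ≤ len η S.card) →
      ∃ t ∈ T, c * ((A.card : ℝ) * S.card) ^ (1 - ε) ≤ (shP f A S t).card := by
  obtain ⟨n, η, c, hη, hc, h⟩ := arbNear d ε hε
  refine ⟨n + d + 1, η, min (1 / 2) (c / ((n + d + 1 : ℕ) : ℝ) ^ (1 + ε)), hη, by positivity, ?_⟩
  intro f hf hfd S T A hS hA h0 hT hTW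
  have hS1 : (1 : ℝ) ≤ S.card := by exact_mod_cast hS.card_pos
  have hS0 : (0 : ℝ) < S.card := by linarith
  have hA1 : (1 : ℝ) ≤ A.card := by exact_mod_cast hA.card_pos
  have hA0 : (0 : ℝ) < A.card := by linarith
  have hf0 : f ≠ 0 := by
    rintro rfl
    simp at hf
  rcases Nat.lt_or_ge S.card 3 with hS3 | hS3
  · obtain ⟨s0, hs0⟩ := hS
    -- some shift is not a zero
    obtain ⟨t0, ht0, hz⟩ : ∃ t ∈ T, f.eval (s0 + t) ≠ 0 := by
      by_contra hcon
      push Not at hcon
      have h1 : T.image (fun t => s0 + t) ⊆ f.roots.toFinset := by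
        intro y hy
        obtain ⟨t, ht, rfl⟩ := mem_image.1 hy
        rw [Multiset.mem_toFinset, mem_roots hf0]
        exact hcon t ht
      have h2 := card_le_card h1
      rw [card_image_of_injective T (add_right_injective s0)] at h2
      have h3 := Multiset.toFinset_card_le f.roots
      have h4 := card_roots' f
      omega
    refine ⟨t0, ht0, ?_⟩
    have h1 : A.card ≤ (shP f A S t0).card := by
      have hinj : Function.Injective fun a : ℂ => a * ((f.eval (s0 + t0) : ℤ) : ℂ) := by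
        intro a b hab
        exact mul_right_cancel₀ (by exact_mod_cast hz) hab
      rw [← card_image_of_injective A hinj]
      refine card_le_card ?_
      intro y hy
      obtain ⟨a, ha, rfl⟩ := mem_image.1 hy
      exact mem_image.2 ⟨(a, s0), mem_product.2 ⟨ha, hs0⟩, rfl⟩
    have h1' : (A.card : ℝ) ≤ (shP f A S t0).card := by exact_mod_cast h1
    refine le_trans ?_ h1'
    have h2 : ((A.card : ℝ) * S.card) ^ (1 - ε) ≤ 2 * A.card := by
      calc ((A.card : ℝ) * S.card) ^ (1 - ε) ≤ ((A.card : ℝ) * S.card) ^ (1 : ℝ) :=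
            Real.rpow_le_rpow_of_exponent_le (one_le_mul_of_one_le_of_one_le hA1 hS1)
              (by linarith)
        _ = (A.card : ℝ) * S.card := Real.rpow_one _
        _ ≤ A.card * 2 := by
            refine mul_le_mul_of_nonneg_left ?_ hA0.le
            exact_mod_cast Nat.lt_succ_iff.1 hS3
        _ = 2 * A.card := mul_comm _ _
    calc _ ≤ 1 / 2 * (2 * (A.card : ℝ)) :=
          mul_le_mul (min_le_left _ _) h2 (by positivity) (by norm_num)
      _ = A.card := by ring
  obtain ⟨T', hT'T, hT'c⟩ := exists_subset_card_eq hT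
  obtain ⟨m, hm⟩ : ∃ m : ℕ, m = n + d + 1 := ⟨_, rfl⟩
  rw [← hm] at hT'c ⊢
  have hm1 : 1 ≤ m := by omega
  have hmr : (0 : ℝ) < m := by exact_mod_cast hm1
  set Y := (S ×ˢ T').image fun s => s.1 + s.2 with hY
  have hSY : S.card ≤ Y.card := by
    obtain ⟨t0, ht0⟩ : T'.Nonempty := card_pos.1 (by omega)
    rw [← card_image_of_injective S (add_left_injective t0)]
    refine card_le_card ?_
    intro y hy
    obtain ⟨s, hs, rfl⟩ := mem_image.1 hy
    exact mem_image.2 ⟨(s, t0), mem_product.2 ⟨hs, ht0⟩, rfl⟩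
  have hYS : Y.card ≤ m * S.card := by
    refine card_image_le.trans ?_
    rw [card_product, hT'c, mul_comm]
  have hlen : len η S.card ≤ len η Y.card := len_mono hη.le hS3 hSY
  have hnear : near n (len η Y.card) Y = Y :=
    near_shift S T' (by omega) fun x hx y hy => (hTW x (hT'T hx) y (hT'T hy)).trans hlen
  have h1 := h f hf hfd Y.card Y le_rfl A hA h0
  rw [hnear] at h1
  have hY0 : (0 : ℝ) < Y.card := by
    have : (S.card : ℝ) ≤ Y.card := by exact_mod_cast hSY
    linarith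
  have hP : 0 < (AB A (vals f Y)).card := by
    have : (0 : ℝ) < (AB A (vals f Y)).card := lt_of_lt_of_le (by positivity) h1
    exact_mod_cast this
  obtain ⟨t, ht, h2⟩ := pigeon (AB A (vals f Y)) T' (fun t => shP f A S t) (by
    intro y hy
    unfold AB at hy
    obtain ⟨⟨a, v⟩, hav, rfl⟩ := mem_image.1 hy
    rw [mem_product] at hav
    have h3 : v ∈ vals f Y := hav.2
    unfold vals at h3
    rw [mem_erase, mem_image] at h3
    obtain ⟨-, x, hx, hxv⟩ := h3
    obtain ⟨⟨s, t⟩, hst, rfl⟩ := mem_image.1 hx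
    rw [mem_product] at hst
    refine mem_biUnion.2 ⟨t, hst.2, mem_image.2 ⟨(a, s), mem_product.2 ⟨hav.1, hst.1⟩, ?_⟩⟩
    show a * ((f.eval (s + t) : ℤ) : ℂ) = a * (v : ℂ)
    rw [← hxv]) (card_pos.1 hP)
  refine ⟨t, hT'T ht, ?_⟩
  rw [hT'c] at h2
  obtain ⟨q, hq⟩ : ∃ q : ℝ, q = ((shP f A S t).card : ℝ) := ⟨_, rfl⟩
  rw [← hq]
  have h4 : ((AB A (vals f Y)).card : ℝ) ≤ m * q := by
    rw [hq]
    exact_mod_cast h2
  have h5 := h1.trans h4
  have h6 : ((A.card : ℝ) * (m * S.card)) ^ (-ε) ≤ ((A.card : ℝ) * Y.card) ^ (-ε) := by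
    refine Real.rpow_le_rpow_of_nonpos (by positivity) ?_ (by linarith)
    refine mul_le_mul_of_nonneg_left ?_ hA0.le
    exact_mod_cast hYS
  have h7 : (A.card : ℝ) * S.card ≤ A.card * Y.card :=
    mul_le_mul_of_nonneg_left (by exact_mod_cast hSY) hA0.le
  have h8 : c * ((A.card : ℝ) * (m * S.card)) ^ (-ε) * (A.card * S.card) ≤ m * q := by
    refine le_trans ?_ h5
    exact mul_le_mul (mul_le_mul_of_nonneg_left h6 hc.le) h7 (by positivity) (by positivity)
  have h9 : c / (m : ℝ) ^ (1 + ε) * ((A.card : ℝ) * S.card) ^ (1 - ε) ≤ q := by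
    obtain ⟨z, hz⟩ : ∃ z : ℝ, z = (A.card : ℝ) * S.card := ⟨_, rfl⟩
    have hz0 : 0 < z := by rw [hz]; positivity
    have e0 : (A.card : ℝ) * (m * S.card) = m * z := by rw [hz]; ring
    rw [e0, ← hz, Real.mul_rpow hmr.le hz0.le, Real.rpow_neg hmr.le] at h8
    rw [← hz]
    have e1 : (m : ℝ) ^ (1 + ε) = m * (m : ℝ) ^ ε := by
      rw [Real.rpow_add hmr, Real.rpow_one]
    have e2 : z ^ (1 - ε) = z * z ^ (-ε) := by
      rw [sub_eq_add_neg, Real.rpow_add hz0, Real.rpow_one]
    have e3 : (0 : ℝ) < (m : ℝ) ^ ε := by positivity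
    rw [e1, e2, div_mul_eq_mul_div, div_le_iff₀ (by positivity)]
    have h10 : c * z ^ (-ε) * z / (m : ℝ) ^ ε ≤ m * q := by
      refine le_trans (le_of_eq ?_) h8
      field_simp
    rw [div_le_iff₀ e3] at h10
    linarith
  exact le_trans (mul_le_mul_of_nonneg_right (min_le_right _ _) (by positivity)) h9

/-- **The products of a set with its shifts.** -/
theorem selfShifts (d : ℕ) (ε : ℝ) (hε : 0 < ε) :
    ∃ n : ℕ, ∃ η c : ℝ, 0 < η ∧ 0 < c ∧ ∀ f : ℤ[X], 1 ≤ f.natDegree → f.natDegree ≤ d →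
      ∀ S T : Finset ℤ, S.Nonempty →
      (∀ x ∈ T, ∀ y ∈ T, ((|x - y| : ℤ) : ℝ) ≤ len η S.card) →
      (∀ t ∈ T, (((S ×ˢ S).image fun s => s.1 * f.eval (s.2 + t)).card : ℝ) <
        c * (S.card : ℝ) ^ (2 - ε)) → T.card < n := by
  obtain ⟨n, η, c, hη, hc, h⟩ := badShifts d (ε / 2) (by positivity)
  refine ⟨n, η, min 1 (c / 2), hη, by positivity, fun f hf hfd S T hS hTW hT => ?_⟩
  by_contra hn
  push Not at hn
  have hS1 : (1 : ℝ) ≤ S.card := by exact_mod_cast hS.card_pos
  have hS0 : (0 : ℝ) < S.card := by linarith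
  rcases Nat.lt_or_ge S.card 2 with h2 | h2
  · -- one element
    obtain ⟨s0, hs0⟩ := hS
    have hS1' : S.card = 1 := by
      have := card_pos.2 ⟨s0, hs0⟩
      omega
    obtain ⟨t0, ht0, -⟩ := h f hf hfd S T {1} ⟨s0, hs0⟩ (singleton_nonempty _) (by simp) hn hTW
    have h3 := hT t0 ht0
    have h4 : 0 < ((S ×ˢ S).image fun s => s.1 * f.eval (s.2 + t0)).card :=
      card_pos.2 ⟨_, mem_image.2 ⟨(s0, s0), mem_product.2 ⟨hs0, hs0⟩, rfl⟩⟩
    have h5 : (1 : ℝ) ≤ ((S ×ˢ S).image fun s => s.1 * f.eval (s.2 + t0)).card := by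
      exact_mod_cast h4
    rw [hS1', Nat.cast_one, Real.one_rpow, mul_one] at h3
    have := min_le_left 1 (c / 2)
    linarith
  · set A : Finset ℂ := (S.erase 0).image fun x : ℤ => (x : ℂ) with hA
    have hinj : Function.Injective fun x : ℤ => (x : ℂ) := Int.cast_injective
    have hAc : A.card = (S.erase 0).card := card_image_of_injective _ hinj
    have hc1 : S.card ≤ 2 * A.card := by
      rw [hAc]
      have := pred_card_le_card_erase (s := S) (a := (0 : ℤ))
      omega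
    have hAn : A.Nonempty := card_pos.1 (by omega)
    have h0 : (0 : ℂ) ∉ A := by
      intro hcon
      obtain ⟨x, hx, hx0⟩ := mem_image.1 hcon
      have : x = 0 := by exact_mod_cast hx0
      exact (ne_of_mem_erase hx) this
    obtain ⟨t, ht, h3⟩ := h f hf hfd S T A hS hAn h0 hn hTW
    have h4 := hT t ht
    have h5 : (shP f A S t).card ≤ ((S ×ˢ S).image fun s => s.1 * f.eval (s.2 + t)).card := by
      rw [← card_image_of_injective ((S ×ˢ S).image fun s => s.1 * f.eval (s.2 + t)) hinj]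
      refine card_le_card ?_
      intro y hy
      unfold shP at hy
      obtain ⟨⟨a, s⟩, has, rfl⟩ := mem_image.1 hy
      rw [mem_product] at has
      obtain ⟨x, hx, hxa⟩ := mem_image.1 has.1
      have hxa' : (x : ℂ) = a := hxa
      refine mem_image.2 ⟨x * f.eval (s + t), mem_image.2 ⟨(x, s),
        mem_product.2 ⟨erase_subset _ _ hx, has.2⟩, rfl⟩, ?_⟩
      show ((x * f.eval (s + t) : ℤ) : ℂ) = a * ((f.eval (s + t) : ℤ) : ℂ)
      rw [Int.cast_mul, hxa']
    have h5' : ((shP f A S t).card : ℝ) ≤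
        ((S ×ˢ S).image fun s => s.1 * f.eval (s.2 + t)).card := by exact_mod_cast h5
    have hlt := lt_of_le_of_lt (h3.trans h5') h4
    refine absurd hlt (not_lt.2 ?_)
    have hA2 : (S.card : ℝ) / 2 ≤ A.card := by
      have : (S.card : ℝ) ≤ 2 * A.card := by exact_mod_cast hc1
      linarith
    have hAS : (A.card : ℝ) ≤ S.card := by
      rw [hAc]
      exact_mod_cast card_erase_le
    have hA0 : (0 : ℝ) < A.card := by linarith
    refine le_trans (mul_le_mul_of_nonneg_right (min_le_right _ _) (by positivity)) ?_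
    have key : (S.card : ℝ) ^ (2 - ε) ≤ 2 * ((A.card : ℝ) * S.card) ^ (1 - ε / 2) := by
      have e1 : (S.card : ℝ) ^ (2 - ε) = ((S.card : ℝ) * S.card) ^ (1 - ε / 2) := by
        rw [← sq, ← Real.rpow_natCast, ← Real.rpow_mul hS0.le]
        congr 1
        push_cast
        ring
      rw [e1]
      rcases le_or_gt 0 (1 - ε / 2) with h6 | h6
      · have e2 : ((S.card : ℝ) * S.card) ^ (1 - ε / 2) ≤
            (2 * ((A.card : ℝ) * S.card)) ^ (1 - ε / 2) := by
          refine Real.rpow_le_rpow (by positivity) ?_ h6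
          nlinarith
        refine e2.trans ?_
        rw [Real.mul_rpow (by norm_num) (by positivity)]
        refine mul_le_mul_of_nonneg_right ?_ (by positivity)
        calc (2 : ℝ) ^ (1 - ε / 2) ≤ (2 : ℝ) ^ (1 : ℝ) :=
              Real.rpow_le_rpow_of_exponent_le (by norm_num) (by linarith)
          _ = 2 := Real.rpow_one _
      · have e2 : ((S.card : ℝ) * S.card) ^ (1 - ε / 2) ≤
            ((A.card : ℝ) * S.card) ^ (1 - ε / 2) := by
          refine Real.rpow_le_rpow_of_nonpos (by positivity) ?_ h6.le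
          exact mul_le_mul_of_nonneg_right hAS hS0.le
        have e3 : 0 ≤ ((A.card : ℝ) * S.card) ^ (1 - ε / 2) := by positivity
        linarith
    calc c / 2 * (S.card : ℝ) ^ (2 - ε) ≤ c / 2 * (2 * ((A.card : ℝ) * S.card) ^ (1 - ε / 2)) :=
          mul_le_mul_of_nonneg_left key (by positivity)
      _ = c * ((A.card : ℝ) * S.card) ^ (1 - ε / 2) := by ring

end Pool.Agent.U358.LP
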