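import Mathlib
import Pool.Agent.U358.LP.Bad
import Pool.Agent.U358.LP.Sharp

/-!
# Close pairs and the product set of the set itself; examples
-/

set_option autoImplicit false

namespace Pool.Agent.U358.LP

open Finset Polynomial Pool.Agent.Y359.PE Pool.Agent.R849.SV Pool.Agent.R849.RF
open scoped Classical

/-- the set of the products of two elements -/
noncomputable def XX (Z : Finset ℤ) : Finset ℤ := (Z ×ˢ Z).image fun s => s.1 * s.2

lemma vals_X (Z : Finset ℤ) : vals (Polynomial.X : ℤ[X]) Z = Z.erase 0 := by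
  unfold vals
  simp

lemma self_le (Z : Finset ℤ) (hZ : 2 ≤ Z.card) :
    ∃ A : Finset ℂ, A.Nonempty ∧ (0 : ℂ) ∉ A ∧ (Z.card : ℝ) ≤ 2 * A.card ∧
      (A.card : ℝ) ≤ Z.card ∧ ((AB A (vals (Polynomial.X : ℤ[X]) Z)).card : ℝ) ≤ (XX Z).card := by
  have hinj : Function.Injective fun x : ℤ => (x : ℂ) := Int.cast_injective
  refine ⟨(Z.erase 0).image fun x : ℤ => (x : ℂ), ?_, ?_, ?_, ?_, ?_⟩
  · rw [image_nonempty]
    refine card_pos.1 ?_
    have := pred_card_le_card_erase (s := Z) (a := (0 : ℤ))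
    omega
  · intro hcon
    obtain ⟨x, hx, hx0⟩ := mem_image.1 hcon
    have : x = 0 := by exact_mod_cast hx0
    exact (ne_of_mem_erase hx) this
  · rw [card_image_of_injective _ hinj]
    have h1 := pred_card_le_card_erase (s := Z) (a := (0 : ℤ))
    have h2 : Z.card ≤ 2 * (Z.erase 0).card := by omega
    exact_mod_cast h2
  · rw [card_image_of_injective _ hinj]
    exact_mod_cast card_erase_le
  · have h1 : AB ((Z.erase 0).image fun x : ℤ => (x : ℂ)) (vals (Polynomial.X : ℤ[X]) Z) ⊆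
        (XX Z).image fun x : ℤ => (x : ℂ) := by
      intro y hy
      unfold AB at hy
      obtain ⟨⟨a, v⟩, hav, rfl⟩ := mem_image.1 hy
      rw [mem_product, vals_X] at hav
      obtain ⟨x, hx, hxa⟩ := mem_image.1 hav.1
      have hxa' : (x : ℂ) = a := hxa
      refine mem_image.2 ⟨x * v, mem_image.2 ⟨(x, v), mem_product.2 ⟨erase_subset _ _ hx,
        erase_subset _ _ hav.2⟩, rfl⟩, ?_⟩
      show ((x * v : ℤ) : ℂ) = a * (v : ℂ)
      rw [Int.cast_mul, hxa']
    have h2 := (card_le_card h1).trans card_image_le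
    exact_mod_cast h2

lemma near_window {W₁ W₂ : ℝ} {n₁ n₂ : ℕ} (hn : n₁ ≤ n₂) (hW : W₂ ≤ W₁) (Z : Finset ℤ) :
    near n₂ W₂ Z ⊆ near n₁ W₁ Z := by
  intro x hx
  unfold near at *
  rw [mem_filter] at *
  refine ⟨hx.1, (hn.trans hx.2).trans (card_le_card ?_)⟩
  intro y hy
  rw [mem_filter] at *
  exact ⟨hy.1, hy.2.trans hW⟩

lemma pairs_window {W₁ W₂ : ℝ} (hW : W₂ ≤ W₁) (Z : Finset ℤ) : pairs W₂ Z ⊆ pairs W₁ Z := by
  intro x hx
  unfold pairs at *
  rw [mem_filter] at *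
  exact ⟨hx.1, hx.2.trans hW⟩

lemma len_left {η₁ η₂ : ℝ} (h : η₁ ≤ η₂) {N : ℕ} (hN : 3 ≤ N) : len η₁ N ≤ len η₂ N := by
  have har : (3 : ℝ) ≤ N := by exact_mod_cast hN
  have h1 : 1 ≤ Real.log N := by
    rw [← Real.log_exp 1]
    refine Real.log_le_log (Real.exp_pos _) ?_
    have := Real.exp_one_lt_d9
    linarith
  have h3 : 0 ≤ Real.log (Real.log N) := Real.log_nonneg h1
  unfold len
  exact Real.rpow_le_rpow_of_exponent_le (by linarith) (mul_le_mul_of_nonneg_right h h3)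

/-- **Close elements and close pairs of a set with few products.** -/
theorem selfPairs (ε : ℝ) (hε : 0 < ε) :
    ∃ n : ℕ, ∃ η C : ℝ, 0 < η ∧ 0 < C ∧ ∀ Z : Finset ℤ, Z.Nonempty →
      ((near n (len η Z.card) Z).card : ℝ) ≤ C * (Z.card : ℝ) ^ ε * ((XX Z).card / Z.card) ∧
      ((pairs (len η Z.card) Z).card : ℝ) ≤ n * Z.card +
        C * (Z.card : ℝ) ^ ε * ((XX Z).card / Z.card) ^ 2 := by
  obtain ⟨n₁, η₁, c, hη₁, hc, h₁⟩ := arbNear 1 (ε / 2) (by positivity)
  obtain ⟨n₂, η₂, C, hη₂, hC, h₂⟩ := arbPairs 1 (ε / 2) (by positivity)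
  refine ⟨max 3 (max n₁ n₂), min η₁ η₂, max (2 / c) (4 * C), lt_min hη₁ hη₂, by positivity, ?_⟩
  intro Z hZ
  have hZ1 : (1 : ℝ) ≤ Z.card := by exact_mod_cast hZ.card_pos
  have hZ0 : (0 : ℝ) < Z.card := by linarith
  obtain ⟨q, hq⟩ : ∃ q : ℝ, q = ((XX Z).card : ℝ) := ⟨_, rfl⟩
  have hq0 : 0 ≤ q := by rw [hq]; exact Nat.cast_nonneg _
  rw [← hq]
  obtain ⟨n, hn⟩ : ∃ n : ℕ, n = max 3 (max n₁ n₂) := ⟨_, rfl⟩
  have hn3 : 3 ≤ n := by rw [hn]; exact le_max_left _ _
  have hn1 : n₁ ≤ n := by rw [hn]; exact (le_max_left _ _).trans (le_max_right _ _)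
  have hn2 : n₂ ≤ n := by rw [hn]; exact (le_max_right _ _).trans (le_max_right _ _)
  rw [← hn]
  rcases Nat.lt_or_ge Z.card 3 with hZ3 | hZ3
  · -- at most two elements
    have he : near n (len (min η₁ η₂) Z.card) Z = ∅ := by
      unfold near
      rw [filter_eq_empty_iff]
      intro x _ hcon
      have h2 := card_filter_le Z fun y => ((|y - x| : ℤ) : ℝ) ≤ len (min η₁ η₂) Z.card
      omega
    refine ⟨?_, ?_⟩
    · rw [he, card_empty, Nat.cast_zero]
      positivity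
    · have h1 : (pairs (len (min η₁ η₂) Z.card) Z).card ≤ Z.card * Z.card :=
        (card_filter_le _ _).trans (by rw [card_product])
      have h3 : (pairs (len (min η₁ η₂) Z.card) Z).card ≤ n * Z.card :=
        h1.trans (Nat.mul_le_mul_right _ (by omega))
      have h4 : ((pairs (len (min η₁ η₂) Z.card) Z).card : ℝ) ≤ n * Z.card := by
        exact_mod_cast h3
      have h5 : 0 ≤ max (2 / c) (4 * C) * (Z.card : ℝ) ^ ε * (q / Z.card) ^ 2 := by positivity
      linarith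
  obtain ⟨A, hAn, hA0, hA1, hA2, hA3⟩ := self_le Z (by omega)
  rw [← hq] at hA3
  have hAp : (0 : ℝ) < A.card := by exact_mod_cast hAn.card_pos
  have hdX : (Polynomial.X : ℤ[X]).natDegree = 1 := natDegree_X
  have hAZ : ((A.card : ℝ) * Z.card) ^ (ε / 2) ≤ (Z.card : ℝ) ^ ε := by
    calc ((A.card : ℝ) * Z.card) ^ (ε / 2) ≤ ((Z.card : ℝ) * Z.card) ^ (ε / 2) := by
          refine Real.rpow_le_rpow (by positivity) ?_ (by positivity)
          exact mul_le_mul_of_nonneg_right hA2 hZ0.le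
      _ = (Z.card : ℝ) ^ ε := by
          rw [← sq, ← Real.rpow_natCast, ← Real.rpow_mul hZ0.le]
          congr 1
          push_cast
          ring
  have hAZ0 : 0 < ((A.card : ℝ) * Z.card) ^ (ε / 2) := by positivity
  -- the quotient
  have hquot : ((AB A (vals (Polynomial.X : ℤ[X]) Z)).card : ℝ) / A.card ≤ 2 * (q / Z.card) := by
    rw [div_le_iff₀ hAp]
    have h1 : q ≤ 2 * (q / Z.card) * A.card := by
      have h2 : 2 * (q / Z.card) * A.card = q * (2 * A.card / Z.card) := by ring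
      rw [h2]
      refine le_mul_of_one_le_right hq0 ?_
      rw [le_div_iff₀ hZ0]
      linarith
    linarith
  have hquot0 : 0 ≤ ((AB A (vals (Polynomial.X : ℤ[X]) Z)).card : ℝ) / A.card := by positivity
  refine ⟨?_, ?_⟩
  · have h3 := h₁ Polynomial.X hdX.ge hdX.le Z.card Z le_rfl A hAn hA0
    have h4 : ((near n (len (min η₁ η₂) Z.card) Z).card : ℝ) ≤
        (near n₁ (len η₁ Z.card) Z).card := by
      exact_mod_cast card_le_card (near_window hn1 (len_left (min_le_left _ _) hZ3) Z)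
    refine h4.trans ?_
    obtain ⟨b, hb⟩ : ∃ b : ℝ, b = ((near n₁ (len η₁ Z.card) Z).card : ℝ) := ⟨_, rfl⟩
    rw [← hb] at h3 ⊢
    rw [Real.rpow_neg (by positivity)] at h3
    have h5 : c * b / ((A.card : ℝ) * Z.card) ^ (ε / 2) ≤
        ((AB A (vals (Polynomial.X : ℤ[X]) Z)).card : ℝ) / A.card := by
      rw [le_div_iff₀ hAp]
      refine le_trans (le_of_eq ?_) h3
      field_simp
    have h6 := h5.trans hquot
    rw [div_le_iff₀ hAZ0] at h6
    have h7 : c * b ≤ 2 * (q / Z.card) * (Z.card : ℝ) ^ ε :=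
      h6.trans (mul_le_mul_of_nonneg_left hAZ (by positivity))
    calc b ≤ 2 * (q / Z.card) * (Z.card : ℝ) ^ ε / c := by
          rw [le_div_iff₀ hc]
          linarith
      _ = 2 / c * (Z.card : ℝ) ^ ε * (q / Z.card) := by ring
      _ ≤ _ := by
          refine mul_le_mul_of_nonneg_right ?_ (by positivity)
          exact mul_le_mul_of_nonneg_right (le_max_left _ _) (by positivity)
  · have h3 := h₂ Polynomial.X hdX.ge hdX.le Z A hAn hA0
    have h4 : ((pairs (len (min η₁ η₂) Z.card) Z).card : ℝ) ≤ (pairs (len η₂ Z.card) Z).card := by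
      exact_mod_cast card_le_card (pairs_window (len_left (min_le_right _ _) hZ3) Z)
    refine h4.trans (h3.trans ?_)
    refine add_le_add ?_ ?_
    · refine mul_le_mul_of_nonneg_right ?_ hZ0.le
      exact_mod_cast hn2
    · calc C * ((A.card : ℝ) * Z.card) ^ (ε / 2) *
            (((AB A (vals (Polynomial.X : ℤ[X]) Z)).card : ℝ) / A.card) ^ 2
          ≤ C * (Z.card : ℝ) ^ ε * (2 * (q / Z.card)) ^ 2 :=
            mul_le_mul (mul_le_mul_of_nonneg_left hAZ hC.le)
              (pow_le_pow_left₀ hquot0 hquot 2) (by positivity) (by positivity)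
        _ = 4 * C * (Z.card : ℝ) ^ ε * (q / Z.card) ^ 2 := by ring
        _ ≤ _ := by
            refine mul_le_mul_of_nonneg_right ?_ (by positivity)
            exact mul_le_mul_of_nonneg_right (le_max_right _ _) (by positivity)

/-- **Example.** The second term is necessary: `2 ^ i m`, `i < L`, `m` odd, `m < 2 M`. -/
theorem exGrid (L M : ℕ) (hL : 1 ≤ L) (hM : 1 ≤ M) :
    ∃ Z : Finset ℤ, Z.card = L * M ∧ (∀ z ∈ Z, 0 < z) ∧ (XX Z).card ≤ 4 * L * M ^ 2 ∧
      M ^ 2 ≤ (pairs (2 * M : ℝ) Z).card := by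
  have hinj : Set.InjOn (fun s : ℕ × ℕ => ((2 ^ s.1 * (2 * s.2 + 1) : ℕ) : ℤ))
      ((range L ×ˢ range M : Finset (ℕ × ℕ)) : Set (ℕ × ℕ)) := by
    intro s _ t _ hst
    have hst' : ((2 ^ s.1 * (2 * s.2 + 1) : ℕ) : ℤ) = ((2 ^ t.1 * (2 * t.2 + 1) : ℕ) : ℤ) := hst
    have h1 : 2 ^ s.1 * (2 * s.2 + 1) = 2 ^ t.1 * (2 * t.2 + 1) := by exact_mod_cast hst'
    have key : ∀ a b c d : ℕ, a ≤ c → 2 ^ a * (2 * b + 1) = 2 ^ c * (2 * d + 1) → a = c := by
      intro a b c d hac h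
      obtain ⟨e, rfl⟩ := Nat.exists_eq_add_of_le hac
      rcases Nat.eq_zero_or_pos e with he | he
      · omega
      · exfalso
        have h' : 2 ^ a * (2 * b + 1) = 2 ^ a * (2 ^ e * (2 * d + 1)) := by
          rw [h, pow_add]
          ring
        have h2 := Nat.eq_of_mul_eq_mul_left (by positivity) h'
        obtain ⟨e', rfl⟩ := Nat.exists_eq_add_of_le' he
        obtain ⟨z, hz⟩ : ∃ z, z = 2 ^ e' * (2 * d + 1) := ⟨_, rfl⟩
        have h3 : 2 ^ (e' + 1) * (2 * d + 1) = 2 * z := by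
          rw [hz]
          ring
        have h4 : 2 * b + 1 = 2 * z := h2.trans h3
        omega
    have h2 : s.1 = t.1 := by
      rcases le_total s.1 t.1 with h | h
      · exact key _ _ _ _ h h1
      · exact (key _ _ _ _ h h1.symm).symm
    rw [h2] at h1
    have h3 := Nat.eq_of_mul_eq_mul_left (by positivity) h1
    exact Prod.ext h2 (by omega)
  refine ⟨(range L ×ˢ range M).image fun s : ℕ × ℕ => ((2 ^ s.1 * (2 * s.2 + 1) : ℕ) : ℤ),
    ?_, ?_, ?_, ?_⟩
  · rw [card_image_of_injOn hinj, card_product, card_range, card_range]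
  · intro z hz
    obtain ⟨s, _, rfl⟩ := mem_image.1 hz
    have : 0 < 2 ^ s.1 * (2 * s.2 + 1) := by positivity
    exact_mod_cast this
  · have h1 : XX ((range L ×ˢ range M).image
        fun s : ℕ × ℕ => ((2 ^ s.1 * (2 * s.2 + 1) : ℕ) : ℤ)) ⊆
        (range (2 * L) ×ˢ range (2 * M ^ 2)).image
          fun s : ℕ × ℕ => ((2 ^ s.1 * (2 * s.2 + 1) : ℕ) : ℤ) := by
      intro y hy
      obtain ⟨⟨a, b⟩, hab, rfl⟩ := mem_image.1 hy
      rw [mem_product] at hab
      obtain ⟨s, hs, hs'⟩ := mem_image.1 hab.1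
      obtain ⟨t, ht, ht'⟩ := mem_image.1 hab.2
      rw [mem_product, mem_range, mem_range] at hs ht
      refine mem_image.2 ⟨(s.1 + t.1, 2 * s.2 * t.2 + s.2 + t.2), ?_, ?_⟩
      · rw [mem_product, mem_range, mem_range]
        refine ⟨by omega, ?_⟩
        show 2 * s.2 * t.2 + s.2 + t.2 < 2 * M ^ 2
        obtain ⟨u, hu⟩ := Nat.exists_eq_add_of_lt hs.2
        obtain ⟨v, hv⟩ := Nat.exists_eq_add_of_lt ht.2
        have hs2 : s.2 + 1 ≤ M := hs.2
        have ht2 : t.2 + 1 ≤ M := ht.2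
        have h5 := Nat.mul_le_mul hs2 ht2
        nlinarith
      · have hs'' : ((2 ^ s.1 * (2 * s.2 + 1) : ℕ) : ℤ) = a := hs'
        have ht'' : ((2 ^ t.1 * (2 * t.2 + 1) : ℕ) : ℤ) = b := ht'
        show ((2 ^ (s.1 + t.1) * (2 * (2 * s.2 * t.2 + s.2 + t.2) + 1) : ℕ) : ℤ) = a * b
        rw [← hs'', ← ht'', ← Nat.cast_mul]
        congr 1
        rw [pow_add]
        ring
    refine (card_le_card h1).trans (card_image_le.trans (le_of_eq ?_))
    rw [card_product, card_range, card_range]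
    ring
  · have h1 : ((range M ×ˢ range M).image
        fun s : ℕ × ℕ => (((2 * s.1 + 1 : ℕ) : ℤ), ((2 * s.2 + 1 : ℕ) : ℤ))) ⊆
        pairs (2 * M : ℝ) ((range L ×ˢ range M).image
          fun s : ℕ × ℕ => ((2 ^ s.1 * (2 * s.2 + 1) : ℕ) : ℤ)) := by
      intro y hy
      obtain ⟨s, hs, rfl⟩ := mem_image.1 hy
      rw [mem_product, mem_range, mem_range] at hs
      unfold pairs
      rw [mem_filter, mem_product]
      refine ⟨⟨mem_image.2 ⟨(0, s.1), mem_product.2 ⟨mem_range.2 (by omega),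
        mem_range.2 hs.1⟩, by simp⟩, mem_image.2 ⟨(0, s.2), mem_product.2
        ⟨mem_range.2 (by omega), mem_range.2 hs.2⟩, by simp⟩⟩, ?_⟩
      have h2 : |((2 * s.2 + 1 : ℕ) : ℤ) - ((2 * s.1 + 1 : ℕ) : ℤ)| ≤ ((2 * M : ℕ) : ℤ) := by
        rw [abs_le]
        push_cast
        constructor <;> omega
      have h3 : ((|((2 * s.2 + 1 : ℕ) : ℤ) - ((2 * s.1 + 1 : ℕ) : ℤ)| : ℤ) : ℝ) ≤
          (((2 * M : ℕ) : ℤ) : ℝ) := by exact_mod_cast h2
      refine h3.trans (le_of_eq ?_)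
      push_cast
      ring
    have h2 := card_le_card h1
    rw [card_image_of_injective, card_product, card_range] at h2
    · rw [sq]
      exact h2
    · intro s t hst
      rw [Prod.mk.injEq] at hst
      have h3 : 2 * s.1 + 1 = 2 * t.1 + 1 := by exact_mod_cast hst.1
      have h4 : 2 * s.2 + 1 = 2 * t.2 + 1 := by exact_mod_cast hst.2
      exact Prod.ext (by omega) (by omega)

end Pool.Agent.U358.LP
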